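import Pool.Agent.H36.KM.Mean

/-!
# The local data
-/

set_option autoImplicit false
set_option linter.unusedSectionVars false

namespace Pool.Agent.H36.KM

open Finset Polynomial
open Pool.Agent.Y722.HS (EM red)
open Pool.Agent.Y722.HS (EM_mono EM_const)
open Pool.Agent.Y722.LS (EM_add EM_mul)
open Pool.Agent.Y722.PC (EM_sum EM_prod EM_one EM_pair)
open Pool.Agent.Y722.ST (Dat)

section gen
variable {ι : Type} [Fintype ι] [DecidableEq ι]

theorem abs_EM_le (p : ℕ) [NeZero p] (f g : (ι → ZMod p) → ℝ) (h : ∀ c, |f c| ≤ g c) :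
    |EM p f| ≤ EM p g := by
  rw [abs_le]
  constructor
  · have h1 : EM p (fun c => (-1) * g c) ≤ EM p f := EM_mono p _ _ fun c => by
      have := (abs_le.1 (h c)).1
      linarith
    rw [EM_mul] at h1
    have e : EM p (fun c => g c) = EM p g := rfl
    linarith
  · exact EM_mono p _ _ fun c => (abs_le.1 (h c)).2

theorem one_le_prodR {J : Type} (s : Finset J) (x : J → ℝ) (h : ∀ j, 1 ≤ x j) :
    1 ≤ ∏ j ∈ s, x j := by
  classical
  induction s using Finset.induction_on with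
  | empty => simp
  | insert j s hj ih =>
    rw [Finset.prod_insert hj]
    exact one_le_mul_of_one_le_of_one_le (h j) ih

theorem datB (bad B : ∀ p : ℕ, (ι → ZMod p) → ℝ) (m C D : ℝ) (hC1 : 1 ≤ C) (hD0 : 0 ≤ D)
    (hb : ∀ p c, bad p c = 0 ∨ bad p c = 1)
    (hD : ∀ (p : ℕ) [Fact p.Prime], 3 ≤ p → EM p (bad p) ≤ D / p)
    (hB : ∀ (p : ℕ) [Fact p.Prime], 3 ≤ p →
      |EM p (B p) - m| ≤ C / p ∧ EM p (fun c => B p c ^ 2) ≤ C) :
    Dat (C + (C + D)) 3 (fun p c => (1 - bad p c) * B p c) m := by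
  have hC0 : 0 ≤ C := by linarith
  refine ⟨by linarith, fun p hp h3p => ?_, fun p hp h3p => ?_⟩
  · obtain ⟨h1, h2⟩ := hB p h3p
    have h3 : EM p (fun c => ((1 - bad p c) * B p c) ^ 2) ≤ EM p (fun c => B p c ^ 2) := by
      refine EM_mono p _ _ fun c => ?_
      rcases hb p c with h | h
      · rw [h, sub_zero, one_mul]
      · rw [h, sub_self, zero_mul]
        nlinarith [sq_nonneg (B p c)]
    linarith
  · obtain ⟨h1, h2⟩ := hB p h3p
    have hp0 : (0 : ℝ) < p := by exact_mod_cast hp.out.pos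
    have hp1 : (1 : ℝ) ≤ p := by exact_mod_cast hp.out.one_lt.le
    have hs1 : 1 ≤ √(p : ℝ) := Real.one_le_sqrt.2 hp1
    have hs0 : 0 < √(p : ℝ) := by linarith
    have hss : √(p : ℝ) * √(p : ℝ) = p := Real.mul_self_sqrt hp0.le
    have hsp : √(p : ℝ) ≤ p := by nlinarith
    have e1 : (fun c => (1 - bad p c) * B p c) = fun c =>
        B p c + (-1) * (bad p c * B p c) := by
      funext c
      ring
    have h4 : |EM p (fun c => bad p c * B p c)| ≤
        EM p (fun c => 1 / √p * (B p c ^ 2) + √p * bad p c) := by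
      refine abs_EM_le p _ _ fun c => ?_
      obtain ⟨x, hx⟩ : ∃ x, B p c = x := ⟨_, rfl⟩
      rw [hx]
      rcases hb p c with h | h
      · rw [h, zero_mul, abs_zero, mul_zero, add_zero]
        positivity
      · rw [h, one_mul, mul_one]
        obtain ⟨a, ha⟩ : ∃ a, √(p : ℝ) = a := ⟨_, rfl⟩
        rw [ha] at hs0 ⊢
        obtain ⟨z, hz⟩ : ∃ z, |x| = z := ⟨_, rfl⟩
        have hz2 : x ^ 2 = z ^ 2 := by rw [← hz, sq_abs]
        rw [hz, hz2]
        have h6 : z * a ≤ z ^ 2 + a * a := by nlinarith [sq_nonneg (z - a), sq_nonneg z]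
        have h7 : 1 / a * z ^ 2 + a = (z ^ 2 + a * a) / a := by field_simp
        rw [h7, le_div_iff₀ hs0]
        exact h6
    rw [EM_add, EM_mul, EM_mul] at h4
    have h5 : √(p : ℝ) * EM p (bad p) ≤ D / √p := by
      calc √(p : ℝ) * EM p (bad p) ≤ √(p : ℝ) * (D / p) := by
            gcongr
            exact hD p h3p
        _ = D / √p := by
            rw [eq_div_iff hs0.ne', mul_comm (√(p : ℝ)) (D / p), mul_assoc, hss,
              div_mul_cancel₀ _ hp0.ne']
    have h6 : 1 / √(p : ℝ) * EM p (fun c => B p c ^ 2) ≤ C / √p := by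
      rw [one_div_mul_eq_div]
      gcongr
    rw [e1, EM_add, EM_mul]
    have e0 : EM p (fun c => B p c) = EM p (B p) := rfl
    have e2 : EM p (fun c => B p c) + (-1) * EM p (fun c => bad p c * B p c) - m =
        (EM p (B p) - m) - EM p (fun c => bad p c * B p c) := by
      rw [e0]
      ring
    have e2' : EM p (B p) + (-1) * EM p (fun c => bad p c * B p c) - m =
        (EM p (B p) - m) - EM p (fun c => bad p c * B p c) := by
      ring
    rw [e2']
    refine (abs_sub _ _).trans ?_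
    have h7 : |EM p (fun c => bad p c * B p c)| ≤ (C + D) / √p := by
      rw [add_div]
      have h8 : EM p (fun c => bad p c) = EM p (bad p) := rfl
      linarith
    have h9 : C / (p : ℝ) ≤ C / √p := by gcongr
    refine (add_le_add (h1.trans h9) h7).trans ?_
    rw [← add_div]

end gen

section
variable {r : ℕ} {d : Fin r → ℕ}

open Classical in
/-- The indicator of the bad reduction of one of the curves. -/
noncomputable def badI (d : Fin r → ℕ) (p : ℕ) (c : (Σ i, Fin (d i + 1)) → ZMod p) : ℝ :=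
  if h : p.Prime then
    haveI : Fact p.Prime := ⟨h⟩
    if ∀ i, Sq1 (fun j => c ⟨i, j⟩) then 0 else 1
  else 0

theorem badI_cases (p : ℕ) (c : (Σ i, Fin (d i + 1)) → ZMod p) :
    badI d p c = 0 ∨ badI d p c = 1 := by
  unfold badI
  split_ifs
  · exact Or.inl rfl
  · exact Or.inr rfl
  · exact Or.inl rfl

theorem EM_badI (hd : ∀ i, 4 ≤ d i) (p : ℕ) [hp : Fact p.Prime] :
    EM p (badI d p) ≤ (∑ i, ((d i : ℝ) + 1)) / p := by
  classical
  have h1 : EM p (badI d p) ≤ EM p (fun c : (Σ i, Fin (d i + 1)) → ZMod p =>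
      ∑ i, (if Sq1 (fun j => c ⟨i, j⟩) then (0 : ℝ) else 1)) := by
    refine EM_mono p _ _ fun c => ?_
    have h0 : 0 ≤ ∑ i, (if Sq1 (fun j => c ⟨i, j⟩) then (0 : ℝ) else 1) :=
      Finset.sum_nonneg fun i _ => by split_ifs <;> norm_num
    unfold badI
    rw [dif_pos hp.out]
    split_ifs with h
    · exact h0
    · push Not at h
      obtain ⟨i, hi⟩ := h
      have h2 : (1 : ℝ) = (fun i : Fin r =>
          if Sq1 (fun j => c ⟨i, j⟩) then (0 : ℝ) else 1) i := by
        simp only [if_neg hi]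
      refine h2.le.trans ?_
      exact Finset.single_le_sum (f := fun i : Fin r =>
        if Sq1 (fun j => c ⟨i, j⟩) then (0 : ℝ) else 1)
        (fun i _ => by split_ifs <;> norm_num) (Finset.mem_univ i)
  refine h1.trans ?_
  rw [EM_sum, Finset.sum_div]
  refine Finset.sum_le_sum fun i _ => ?_
  have h2 := EM_one (ι := fun i => Fin (d i + 1)) p i
    (fun a => if Sq1 a then (0 : ℝ) else 1)
  rw [h2]
  exact EM_sq1 (hd i)

/-- The square of the trace. -/
noncomputable def A1 {n : ℕ} (p : ℕ) (a : Fin (n + 1) → ZMod p) : ℝ :=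
  if h : p.Prime then
    haveI : Fact p.Prime := ⟨h⟩
    SS (ZMod p) a ^ 2 / p
  else 0

/-- The trace of the square. -/
noncomputable def A2 {n : ℕ} (p : ℕ) (a : Fin (n + 1) → ZMod p) : ℝ :=
  if h : p.Prime then
    haveI : Fact p.Prime := ⟨h⟩
    S2 a / p
  else 0

/-- The normalized trace. -/
noncomputable def T1 {n : ℕ} (p : ℕ) (a : Fin (n + 1) → ZMod p) : ℝ :=
  if h : p.Prime then
    haveI : Fact p.Prime := ⟨h⟩
    SS (ZMod p) a / √p
  else 0

/-- The indices of the basic parts. -/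
abbrev Ix (r : ℕ) (d : Fin r → ℕ) : Type :=
  Fin r ⊕ (Fin r ⊕ ((Fin r × Fin r) ⊕ (∀ i, Composition (d i))))

/-- The basic functions. -/
noncomputable def BB (d : Fin r → ℕ) (x : Ix r d) (p : ℕ) (c : (Σ i, Fin (d i + 1)) → ZMod p) : ℝ :=
  match x with
  | Sum.inl i => A1 p (fun j => c ⟨i, j⟩)
  | Sum.inr (Sum.inl i) => A2 p (fun j => c ⟨i, j⟩)
  | Sum.inr (Sum.inr (Sum.inl q)) =>
      if q.1 < q.2 then T1 p (fun j => c ⟨q.1, j⟩) * T1 p (fun j => c ⟨q.2, j⟩) else 0
  | Sum.inr (Sum.inr (Sum.inr μ)) => ∏ i, NN (μ i) p (fun j => c ⟨i, j⟩)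

theorem BB_1 (i : Fin r) (p : ℕ) (c : (Σ i, Fin (d i + 1)) → ZMod p) :
    BB d (Sum.inl i) p c = A1 p (fun j => c ⟨i, j⟩) := rfl

theorem BB_2 (i : Fin r) (p : ℕ) (c : (Σ i, Fin (d i + 1)) → ZMod p) :
    BB d (Sum.inr (Sum.inl i)) p c = A2 p (fun j => c ⟨i, j⟩) := rfl

theorem BB_3 (q : Fin r × Fin r) (p : ℕ) (c : (Σ i, Fin (d i + 1)) → ZMod p) :
    BB d (Sum.inr (Sum.inr (Sum.inl q))) p c =
      if q.1 < q.2 then T1 p (fun j => c ⟨q.1, j⟩) * T1 p (fun j => c ⟨q.2, j⟩) else 0 := rfl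

theorem BB_4 (μ : ∀ i, Composition (d i)) (p : ℕ) (c : (Σ i, Fin (d i + 1)) → ZMod p) :
    BB d (Sum.inr (Sum.inr (Sum.inr μ))) p c = ∏ i, NN (μ i) p (fun j => c ⟨i, j⟩) := rfl

/-- The means. -/
noncomputable def mm (d : Fin r → ℕ) (x : Ix r d) : ℝ :=
  match x with
  | Sum.inl _ => 1
  | Sum.inr (Sum.inl _) => 1
  | Sum.inr (Sum.inr (Sum.inl _)) => 0
  | Sum.inr (Sum.inr (Sum.inr _)) => 1

theorem mom_T1 {n p : ℕ} [hp : Fact p.Prime] (hn : 4 ≤ n) (h2 : p ≠ 2) :
    EM p (fun a : Fin (n + 1) → ZMod p => T1 p a ^ 2) ≤ 2 := by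
  have hp1 : (1 : ℝ) ≤ p := by exact_mod_cast hp.out.one_lt.le
  have hp0 : (0 : ℝ) < p := by linarith
  have e1 : (fun a : Fin (n + 1) → ZMod p => T1 p a ^ 2) = fun a =>
      (1 / p : ℝ) * (SS (ZMod p) a ^ 2) := by
    funext a
    unfold T1
    rw [dif_pos hp.out, div_pow, Real.sq_sqrt hp0.le, one_div_mul_eq_div]
  rw [e1, EM_mul, EM_SS_sq hn h2]
  have h3 : (1 / p : ℝ) * ((p + 1) * (1 - 1 / p)) = 1 - 1 / p * (1 / p) := by
    field_simp
    ring
  rw [h3]
  have : 0 ≤ (1 / p : ℝ) * (1 / p) := by positivity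
  linarith

theorem mom_T1' {n p : ℕ} [hp : Fact p.Prime] (hn : 4 ≤ n) (h2 : p ≠ 2) :
    EM p (fun a : Fin (n + 1) → ZMod p => T1 p a) = 0 := by
  classical
  have e1 : (fun a : Fin (n + 1) → ZMod p => T1 p a) = fun a =>
      (1 / √p : ℝ) * (∑ P : Option (ZMod p), chi (ZMod p) a P) := by
    funext a
    unfold T1 SS
    rw [dif_pos hp.out, one_div_mul_eq_div]
  rw [e1, EM_mul, EM_sum, Finset.sum_eq_zero, mul_zero]
  intro P _
  have h1 := EM_chi (d := n) (ZMod p) (prime_ringChar h2) P (fun _ => 1) fun v => by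
    obtain ⟨b, hb1, -⟩ := sepOne (d := n) hn P ∅ (by simp) (by simp) v
    exact ⟨b, hb1, fun _ => rfl⟩
  simpa using h1

/-- A product of numbers close to one. -/
theorem prod_near {J : Type} (s : Finset J) (x B C : J → ℝ) (q : ℝ) (hq : 0 ≤ q)
    (h0 : ∀ j, |x j| ≤ B j) (h1 : ∀ j, 1 ≤ B j) (hC : ∀ j, 0 ≤ C j)
    (h : ∀ j, |x j - 1| ≤ C j * q) :
    |∏ j ∈ s, x j - 1| ≤ (∑ j ∈ s, C j) * (∏ j ∈ s, B j) * q := by
  classical
  induction s using Finset.induction_on with
  | empty => simp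
  | insert j s hj ih =>
    rw [Finset.prod_insert hj, Finset.sum_insert hj, Finset.prod_insert hj]
    have hB1 : 1 ≤ ∏ j ∈ s, B j := one_le_prodR s B h1
    have hS0 : 0 ≤ ∑ j ∈ s, C j := Finset.sum_nonneg fun i _ => hC i
    have e : x j * ∏ j ∈ s, x j - 1 = x j * (∏ j ∈ s, x j - 1) + (x j - 1) := by ring
    rw [e]
    refine (abs_add_le _ _).trans ?_
    rw [abs_mul]
    have hBj : 0 ≤ B j := by linarith [h1 j]
    have h3 : |x j| * |∏ j ∈ s, x j - 1| ≤ B j * ((∑ j ∈ s, C j) * (∏ j ∈ s, B j) * q) :=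
      mul_le_mul (h0 j) ih (abs_nonneg _) hBj
    have h4 : C j * q ≤ C j * (B j * ∏ j ∈ s, B j) * q := by
      have h5 : 1 ≤ B j * ∏ j ∈ s, B j := one_le_mul_of_one_le_of_one_le (h1 j) hB1
      have h6 : C j * 1 ≤ C j * (B j * ∏ j ∈ s, B j) := mul_le_mul_of_nonneg_left h5 (hC j)
      rw [mul_one] at h6
      exact mul_le_mul_of_nonneg_right h6 hq
    calc |x j| * |∏ j ∈ s, x j - 1| + |x j - 1| ≤
        B j * ((∑ j ∈ s, C j) * (∏ j ∈ s, B j) * q) + C j * (B j * ∏ j ∈ s, B j) * q :=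
          add_le_add h3 ((h j).trans h4)
      _ = _ := by ring

/-- **The local data.** -/
theorem dat (hd : ∀ i, 4 ≤ d i) (x : Ix r d) :
    ∃ K : ℝ, Dat K 3 (fun p c => (1 - badI d p c) * BB d x p c) (mm d x) := by
  classical
  have hD0 : 0 ≤ ∑ i, ((d i : ℝ) + 1) := by positivity
  have hD : ∀ (p : ℕ) [Fact p.Prime], 3 ≤ p → EM p (badI d p) ≤ (∑ i, ((d i : ℝ) + 1)) / p :=
    fun p _ _ => EM_badI hd p
  match x with
  | Sum.inl i =>
    refine ⟨_, datB (badI d) _ 1 12 _ (by norm_num) hD0 badI_cases hD fun p hp h3 => ?_⟩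
    obtain ⟨h1, h2⟩ := mom1 (d := d i) (p := p) (hd i) (by omega)
    have e1 : EM p (BB d (Sum.inl i) p) = EM p (fun a : Fin (d i + 1) → ZMod p =>
        SS (ZMod p) a ^ 2 / p) := by
      have := EM_one (ι := fun i => Fin (d i + 1)) p i (fun a => SS (ZMod p) a ^ 2 / p)
      rw [← this]
      congr 1
      funext c
      rw [BB_1]
      unfold A1
      rw [dif_pos hp.out]
    have e2 : EM p (fun c => BB d (Sum.inl i) p c ^ 2) = EM p (fun a : Fin (d i + 1) → ZMod p =>
        (SS (ZMod p) a ^ 2 / p) ^ 2) := by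
      have := EM_one (ι := fun i => Fin (d i + 1)) p i (fun a => (SS (ZMod p) a ^ 2 / p) ^ 2)
      rw [← this]
      congr 1
      funext c
      rw [BB_1]
      unfold A1
      rw [dif_pos hp.out]
    rw [e1, e2]
    refine ⟨h1.trans ?_, h2⟩
    gcongr
    norm_num
  | Sum.inr (Sum.inl i) =>
    refine ⟨_, datB (badI d) _ 1 12 _ (by norm_num) hD0 badI_cases hD fun p hp h3 => ?_⟩
    obtain ⟨h1, h2⟩ := mom2 (d := d i) (p := p) (hd i) (by omega)
    have e1 : EM p (BB d (Sum.inr (Sum.inl i)) p) = EM p (fun a : Fin (d i + 1) → ZMod p =>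
        S2 a / p) := by
      have := EM_one (ι := fun i => Fin (d i + 1)) p i (fun a => S2 a / p)
      rw [← this]
      congr 1
      funext c
      rw [BB_2]
      unfold A2
      rw [dif_pos hp.out]
    have e2 : EM p (fun c => BB d (Sum.inr (Sum.inl i)) p c ^ 2) =
        EM p (fun a : Fin (d i + 1) → ZMod p => (S2 a / p) ^ 2) := by
      have := EM_one (ι := fun i => Fin (d i + 1)) p i (fun a => (S2 a / p) ^ 2)
      rw [← this]
      congr 1
      funext c
      rw [BB_2]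
      unfold A2
      rw [dif_pos hp.out]
    rw [e1, e2]
    refine ⟨h1.trans ?_, h2⟩
    gcongr
    norm_num
  | Sum.inr (Sum.inr (Sum.inl q)) =>
    refine ⟨_, datB (badI d) _ 0 4 _ (by norm_num) hD0 badI_cases hD fun p hp h3 => ?_⟩
    have h2 : p ≠ 2 := by omega
    by_cases hq : q.1 < q.2
    · have e1 : EM p (BB d (Sum.inr (Sum.inr (Sum.inl q))) p) = 0 := by
        have h4 := EM_pair (ι := fun i => Fin (d i + 1)) p q.1 q.2 hq.ne
          (fun i a => T1 p a)
        rw [mom_T1' (hd q.1) h2, zero_mul] at h4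
        rw [← h4]
        congr 1
        funext c
        rw [BB_3, if_pos hq]
      have e2 : EM p (fun c => BB d (Sum.inr (Sum.inr (Sum.inl q))) p c ^ 2) ≤ 4 := by
        have h4 := EM_pair (ι := fun i => Fin (d i + 1)) p q.1 q.2 hq.ne
          (fun i a => T1 p a ^ 2)
        have h5 : EM p (fun c => BB d (Sum.inr (Sum.inr (Sum.inl q))) p c ^ 2) =
            EM p (fun a : Fin (d q.1 + 1) → ZMod p => T1 p a ^ 2) *
              EM p (fun a : Fin (d q.2 + 1) → ZMod p => T1 p a ^ 2) := by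
          rw [← h4]
          congr 1
          funext c
          rw [BB_3, if_pos hq, mul_pow]
        rw [h5]
        have h6 := mom_T1 (p := p) (hd q.1) h2
        have h7 := mom_T1 (p := p) (hd q.2) h2
        have h8 : 0 ≤ EM p (fun a : Fin (d q.2 + 1) → ZMod p => T1 p a ^ 2) :=
          Pool.Agent.Y722.LS.EM_nonneg p _ fun a => sq_nonneg _
        calc _ ≤ (2 : ℝ) * 2 := mul_le_mul h6 h7 h8 (by norm_num)
          _ = 4 := by norm_num
      rw [e1, sub_zero, abs_zero]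
      exact ⟨by positivity, e2⟩
    · have e0 : BB d (Sum.inr (Sum.inr (Sum.inl q))) p = fun _ => 0 := by
        funext c
        rw [BB_3, if_neg hq]
      rw [e0, EM_const, sub_zero, abs_zero]
      refine ⟨by positivity, ?_⟩
      have e3 : (fun _ : (Σ i, Fin (d i + 1)) → ZMod p => (0 : ℝ) ^ 2) = fun _ => 0 := by
        funext c
        norm_num
      rw [e3, EM_const]
      norm_num
  | Sum.inr (Sum.inr (Sum.inr μ)) =>
    set B : Fin r → ℝ := fun i => (2 ^ d i) ^ d i with hB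
    have hB1 : ∀ i, 1 ≤ B i := fun i => one_le_pow₀ (one_le_pow₀ (by norm_num))
    have hB0 : ∀ i, 0 ≤ B i := fun i => by linarith [hB1 i]
    set C : ℝ := (∑ i, (1 + B i)) * (∏ i, B i) + (∏ i, B i) ^ 2 with hCdef
    have hPB : 1 ≤ ∏ i, B i := one_le_prodR _ B hB1
    have hS0 : 0 ≤ ∑ i, (1 + B i) := Finset.sum_nonneg fun i _ => by linarith [hB0 i]
    have hC1 : 1 ≤ C := by
      have h4 : 0 ≤ (∑ i, (1 + B i)) * (∏ i, B i) := mul_nonneg hS0 (by linarith)
      nlinarith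
    refine ⟨_, datB (badI d) _ 1 C _ hC1 hD0 badI_cases hD fun p hp h3 => ?_⟩
    have hp0 : (0 : ℝ) < p := by exact_mod_cast hp.out.pos
    constructor
    · have e1 : EM p (BB d (Sum.inr (Sum.inr (Sum.inr μ))) p) = ∏ i, EM p (NN (μ i) p) :=
        EM_prod (ι := fun i => Fin (d i + 1)) p (fun i => NN (μ i) p)
      rw [e1]
      have h4 := prod_near Finset.univ (fun i => EM p (NN (μ i) p)) B (fun i => 1 + B i)
        (1 / (p : ℝ)) (by positivity) (fun i => by
          rw [abs_of_nonneg (Pool.Agent.Y722.LS.EM_nonneg p _ fun a => (NN_bd (μ i) a).1)]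
          have h5 : EM p (NN (μ i) p) ≤ EM p (fun _ : Fin (d i + 1) → ZMod p => B i) :=
            EM_mono p _ _ fun a => (NN_bd (μ i) a).2
          rwa [EM_const] at h5) hB1 (fun i => by linarith [hB0 i]) (fun i => by
          have h5 := NN_mean (p := p) (hd i) (μ i)
          rw [mul_one_div]
          exact h5)
      refine h4.trans ?_
      rw [mul_one_div]
      apply div_le_div_of_nonneg_right _ hp0.le
      rw [hCdef]
      have : 0 ≤ (∏ i, B i) ^ 2 := sq_nonneg _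
      linarith
    · have h4 : EM p (fun c => BB d (Sum.inr (Sum.inr (Sum.inr μ))) p c ^ 2) ≤
          EM p (fun _ : (Σ i, Fin (d i + 1)) → ZMod p => (∏ i, B i) ^ 2) := by
        refine EM_mono p _ _ fun c => ?_
        rw [BB_4]
        have h5 : 0 ≤ ∏ i, NN (μ i) p (fun j => c ⟨i, j⟩) :=
          Finset.prod_nonneg fun i _ => (NN_bd (μ i) _).1
        have h6 : ∏ i, NN (μ i) p (fun j => c ⟨i, j⟩) ≤ ∏ i, B i :=
          Finset.prod_le_prod (fun i _ => (NN_bd (μ i) _).1) fun i _ => (NN_bd (μ i) _).2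
        exact pow_le_pow_left₀ h5 h6 2
      rw [EM_const] at h4
      refine h4.trans ?_
      rw [hCdef]
      have : 0 ≤ (∑ i, (1 + B i)) * (∏ i, B i) := mul_nonneg hS0 (by linarith)
      linarith

end

end Pool.Agent.H36.KM
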