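import Pool.Agent.H36.KM.Joint3
import Pool.Agent.H36.KM.Dat

/-!
# The local data of one curve
-/

set_option autoImplicit false
set_option linter.unusedSectionVars false

namespace Pool.Agent.H36.KM

open Finset Polynomial
open Pool.Agent.Y722.HS (EM red)
open Pool.Agent.Y722.HS (EM_mono EM_const)
open Pool.Agent.Y722.LS (EM_add EM_mul)
open Pool.Agent.Y722.PC (EM_sum)

section
variable {n p : ℕ} [hp : Fact p.Prime]

/-- The basic functions of one curve. -/
noncomputable def XX (t : Fin 4) (p : ℕ) (a : Fin (n + 1) → ZMod p) : ℝ :=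
  match t with
  | 0 => 1
  | 1 => (A1 p a + A2 p a) / 2
  | 2 => (A1 p a - A2 p a) / 2
  | 3 => -T1 p a

/-- Their means. -/
def mt (t : Fin 4) : ℝ :=
  match t with
  | 0 => 1
  | 1 => 1
  | 2 => 0
  | 3 => 0

open Classical in
/-- The main part of the mean. -/
noncomputable def mp (μ : Composition n) (X : (Fin (n + 1) → ZMod p) → ℝ) : ℝ :=
  EM p (fun a : Fin (n + 1) → ZMod p => if a (Fin.last n) ≠ 0 then nf μ a * X a else 0)

theorem mp_lin (μ : Composition n) (X Y : (Fin (n + 1) → ZMod p) → ℝ) (s t : ℝ) :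
    mp μ (fun a => s * X a + t * Y a) = s * mp μ X + t * mp μ Y := by
  classical
  unfold mp
  rw [← EM_mul, ← EM_mul, ← EM_add]
  congr 1
  funext a
  split_ifs <;> ring

open Classical in
theorem jn (hn : 4 ≤ n) (μ : Composition n) (X : (Fin (n + 1) → ZMod p) → ℝ) (m K0 : ℝ)
    (h1 : EM p (fun a => X a ^ 2) ≤ 12) (h2 : |mp μ X - m| ≤ K0 / p) (hK0 : 0 ≤ K0) :
    |EM p (fun a => X a * NN μ p a) - m| ≤ (K0 + 13 * (2 ^ n) ^ n) / √p ∧
      EM p (fun a => (X a * NN μ p a) ^ 2) ≤ ((2 ^ n) ^ n) ^ 2 * 12 := by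
  have hp0 : (0 : ℝ) < p := by exact_mod_cast hp.out.pos
  have hp1 : (1 : ℝ) ≤ p := by exact_mod_cast hp.out.one_lt.le
  have hs1 : 1 ≤ √(p : ℝ) := Real.one_le_sqrt.2 hp1
  have hs0 : 0 < √(p : ℝ) := by linarith
  have hss : √(p : ℝ) * √(p : ℝ) = p := Real.mul_self_sqrt hp0.le
  have hsp : √(p : ℝ) ≤ p := by nlinarith
  set B : ℝ := (2 ^ n) ^ n with hB
  have hB0 : 0 < B := by positivity
  constructor
  · have e1 : (fun a => X a * NN μ p a) = fun a =>
        (if a (Fin.last n) ≠ 0 then nf μ a * X a else 0) +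
          (X a * NN μ p a - (if a (Fin.last n) ≠ 0 then nf μ a * X a else 0)) := by
      funext a
      ring
    have h3 : |EM p (fun a => X a * NN μ p a - (if a (Fin.last n) ≠ 0 then nf μ a * X a else 0))| ≤
        EM p (fun a => (B / √p) * X a ^ 2 +
          (B * √p) * (if ev (ZMod p) a none = 0 then (1 : ℝ) else 0)) := by
      refine abs_EM_le p _ _ fun a => ?_
      have hb := NN_bd (p := p) μ a
      by_cases ha : a (Fin.last n) ≠ 0
      · have h4 : NN μ p a = nf μ a := by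
          unfold NN
          rw [dif_pos hp.out, if_neg (ne_of_last a ha)]
        rw [if_pos ha, h4]
        have e : X a * nf μ a - nf μ a * X a = 0 := by ring
        rw [e, abs_zero]
        have : 0 ≤ (if ev (ZMod p) a none = 0 then (1 : ℝ) else 0) := by split_ifs <;> norm_num
        positivity
      · have h5 : ev (ZMod p) a none = 0 := not_not.1 ha
        rw [if_neg ha, if_pos h5, sub_zero, mul_one, abs_mul, abs_of_nonneg hb.1]
        obtain ⟨x, hx⟩ : ∃ x, |X a| = x := ⟨_, rfl⟩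
        obtain ⟨s, hs⟩ : ∃ s, √(p : ℝ) = s := ⟨_, rfl⟩
        have hx2 : X a ^ 2 = x ^ 2 := by rw [← hx, sq_abs]
        have hx0 : 0 ≤ x := by rw [← hx]; exact abs_nonneg _
        rw [hs] at hs0
        rw [hx2, hx, hs]
        have h6 : x * NN μ p a ≤ x * B := mul_le_mul_of_nonneg_left hb.2 hx0
        have h7 : B / s * x ^ 2 + B * s = B * ((x ^ 2 + s * s) / s) := by field_simp
        rw [h7]
        refine h6.trans ?_
        rw [mul_comm]
        refine mul_le_mul_of_nonneg_left ?_ hB0.le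
        rw [le_div_iff₀ hs0]
        nlinarith [sq_nonneg (x - s), sq_nonneg x, sq_nonneg s]
    have hz : EM p (fun a : Fin (n + 1) → ZMod p => if ev (ZMod p) a none = 0 then (1 : ℝ) else 0) =
        1 / p := EM_zero hn none
    rw [EM_add, EM_mul, EM_mul, hz] at h3
    have h8 : B / √p * EM p (fun a => X a ^ 2) ≤ B / √p * 12 :=
      mul_le_mul_of_nonneg_left h1 (by positivity)
    have h9 : B * √p * (1 / (p : ℝ)) = B / √p := by
      rw [mul_one_div, div_eq_div_iff hp0.ne' hs0.ne', mul_assoc, hss]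
    rw [e1, EM_add]
    have e2 : EM p (fun a => if a (Fin.last n) ≠ 0 then nf μ a * X a else 0) = mp μ X := rfl
    rw [e2]
    have e3 : ∀ y : ℝ, mp μ X + y - m = (mp μ X - m) + y := fun y => by ring
    rw [e3]
    refine (abs_add_le _ _).trans ?_
    have h10 : K0 / (p : ℝ) ≤ K0 / √p := by gcongr
    have h11 : (K0 + 13 * B) / √(p : ℝ) = K0 / √p + (B / √p * 12 + B / √p) := by ring
    rw [h11]
    linarith
  · rw [← EM_const (ι := Fin (n + 1)) p (B ^ 2 * 12)]
    have h3 : EM p (fun a => (X a * NN μ p a) ^ 2) ≤ EM p (fun a => B ^ 2 * X a ^ 2) := by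
      refine EM_mono p _ _ fun a => ?_
      have hb := NN_bd (p := p) μ a
      rw [mul_pow, mul_comm]
      have h4 : NN μ p a ^ 2 ≤ B ^ 2 := pow_le_pow_left₀ hb.1 hb.2 2
      exact mul_le_mul_of_nonneg_right h4 (sq_nonneg _)
    rw [EM_mul] at h3
    rw [EM_const]
    refine h3.trans ?_
    exact mul_le_mul_of_nonneg_left h1 (sq_nonneg _)

theorem A1_eq (a : Fin (n + 1) → ZMod p) : A1 p a = SS (ZMod p) a ^ 2 / p := by
  unfold A1
  rw [dif_pos hp.out]

theorem A2_eq (a : Fin (n + 1) → ZMod p) : A2 p a = S2 a / p := by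
  unfold A2
  rw [dif_pos hp.out]

theorem T1_eq (a : Fin (n + 1) → ZMod p) : T1 p a = SS (ZMod p) a / √p := by
  unfold T1
  rw [dif_pos hp.out]

theorem mp_A1 (hn : 4 ≤ n) (h2 : p ≠ 2) (μ : Composition n) :
    |mp μ (fun a => A1 p a) - 1| ≤ (n + 5) / p := by
  have h := mn_sq (p := p) (d := n) (by omega) h2 μ
  unfold mp
  simp only [A1_eq]
  exact h

theorem mp_A2 (hn : 4 ≤ n) (h2 : p ≠ 2) (μ : Composition n) :
    |mp μ (fun a => A2 p a) - 1| ≤ (n + 5) / p := by
  have h := mn_S2 (p := p) (d := n) (by omega) h2 μ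
  unfold mp
  simp only [A2_eq]
  exact h

theorem mp_T1 (h2 : p ≠ 2) (μ : Composition n) : mp μ (fun a => T1 p a) = 0 := by
  classical
  have h := mn_lin (p := p) (d := n) h2 μ
  have h3 := mp_lin (p := p) μ (fun a => SS (ZMod p) a) (fun _ => 0) (1 / √(p : ℝ)) 0
  have e : mp μ (fun a => SS (ZMod p) a) = 0 := h
  rw [e] at h3
  simp only [mul_zero, zero_mul, add_zero] at h3
  refine Eq.trans ?_ h3
  congr 1
  funext a
  rw [T1_eq]
  ring

/-- **The local data of one curve.** -/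
theorem cur (hn : 4 ≤ n) (t : Fin 4) (μ : Composition n) : ∃ K : ℝ, 1 ≤ K ∧
    ∀ (p : ℕ) [Fact p.Prime], 3 ≤ p →
      |EM p (fun a : Fin (n + 1) → ZMod p => XX t p a * NN μ p a) - mt t| ≤ K / √p ∧
      EM p (fun a : Fin (n + 1) → ZMod p => (XX t p a * NN μ p a) ^ 2) ≤ K := by
  classical
  set B : ℝ := (2 ^ n) ^ n with hB
  have hB1 : 1 ≤ B := one_le_pow₀ (one_le_pow₀ (by norm_num))
  refine ⟨(n + 5) + 13 * B + B ^ 2 * 12, by nlinarith, fun p hp h3 => ?_⟩
  have h2 : p ≠ 2 := by omega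
  have hp1 : (1 : ℝ) ≤ p := by exact_mod_cast hp.out.one_lt.le
  have hp0 : (0 : ℝ) < p := by linarith
  have hs0 : 0 < √(p : ℝ) := Real.sqrt_pos.2 hp0
  have hn0 : (0 : ℝ) ≤ n := Nat.cast_nonneg n
  have key : ∀ (X : (Fin (n + 1) → ZMod p) → ℝ) (m : ℝ), EM p (fun a => X a ^ 2) ≤ 12 →
      |mp μ X - m| ≤ (n + 5) / p →
      |EM p (fun a => X a * NN μ p a) - m| ≤ ((n + 5) + 13 * B + B ^ 2 * 12) / √p ∧
      EM p (fun a => (X a * NN μ p a) ^ 2) ≤ (n + 5) + 13 * B + B ^ 2 * 12 := by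
    intro X m h4 h5
    obtain ⟨h6, h7⟩ := jn hn μ X m (n + 5) h4 h5 (by positivity)
    refine ⟨h6.trans ?_, h7.trans ?_⟩
    · apply div_le_div_of_nonneg_right _ hs0.le
      nlinarith [sq_nonneg B]
    · nlinarith
  have q1 := mom1 (d := n) (p := p) hn h2
  have q2 := mom2 (d := n) (p := p) hn h2
  have r1 : EM p (fun a : Fin (n + 1) → ZMod p => A1 p a ^ 2) ≤ 12 := by
    simp only [A1_eq]
    exact q1.2
  have r2 : EM p (fun a : Fin (n + 1) → ZMod p => A2 p a ^ 2) ≤ 12 := by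
    simp only [A2_eq]
    exact q2.2
  have hm1 := mp_A1 (p := p) hn h2 μ
  have hm2 := mp_A2 (p := p) hn h2 μ
  match t with
  | 0 =>
    have h4 := NN_mean (p := p) hn μ
    refine key (fun _ => 1) 1 ?_ ?_
    · simp only [one_pow]
      rw [EM_const]
      norm_num
    · have h5 := EM_nf_last (p := p) μ
      have e : mp μ (fun _ : Fin (n + 1) → ZMod p => (1 : ℝ)) = 1 - 1 / p := by
        rw [← h5]
        unfold mp
        simp only [mul_one]
      rw [e]
      have e2 : (1 : ℝ) - 1 / p - 1 = -(1 / p) := by ring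
      rw [e2, abs_neg, abs_of_nonneg (by positivity)]
      gcongr
      linarith
  | 1 =>
    refine key (fun a => (A1 p a + A2 p a) / 2) 1 ?_ ?_
    · have h4 : EM p (fun a : Fin (n + 1) → ZMod p => ((A1 p a + A2 p a) / 2) ^ 2) ≤
          EM p (fun a => (1 / 2) * A1 p a ^ 2 + (1 / 2) * A2 p a ^ 2) :=
        EM_mono p _ _ fun a => by nlinarith [sq_nonneg (A1 p a - A2 p a)]
      rw [EM_add, EM_mul, EM_mul] at h4
      linarith
    · have e : (fun a : Fin (n + 1) → ZMod p => (A1 p a + A2 p a) / 2) = fun a =>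
          (1 / 2 : ℝ) * A1 p a + (1 / 2) * A2 p a := by
        funext a
        ring
      rw [e, mp_lin μ (fun a => A1 p a) (fun a => A2 p a)]
      rw [abs_le] at hm1 hm2 ⊢
      constructor <;> linarith
  | 2 =>
    refine key (fun a => (A1 p a - A2 p a) / 2) 0 ?_ ?_
    · have h4 : EM p (fun a : Fin (n + 1) → ZMod p => ((A1 p a - A2 p a) / 2) ^ 2) ≤
          EM p (fun a => (1 / 2) * A1 p a ^ 2 + (1 / 2) * A2 p a ^ 2) :=
        EM_mono p _ _ fun a => by nlinarith [sq_nonneg (A1 p a + A2 p a)]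
      rw [EM_add, EM_mul, EM_mul] at h4
      linarith
    · have e : (fun a : Fin (n + 1) → ZMod p => (A1 p a - A2 p a) / 2) = fun a =>
          (1 / 2 : ℝ) * A1 p a + (-(1 / 2)) * A2 p a := by
        funext a
        ring
      rw [e, mp_lin μ (fun a => A1 p a) (fun a => A2 p a)]
      rw [abs_le] at hm1 hm2 ⊢
      constructor <;> linarith
  | 3 =>
    refine key (fun a => -T1 p a) 0 ?_ ?_
    · simp only [neg_sq]
      exact (mom_T1 (p := p) hn h2).trans (by norm_num)
    · have e : (fun a : Fin (n + 1) → ZMod p => -T1 p a) = fun a =>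
          (-1 : ℝ) * T1 p a + 0 * T1 p a := by
        funext a
        ring
      rw [e, mp_lin μ (fun a => T1 p a) (fun a => T1 p a), mp_T1 h2]
      simp only [mul_zero, add_zero, sub_zero, abs_zero]
      positivity

end

end Pool.Agent.H36.KM
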