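import Pool.Graph.R_pool_sql_team_seeded_efc1946e.K1H81.HW.Fin2
import Mathlib.Combinatorics.Enumerative.Composition
import Mathlib.FieldTheory.Finite.GaloisField

/-!
# Varieties built from a hyperelliptic curve and its branch points: definitions

`f = ∑ c_i x^i` is a polynomial of degree at most `d`, `d` even; `C` is the curve `y² = f(x)`, with the
points at infinity given by `y² = c_d`; the branch points of `C → ℙ¹` are the `d` zeros of the form
`F = ∑ c_i x^i z^(d-i)`.
-/

set_option autoImplicit false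

namespace Pool.Agent.H36.KM

open Finset Polynomial

/-- The reduction modulo `p` of the polynomial `∑ c_i x^i`. -/
noncomputable def fmod {d : ℕ} (c : Fin (d + 1) → ℤ) (p : ℕ) : (ZMod p)[X] :=
  ∑ i, C (c i : ZMod p) * X ^ (i : ℕ)

/-- The number of the points of `C : y² = ∑ c_i x^i` over the field with `p ^ k` elements, for `p`
prime: the number of the affine points and of the points at infinity, which are the solutions of
`y² = c_d`. -/
noncomputable def numPoints {d : ℕ} (c : Fin (d + 1) → ℤ) (p k : ℕ) : ℝ :=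
  if h : p.Prime then
    haveI : Fact p.Prime := ⟨h⟩
    (Nat.card {P : GaloisField p k × GaloisField p k //
      P.2 ^ 2 = ∑ i, (c i : GaloisField p k) * P.1 ^ (i : ℕ)} : ℝ) +
      Nat.card {y : GaloisField p k // y ^ 2 = (c (Fin.last d) : GaloisField p k)}
  else 0

/-- The trace of the `k`-th power of Frobenius at `p` on `H¹(C)`. -/
noncomputable def traceH1 {d : ℕ} (c : Fin (d + 1) → ℤ) (p k : ℕ) : ℝ :=
  (p : ℝ) ^ k + 1 - numPoints c p k

/-- The trace of Frobenius at `p` on the permutation representation `M^μ` on the ordered partitions of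
the set of the `d` branch points into sets of `μ_1, …, μ_m` elements, for a composition
`μ = (μ_1, …, μ_m)` of `d`.  It is the number of the factorizations of the reduction `F_p` of `F`,
up to constant factors, into forms of the degrees `μ_1, …, μ_m`, the `j`-th form being
`z^(μ_j - deg q_j)` times the homogenization of a monic polynomial `q_j` of degree at most `μ_j`. -/
noncomputable def numFact {d : ℕ} (μ : Composition d) (c : Fin (d + 1) → ℤ) (p : ℕ) : ℝ :=
  Nat.card {q : Fin μ.length → (ZMod p)[X] //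
    (∀ j, (q j).Monic ∧ (q j).natDegree ≤ μ.blocksFun j) ∧
      C (fmod c p).leadingCoeff * ∏ j, q j = fmod c p}

/-- The curve `C` has good reduction at the prime `p`: `p` is odd and the reduction of the form `F` is
not zero and not divisible by the square of a form of positive degree. -/
def GoodReduction {d : ℕ} (c : Fin (d + 1) → ℤ) (p : ℕ) : Prop :=
  p.Prime ∧ p ≠ 2 ∧ Squarefree (fmod c p) ∧ d ≤ (fmod c p).natDegree + 1

section
variable {r : ℕ} {d : Fin r → ℕ}

/-- The multiplicities in `H²(V)`, for `V` built from the curves `C_1, …, C_r`: the space `H²(V)` is the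
sum of `l i` copies of `Λ²H¹(C_i)`, of `s i` copies of `Sym²H¹(C_i)`, of `t i j` copies of
`H¹(C_i) ⊗ H¹(C_j)` for `i < j`, and of `e μ` copies of `(M^{μ_1} ⊗ … ⊗ M^{μ_r})(-1)`, for the
tuples `μ` of compositions `μ_i` of the `d_i`, where `M^{μ_i}` is the permutation representation on the
ordered partitions of type `μ_i` of the set of the branch points of `C_i`. -/
structure Shape (r : ℕ) (d : Fin r → ℕ) where
  l : Fin r → ℝ
  s : Fin r → ℝ
  t : Fin r → Fin r → ℝ
  e : (∀ i, Composition (d i)) → ℝ

/-- The trace `b_p(V)` of Frobenius at `p` on `H²(V)`. -/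
noncomputable def traceH2 (V : Shape r d) (c : (Σ i, Fin (d i + 1)) → ℤ) (p : ℕ) : ℝ :=
  ∑ i, V.l i * ((traceH1 (fun j => c ⟨i, j⟩) p 1 ^ 2 - traceH1 (fun j => c ⟨i, j⟩) p 2) / 2) +
    ∑ i, V.s i * ((traceH1 (fun j => c ⟨i, j⟩) p 1 ^ 2 + traceH1 (fun j => c ⟨i, j⟩) p 2) / 2) +
    ∑ q : Fin r × Fin r with q.1 < q.2, V.t q.1 q.2 *
      (traceH1 (fun j => c ⟨q.1, j⟩) p 1 * traceH1 (fun j => c ⟨q.2, j⟩) p 1) +
    ∑ μ, V.e μ * (p * ∏ i, numFact (μ i) (fun j => c ⟨i, j⟩) p)

/-- The predicted rank of `NS(V/ℚ)`: the sum of the `l i` and of the `e μ`. -/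
noncomputable def rank (V : Shape r d) : ℝ := ∑ i, V.l i + ∑ μ, V.e μ

/-- The sum of the absolute values of the multiplicities. -/
noncomputable def size (V : Shape r d) : ℝ :=
  ∑ i, |V.l i| + ∑ i, |V.s i| + ∑ q : Fin r × Fin r with q.1 < q.2, |V.t q.1 q.2| + ∑ μ, |V.e μ|

/-- All the curves `C_i` have good reduction at the odd prime `p`. -/
def Good (c : (Σ i, Fin (d i + 1)) → ℤ) (p : ℕ) : Prop :=
  p.Prime ∧ p ≠ 2 ∧ ∀ i, GoodReduction (fun j => c ⟨i, j⟩) p

open Classical in
/-- The sum of `w_p b_p(V) log(p) / p` over the primes `p < T` of good reduction. -/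
noncomputable def tateSum (V : Shape r d) (c : (Σ i, Fin (d i + 1)) → ℤ) (w : ℕ → ℝ) (T : ℕ) : ℝ :=
  ∑ p ∈ range T with Good c p, w p * (traceH2 V c p * Real.log p / p)

end

end Pool.Agent.H36.KM
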