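import Pool.Agent.H36.KM.Defs

/-!
# Representations built from the cohomology of hyperelliptic curves and their branch points: definitions
-/

set_option autoImplicit false

namespace Pool.Agent.H36.KM

open Finset

/-- The trace of Frobenius at `p` on the representation `R_t(C)`, which is the trivial representation for
`t = 0`, `Λ²H¹(C)(1)` for `t = 1`, `Sym²H¹(C)(1)` for `t = 2` and `H¹(C)(1/2)` for `t = 3`. -/
noncomputable def basic {d : ℕ} (t : Fin 4) (c : Fin (d + 1) → ℤ) (p : ℕ) : ℝ :=
  match t with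
  | 0 => 1
  | 1 => (traceH1 c p 1 ^ 2 - traceH1 c p 2) / (2 * p)
  | 2 => (traceH1 c p 1 ^ 2 + traceH1 c p 2) / (2 * p)
  | 3 => traceH1 c p 1 / √p

/-- The indices: for each curve `C_i` one of the four representations `R_t`, and a composition of `d_i`. -/
abbrev Idx (r : ℕ) (d : Fin r → ℕ) : Type := (Fin r → Fin 4) × (∀ i, Composition (d i))

section
variable {r : ℕ} {d : Fin r → ℕ}

/-- The trace of Frobenius at `p` on the tensor product `W_x` of the `R_{t_i}(C_i) ⊗ M^{μ_i}(C_i)`, for
`x = (t, μ)`. -/
noncomputable def chr (x : Idx r d) (c : (Σ i, Fin (d i + 1)) → ℤ) (p : ℕ) : ℝ :=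
  ∏ i, basic (x.1 i) (fun j => c ⟨i, j⟩) p * numFact (x.2 i) (fun j => c ⟨i, j⟩) p

/-- The trace of Frobenius at `p` on the sum `W` of `e x` copies of the `W_x`. -/
noncomputable def trW (e : Idx r d → ℝ) (c : (Σ i, Fin (d i + 1)) → ℤ) (p : ℕ) : ℝ :=
  ∑ x, e x * chr x c p

/-- The multiplicity of the trivial representation in `W` if the monodromy is as large as possible: the
sum of the `e x` for the `x = (t, μ)` with all `t_i = 0` or `1`. -/
noncomputable def mult (e : Idx r d → ℝ) : ℝ := ∑ x with ∀ i, x.1 i = 0 ∨ x.1 i = 1, e x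

/-- The sum of the absolute values of the multiplicities. -/
noncomputable def norm1 (e : Idx r d → ℝ) : ℝ := ∑ x, |e x|

open Classical in
/-- The sum of `w_p b_p(V) log(p) / p` over the primes `p < T` of good reduction, where
`b_p(V) = p tr(Frob_p | W)` is the trace of Frobenius at `p` on `H²(V) = W(-1)`. -/
noncomputable def tateW (e : Idx r d → ℝ) (c : (Σ i, Fin (d i + 1)) → ℤ) (w : ℕ → ℝ) (T : ℕ) : ℝ :=
  ∑ p ∈ range T with Good c p, w p * (p * trW e c p * Real.log p / p)

open Classical in
/-- The number of the primes `p < T` of good reduction. -/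
noncomputable def numGood (c : (Σ i, Fin (d i + 1)) → ℤ) (T : ℕ) : ℕ :=
  ((range T).filter fun p => Good c p).card

open Classical in
/-- The sum of `w_p tr(Frob_p | W)` over the primes `p < T` of good reduction. -/
noncomputable def sumW (e : Idx r d → ℝ) (c : (Σ i, Fin (d i + 1)) → ℤ) (w : ℕ → ℝ) (T : ℕ) : ℝ :=
  ∑ p ∈ range T with Good c p, w p * trW e c p

end

/-- The sum of `w_p` over the primes `p < T`. -/
noncomputable def piSum (w : ℕ → ℝ) (T : ℕ) : ℝ := ∑ p ∈ range T with p.Prime, w p

end Pool.Agent.H36.KM
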