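import Pool.Agent.H36.KM.Defs

/-!
# Values of random polynomials: separation of points
-/

set_option autoImplicit false
set_option linter.unusedSectionVars false

namespace Pool.Agent.H36.KM

open Finset Polynomial
open Pool.Agent.Y722.HS (EM red)

section shift
variable {ι : Type} [Fintype ι] [DecidableEq ι]

theorem EM_shift {V : Type} [Fintype V] (p : ℕ) [hp : NeZero p] (σ : V → (ι → ZMod p))
    (g : (ι → ZMod p) → ℝ) (t : ℝ) (hg : ∀ c, ∑ v, g (c + σ v) = t) :
    (Fintype.card V : ℝ) * EM p g = t := by
  have hp0 : (p : ℝ) ≠ 0 := by exact_mod_cast hp.out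
  have h1 : ∀ v, ∑ c, g (c + σ v) = ∑ c, g c := fun v =>
    Fintype.sum_equiv (Equiv.addRight (σ v)) _ _ fun c => rfl
  have h2 : ∑ c : ι → ZMod p, ∑ v, g (c + σ v) = ∑ _c : ι → ZMod p, t :=
    Finset.sum_congr rfl fun c _ => hg c
  rw [Finset.sum_comm, Finset.sum_congr rfl fun v _ => h1 v, Finset.sum_const, Finset.sum_const,
    nsmul_eq_mul, nsmul_eq_mul, Finset.card_univ, Finset.card_univ, Fintype.card_fun,
    ZMod.card] at h2
  unfold EM
  have h3 : (p : ℝ) ^ Fintype.card ι ≠ 0 := pow_ne_zero _ hp0
  rw [← mul_div_assoc, h2, Nat.cast_pow, mul_comm, mul_div_assoc, div_self h3, mul_one]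

end shift

section
variable {d p : ℕ} [hp : Fact p.Prime] (L : Type) [Field L] [Algebra (ZMod p) L]

/-- The value at a point of the projective line; `none` is the point at infinity. -/
noncomputable def ev (a : Fin (d + 1) → ZMod p) : Option L → L
  | none => algebraMap (ZMod p) L (a (Fin.last d))
  | some x => ∑ i, algebraMap (ZMod p) L (a i) * x ^ (i : ℕ)

theorem ev_add (a b : Fin (d + 1) → ZMod p) (P : Option L) :
    ev L (a + b) P = ev L a P + ev L b P := by
  cases P with
  | none => simp [ev]
  | some x =>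
    simp only [ev, Pi.add_apply, map_add]
    rw [← Finset.sum_add_distrib]
    exact Finset.sum_congr rfl fun i _ => by ring

/-- The coefficient vector of a polynomial. -/
noncomputable def cf (d : ℕ) (g : (ZMod p)[X]) : Fin (d + 1) → ZMod p := fun i => g.coeff i

theorem ev_cf_some (g : (ZMod p)[X]) (hg : g.natDegree ≤ d) (x : L) :
    ev L (cf d g) (some x) = aeval x g := by
  unfold ev cf
  rw [aeval_eq_sum_range' (Nat.lt_succ_of_le hg), Finset.sum_range]
  exact Finset.sum_congr rfl fun i _ => by rw [Algebra.smul_def]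

theorem ev_cf_none (g : (ZMod p)[X]) :
    ev L (cf d g) none = algebraMap (ZMod p) L (g.coeff d) := by
  simp [ev, cf]

variable [Fintype L] [DecidableEq L]

/-- The quadratic character of a value. -/
noncomputable def chi (a : Fin (d + 1) → ZMod p) (P : Option L) : ℝ :=
  ((quadraticChar L (ev L a P) : ℤ) : ℝ)

theorem EM_chi (hL : ringChar L ≠ 2) (P : Option L) (G : (Fin (d + 1) → ZMod p) → ℝ)
    (h : ∀ v : L, ∃ b : Fin (d + 1) → ZMod p, ev L b P = v ∧ ∀ a, G (a + b) = G a) :
    EM p (fun a => chi L a P * G a) = 0 := by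
  choose σ h1 h2 using h
  have h3 := EM_shift p σ (fun a => chi L a P * G a) 0 fun a => by
    have e : ∀ v, chi L (a + σ v) P * G (a + σ v) =
        ((quadraticChar L (ev L a P + v) : ℤ) : ℝ) * G a := by
      intro v
      unfold chi
      rw [ev_add, h1, h2]
    rw [Finset.sum_congr rfl fun v _ => e v, ← Finset.sum_mul]
    have h4 : ∑ v : L, ((quadraticChar L (ev L a P + v) : ℤ) : ℝ) = 0 := by
      rw [Fintype.sum_equiv (Equiv.addLeft (ev L a P))
        (fun v => ((quadraticChar L (ev L a P + v) : ℤ) : ℝ))
        (fun v => ((quadraticChar L v : ℤ) : ℝ)) fun v => rfl]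
      exact_mod_cast quadraticChar_sum_zero hL
    rw [h4, zero_mul]
  have h5 : (Fintype.card L : ℝ) ≠ 0 := by exact_mod_cast Fintype.card_ne_zero
  exact (mul_eq_zero.1 h3).resolve_left h5

end

section
variable {d p : ℕ} [hp : Fact p.Prime]

theorem sepOne (hd : 4 ≤ d) (P : Option (ZMod p)) (s : Finset (Option (ZMod p)))
    (hs : s.card ≤ 3) (hP : P ∉ s) (v : ZMod p) :
    ∃ b : Fin (d + 1) → ZMod p, ev (ZMod p) b P = v ∧ ∀ Q ∈ s, ev (ZMod p) b Q = 0 := by
  classical
  set t : Finset (ZMod p) := Finset.eraseNone s with ht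
  have htc : t.card ≤ 3 := (Finset.card_eraseNone_le s).trans hs
  set m : (ZMod p)[X] := ∏ y ∈ t, (X - C y) with hm
  have hmm : m.Monic := monic_prod_of_monic _ _ fun y _ => monic_X_sub_C y
  have hmd : m.natDegree = t.card := by
    rw [hm, natDegree_prod_of_monic _ _ fun y _ => monic_X_sub_C y]
    simp
  have hmy : ∀ y ∈ t, m.eval y = 0 := by
    intro y hy
    rw [hm, eval_prod]
    exact Finset.prod_eq_zero hy (by simp)
  cases P with
  | some x =>
    have hx : m.eval x ≠ 0 := by
      rw [hm, eval_prod, Finset.prod_ne_zero_iff]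
      intro y hy
      simp only [eval_sub, eval_X, eval_C]
      intro h
      rw [sub_eq_zero] at h
      subst h
      exact hP (Finset.mem_eraseNone.1 hy)
    have hgd : (C (v / m.eval x) * m).natDegree ≤ 3 := by
      refine (natDegree_C_mul_le _ _).trans ?_
      omega
    refine ⟨cf d (C (v / m.eval x) * m), ?_, ?_⟩
    · rw [ev_cf_some _ _ (by omega)]
      simp only [coe_aeval_eq_eval, eval_mul, eval_C]
      field_simp
    · intro Q hQ
      cases Q with
      | none =>
        rw [ev_cf_none, coeff_eq_zero_of_natDegree_lt (by omega), map_zero]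
      | some y =>
        rw [ev_cf_some _ _ (by omega)]
        simp only [coe_aeval_eq_eval, eval_mul, eval_C]
        rw [hmy y (Finset.mem_eraseNone.2 hQ), mul_zero]
  | none =>
    have hXm : (X ^ (d - t.card) * m).Monic := (monic_X_pow _).mul hmm
    have hXd : (X ^ (d - t.card) * m).natDegree = d := by
      rw [(monic_X_pow _).natDegree_mul hmm, natDegree_X_pow, hmd]
      omega
    have hgd : (C v * (X ^ (d - t.card) * m)).natDegree ≤ d := by
      refine (natDegree_C_mul_le _ _).trans ?_
      omega
    refine ⟨cf d (C v * (X ^ (d - t.card) * m)), ?_, ?_⟩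
    · rw [ev_cf_none, coeff_C_mul]
      have h1 := hXm.coeff_natDegree
      rw [hXd] at h1
      rw [h1, mul_one]
      rfl
    · intro Q hQ
      cases Q with
      | none => exact absurd hQ hP
      | some y =>
        rw [ev_cf_some _ _ hgd]
        simp only [coe_aeval_eq_eval, eval_mul, eval_C]
        rw [hmy y (Finset.mem_eraseNone.2 hQ), mul_zero, mul_zero]

end

section
variable {d p : ℕ} [hp : Fact p.Prime] {L : Type} [Field L] [Algebra (ZMod p) L]

theorem mem_range_of_pow (z : L) (hz : z ^ p = z) : ∃ w : ZMod p, algebraMap (ZMod p) L w = z := by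
  classical
  by_contra hcon
  push Not at hcon
  have hp1 : 1 < p := hp.out.one_lt
  have hne : (X ^ p - X : L[X]) ≠ 0 := FiniteField.X_pow_card_sub_X_ne_zero L hp1
  have hdeg : (X ^ p - X : L[X]).natDegree = p := FiniteField.X_pow_card_sub_X_natDegree_eq L hp1
  set s : Finset L := insert z (Finset.univ.image (algebraMap (ZMod p) L)) with hs
  have h1 : s ⊆ (X ^ p - X : L[X]).roots.toFinset := by
    intro y hy
    rw [Multiset.mem_toFinset, mem_roots hne, IsRoot.def, eval_sub, eval_pow, eval_X]
    rw [hs, Finset.mem_insert, Finset.mem_image] at hy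
    rcases hy with rfl | ⟨w, -, rfl⟩
    · rw [hz, sub_self]
    · rw [← map_pow, ZMod.pow_card, sub_self]
  have h2 : s.card = p + 1 := by
    rw [hs, Finset.card_insert_of_notMem, Finset.card_image_of_injective _
      (algebraMap (ZMod p) L).injective, Finset.card_univ, ZMod.card]
    rw [Finset.mem_image]
    rintro ⟨w, -, hw⟩
    exact hcon w hw
  have h3 := (Finset.card_le_card h1).trans (Multiset.toFinset_card_le _)
  have h4 := card_roots' (X ^ p - X : L[X])
  omega

theorem pow_of_map (w : ZMod p) : (algebraMap (ZMod p) L w) ^ p = algebraMap (ZMod p) L w := by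
  rw [← map_pow, ZMod.pow_card]

variable [Fintype L]

/-- A point outside of the prime field. -/
theorem sepTwo (hc : Fintype.card L = p ^ 2) (hd : 4 ≤ d) (x : L) (hx : x ^ p ≠ x)
    (Q : Option L) (h1 : Q ≠ some x) (h2 : Q ≠ some (x ^ p)) (v : L) :
    ∃ b : Fin (d + 1) → ZMod p, ev L b (some x) = v ∧ ev L b Q = 0 := by
  classical
  have hchar : CharP L p := charP_of_injective_algebraMap (algebraMap (ZMod p) L).injective p
  -- linear polynomials
  have hlin : ∀ u : L, ∃ g : (ZMod p)[X], g.natDegree ≤ 1 ∧ aeval x g = u := by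
    have hinj : Function.Injective (fun q : ZMod p × ZMod p =>
        algebraMap (ZMod p) L q.1 + algebraMap (ZMod p) L q.2 * x) := by
      rintro ⟨a, b⟩ ⟨a', b'⟩ h
      simp only at h
      by_cases hb : b = b'
      · subst hb
        have := (algebraMap (ZMod p) L).injective (add_right_cancel h)
        rw [this]
      · exfalso
        apply hx
        have hb' : algebraMap (ZMod p) L (b - b') ≠ 0 := by
          rw [Ne, map_eq_zero, sub_eq_zero]
          exact hb
        have hx' : x = algebraMap (ZMod p) L ((a' - a) / (b - b')) := by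
          rw [map_div₀, eq_div_iff hb']
          rw [map_sub, map_sub]
          linear_combination h
        rw [hx', pow_of_map]
    have hbij := (Fintype.bijective_iff_injective_and_card _).2 ⟨hinj, by
      rw [Fintype.card_prod, ZMod.card, hc, sq]⟩
    intro u
    obtain ⟨⟨a, b⟩, hab⟩ := hbij.2 u
    refine ⟨C a + C b * X, ?_, ?_⟩
    · refine (natDegree_add_le _ _).trans (max_le (by simp) ?_)
      exact (natDegree_C_mul_le _ _).trans (by simp)
    · simpa using hab
  cases Q with
  | none =>
    obtain ⟨g, hg, hgx⟩ := hlin v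
    refine ⟨cf d g, ?_, ?_⟩
    · rw [ev_cf_some _ _ (by omega), hgx]
    · rw [ev_cf_none, coeff_eq_zero_of_natDegree_lt (by omega), map_zero]
  | some y =>
    have hy2 : (y ^ p) ^ p = y := by
      rw [← pow_mul, ← sq, ← hc, FiniteField.pow_card]
    obtain ⟨s, hs⟩ := mem_range_of_pow (p := p) (y + y ^ p) (by
      rw [add_pow_char, hy2, add_comm])
    obtain ⟨t, ht⟩ := mem_range_of_pow (p := p) (y * y ^ p) (by
      rw [mul_pow, hy2, mul_comm])
    set m : (ZMod p)[X] := X ^ 2 - C s * X + C t with hm
    have hmd : m.natDegree ≤ 2 := by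
      rw [hm]
      refine (natDegree_add_le _ _).trans (max_le ?_ (by simp))
      refine (natDegree_sub_le _ _).trans (max_le (by simp) ?_)
      exact (natDegree_C_mul_le _ _).trans (by simp)
    have hmz : ∀ z : L, aeval z m = (z - y) * (z - y ^ p) := by
      intro z
      rw [hm]
      simp only [map_add, map_sub, map_mul, aeval_X, aeval_C, map_pow]
      rw [hs, ht]
      ring
    have hmx : aeval x m ≠ 0 := by
      rw [hmz]
      refine mul_ne_zero ?_ ?_
      · rw [sub_ne_zero]
        rintro rfl
        exact h1 rfl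
      · rw [sub_ne_zero]
        intro h
        apply h2
        rw [h, hy2]
    obtain ⟨g, hg, hgx⟩ := hlin (v / aeval x m)
    have hmg : (m * g).natDegree ≤ d := (natDegree_mul_le).trans (by omega)
    refine ⟨cf d (m * g), ?_, ?_⟩
    · rw [ev_cf_some _ _ hmg, map_mul, hgx]
      field_simp
    · rw [ev_cf_some _ _ hmg, map_mul, hmz, sub_self, zero_mul, zero_mul]

end

end Pool.Agent.H36.KM
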