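import Pool.Agent.H36.KM.Defs

/-!
# Examples
-/

set_option autoImplicit false

namespace Pool.Agent.H36.KM

open Finset

/-- The composition `(a, b)` of `a + b`. -/
def two (a b : ℕ) (ha : 0 < a) (hb : 0 < b) : Composition (a + b) where
  blocks := [a, b]
  blocks_pos := by
    intro i hi
    simp only [List.mem_cons, List.not_mem_nil, or_false] at hi
    rcases hi with rfl | rfl
    · exact ha
    · exact hb
  blocks_sum := by simp

open Classical in
/-- The Kummer surface of the Jacobian of `y² = f(x)`, `f` of degree six. -/
noncomputable def kummer : Shape 1 (fun _ => 6) where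
  l := fun _ => 1
  s := fun _ => 0
  t := fun _ _ => 0
  e := fun μ => (if μ = fun _ => Composition.single 6 (by norm_num) then 1 else 0) +
    (if μ = fun _ => two 2 4 (by norm_num) (by norm_num) then 1 else 0)

theorem kummer_rank : rank kummer = 3 := by
  classical
  unfold rank kummer
  simp only [Finset.sum_add_distrib, Finset.sum_ite_eq', Finset.mem_univ, if_true]
  norm_num

end Pool.Agent.H36.KM
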