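import Pool.Agent.H36.KM.Pts

/-!
# The factorizations of random polynomials
-/

set_option autoImplicit false
set_option linter.unusedSectionVars false

namespace Pool.Agent.H36.KM

open Finset Polynomial
open Pool.Agent.Y722.HS (EM red)
open Pool.Agent.Y722.HS (EM_mono EM_const)
open Pool.Agent.Y722.LS (EM_add EM_mul)
open Pool.Agent.Y722.PC (EM_sum)

section
variable {d p : ℕ} [hp : Fact p.Prime]

/-- The polynomial with a given coefficient vector. -/
noncomputable def pl (a : Fin (d + 1) → ZMod p) : (ZMod p)[X] := ∑ i, C (a i) * X ^ (i : ℕ)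

theorem pl_coeff (a : Fin (d + 1) → ZMod p) (i : Fin (d + 1)) : (pl a).coeff i = a i := by
  unfold pl
  rw [finsetSum_coeff, Finset.sum_eq_single i]
  · simp
  · intro j _ hj
    rw [coeff_C_mul, coeff_X_pow, if_neg (fun h => hj (Fin.ext h.symm)), mul_zero]
  · intro h
    exact absurd (Finset.mem_univ i) h

theorem pl_natDegree (a : Fin (d + 1) → ZMod p) : (pl a).natDegree ≤ d := by
  unfold pl
  refine natDegree_sum_le_of_forall_le _ _ fun i _ => ?_
  exact (natDegree_C_mul_X_pow_le _ _).trans (by omega)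

theorem cf_pl (a : Fin (d + 1) → ZMod p) : cf d (pl a) = a := by
  funext i
  exact pl_coeff a i

theorem pl_cf (g : (ZMod p)[X]) (hg : g.natDegree ≤ d) : pl (cf d g) = g := by
  ext n
  by_cases hn : n < d + 1
  · exact pl_coeff (cf d g) ⟨n, hn⟩
  · rw [coeff_eq_zero_of_natDegree_lt (lt_of_le_of_lt (pl_natDegree _) (by omega)),
      coeff_eq_zero_of_natDegree_lt (lt_of_le_of_lt hg (by omega))]

theorem pl_inj : Function.Injective (pl (d := d) (p := p)) := by
  intro a b h
  rw [← cf_pl a, h, cf_pl]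

theorem last_coeff (a : Fin (d + 1) → ZMod p) : (pl a).coeff d = a (Fin.last d) :=
  pl_coeff a (Fin.last d)

theorem deg_of_last (a : Fin (d + 1) → ZMod p) (h : a (Fin.last d) ≠ 0) :
    (pl a).natDegree = d := by
  refine le_antisymm (pl_natDegree a) (le_natDegree_of_ne_zero ?_)
  rwa [last_coeff]

theorem ne_of_last (a : Fin (d + 1) → ZMod p) (h : a (Fin.last d) ≠ 0) : pl a ≠ 0 := by
  intro h0
  apply h
  rw [← last_coeff a, h0, coeff_zero]

theorem lead_of_last (a : Fin (d + 1) → ZMod p) (h : a (Fin.last d) ≠ 0) :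
    (pl a).leadingCoeff = a (Fin.last d) := by
  rw [leadingCoeff, deg_of_last a h, last_coeff]

/-- The number of the factorizations. -/
noncomputable def nf (μ : Composition d) (a : Fin (d + 1) → ZMod p) : ℝ :=
  Nat.card {q : Fin μ.length → (ZMod p)[X] //
    (∀ j, (q j).Monic ∧ (q j).natDegree ≤ μ.blocksFun j) ∧
      C (pl a).leadingCoeff * ∏ j, q j = pl a}

theorem nf_eq (μ : Composition d) (c : Fin (d + 1) → ℤ) : numFact μ c p = nf μ (red p c) := rfl

/-- The monic divisors. -/
theorem divs (f : (ZMod p)[X]) (h0 : f ≠ 0) (hd : f.natDegree ≤ d) :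
    {q : (ZMod p)[X] | q.Monic ∧ q ∣ f}.Finite ∧
      {q : (ZMod p)[X] | q.Monic ∧ q ∣ f}.ncard ≤ 2 ^ d := by
  classical
  set Kb := AlgebraicClosure (ZMod p) with hKb
  set i := algebraMap (ZMod p) Kb with hi
  have hinj : Function.Injective i := i.injective
  have hf0 : f.map i ≠ 0 := (Polynomial.map_ne_zero_iff hinj).2 h0
  set t : Finset (Multiset Kb) := (f.map i).roots.powerset.toFinset with ht
  have hmaps : ∀ q ∈ {q : (ZMod p)[X] | q.Monic ∧ q ∣ f}, (q.map i).roots ∈ (t : Set _) := by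
    rintro q ⟨hq1, hq2⟩
    rw [Finset.mem_coe, ht, Multiset.mem_toFinset, Multiset.mem_powerset]
    exact roots.le_of_dvd hf0 (Polynomial.map_dvd i hq2)
  have hinjOn : Set.InjOn (fun q : (ZMod p)[X] => (q.map i).roots)
      {q : (ZMod p)[X] | q.Monic ∧ q ∣ f} := by
    rintro q ⟨hq1, -⟩ q' ⟨hq1', -⟩ h
    have e1 := (IsAlgClosed.splits (q.map i)).eq_prod_roots_of_monic (hq1.map i)
    have e2 := (IsAlgClosed.splits (q'.map i)).eq_prod_roots_of_monic (hq1'.map i)
    apply map_injective i hinj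
    have h' : (q.map i).roots = (q'.map i).roots := h
    rw [e1, e2, h']
  refine ⟨Set.Finite.of_injOn (t := (t : Set _)) (fun q hq => hmaps q hq) hinjOn t.finite_toSet, ?_⟩
  have h1 := Set.ncard_le_ncard_of_injOn _ hmaps hinjOn t.finite_toSet
  refine h1.trans ?_
  rw [Set.ncard_coe_finset]
  refine (Multiset.toFinset_card_le _).trans ?_
  rw [Multiset.card_powerset]
  refine Nat.pow_le_pow_right two_pos ((card_roots' _).trans ?_)
  rwa [natDegree_map]

theorem nf_le (μ : Composition d) (a : Fin (d + 1) → ZMod p) (h0 : pl a ≠ 0) :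
    nf μ a ≤ (2 ^ d) ^ d := by
  classical
  obtain ⟨hfin, hcard⟩ := divs (pl a) h0 (pl_natDegree a)
  have hF : Finite {q : (ZMod p)[X] // q ∈ {q : (ZMod p)[X] | q.Monic ∧ q ∣ pl a}} :=
    hfin.to_subtype
  set D := {q : (ZMod p)[X] // q ∈ {q : (ZMod p)[X] | q.Monic ∧ q ∣ pl a}} with hD
  have h1 : Nat.card {q : Fin μ.length → (ZMod p)[X] //
      (∀ j, (q j).Monic ∧ (q j).natDegree ≤ μ.blocksFun j) ∧
        C (pl a).leadingCoeff * ∏ j, q j = pl a} ≤ Nat.card (Fin μ.length → D) := by
    refine Nat.card_le_card_of_injective (fun q j => ⟨q.1 j, (q.2.1 j).1, ?_⟩) ?_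
    · have h2 : q.1 j ∣ ∏ j, q.1 j := Finset.dvd_prod_of_mem _ (Finset.mem_univ j)
      have h3 : q.1 j ∣ C (pl a).leadingCoeff * ∏ j, q.1 j := h2.mul_left _
      rwa [q.2.2] at h3
    · intro q q' h
      apply Subtype.ext
      funext j
      have := congrFun h j
      exact congrArg Subtype.val this
  have h2 : Nat.card (Fin μ.length → D) ≤ (2 ^ d) ^ d := by
    rw [Nat.card_fun, Nat.card_eq_fintype_card (α := Fin μ.length), Fintype.card_fin]
    have h3 : Nat.card D ≤ 2 ^ d := by
      rw [hD, Nat.card_coe_set_eq]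
      exact hcard
    exact (Nat.pow_le_pow_left h3 _).trans (Nat.pow_le_pow_right (by positivity) μ.length_le)
  unfold nf
  exact_mod_cast h1.trans h2

/-- The number of the monic polynomials of degree `n`. -/
theorem card_monic (n : ℕ) :
    Finite {q : (ZMod p)[X] // q.Monic ∧ q.natDegree = n} ∧
    Nat.card {q : (ZMod p)[X] // q.Monic ∧ q.natDegree = n} = p ^ n := by
  have e := (monicEquivDegreeLT (R := ZMod p) n).trans (degreeLTEquiv (ZMod p) n).toEquiv
  refine ⟨Finite.of_equiv _ e.symm, ?_⟩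
  rw [Nat.card_congr e, Nat.card_eq_fintype_card, Fintype.card_fun, ZMod.card, Fintype.card_fin]

/-- The number of the coefficient vectors of the multiples of a polynomial. -/
theorem card_mult (h : (ZMod p)[X]) (hm : h.Monic) (hn : h.natDegree ≤ d) :
    Nat.card {a : Fin (d + 1) → ZMod p // h ∣ pl a} ≤ p ^ (d + 1 - h.natDegree) := by
  have h1 : Nat.card {a : Fin (d + 1) → ZMod p // h ∣ pl a} ≤
      Nat.card (Fin (d + 1 - h.natDegree) → ZMod p) := by
    refine Nat.card_le_card_of_injective (fun a i => (pl a.1 /ₘ h).coeff i) ?_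
    intro a b hab
    have hdeg : ∀ a : Fin (d + 1) → ZMod p, (pl a /ₘ h).natDegree < d + 1 - h.natDegree := by
      intro a
      rw [natDegree_divByMonic _ hm]
      have := pl_natDegree a
      omega
    have e : pl a.1 /ₘ h = pl b.1 /ₘ h := by
      ext n
      by_cases hn : n < d + 1 - h.natDegree
      · exact congrFun hab ⟨n, hn⟩
      · rw [coeff_eq_zero_of_natDegree_lt ((hdeg a.1).trans_le (by omega)),
          coeff_eq_zero_of_natDegree_lt ((hdeg b.1).trans_le (by omega))]
    apply Subtype.ext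
    apply pl_inj
    have ea := modByMonic_add_div (pl a.1) h
    have eb := modByMonic_add_div (pl b.1) h
    rw [(modByMonic_eq_zero_iff_dvd hm).2 a.2, zero_add] at ea
    rw [(modByMonic_eq_zero_iff_dvd hm).2 b.2, zero_add] at eb
    rw [← ea, ← eb, e]
  refine h1.trans (le_of_eq ?_)
  rw [Nat.card_eq_fintype_card, Fintype.card_fun, ZMod.card, Fintype.card_fin]

open Classical in
theorem EM_mult (h : (ZMod p)[X]) (hm : h.Monic) (hn : h.natDegree ≤ d) :
    EM p (fun a : Fin (d + 1) → ZMod p => if h ∣ pl a then (1 : ℝ) else 0) ≤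
      1 / (p : ℝ) ^ h.natDegree := by
  have hp0 : (0 : ℝ) < p := by exact_mod_cast hp.out.pos
  unfold EM
  rw [div_le_div_iff₀ (by positivity) (by positivity), one_mul]
  have h1 := card_mult h hm hn
  rw [Nat.card_eq_fintype_card, Fintype.card_subtype] at h1
  have h2 : ∑ a : Fin (d + 1) → ZMod p, (if h ∣ pl a then (1 : ℝ) else 0) =
      ((Finset.univ.filter fun a : Fin (d + 1) → ZMod p => h ∣ pl a).card : ℝ) := by
    rw [Finset.sum_boole]
  rw [h2, Fintype.card_fin]
  calc _ ≤ ((p ^ (d + 1 - h.natDegree) : ℕ) : ℝ) * (p : ℝ) ^ h.natDegree := by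
        gcongr
    _ = (p : ℝ) ^ (d + 1) := by
        push_cast
        rw [← pow_add]
        congr 1
        omega

end

end Pool.Agent.H36.KM
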