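import Pool.Agent.H36.KM.Dat

/-!
# The law of large numbers, uniformly in the length of the sum
-/

set_option autoImplicit false
set_option linter.unusedSectionVars false

namespace Pool.Agent.H36.KM

open Finset hiding val
open Filter Topology
open Pool.Agent.Y722.HS (EM EB red)
open Pool.Agent.K1H81.HW (thetaSum markov lim_sqrt lim_theta)
open Pool.Agent.Y722.ST (Dat)

section
variable {r : ℕ} {d : Fin r → ℕ}

/-- The multiplicities of the basic parts. -/
noncomputable def coef (V : Shape r d) (x : Ix r d) : ℝ :=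
  match x with
  | Sum.inl i => (V.l i + V.s i) / 2
  | Sum.inr (Sum.inl i) => (V.l i - V.s i) / 2
  | Sum.inr (Sum.inr (Sum.inl q)) => if q.1 < q.2 then V.t q.1 q.2 else 0
  | Sum.inr (Sum.inr (Sum.inr μ)) => V.e μ

/-- The traces of the basic parts. -/
noncomputable def tr (d : Fin r → ℕ) (x : Ix r d) (c : (Σ i, Fin (d i + 1)) → ℤ) (p : ℕ) : ℝ :=
  match x with
  | Sum.inl i => traceH1 (fun j => c ⟨i, j⟩) p 1 ^ 2
  | Sum.inr (Sum.inl i) => -traceH1 (fun j => c ⟨i, j⟩) p 2
  | Sum.inr (Sum.inr (Sum.inl q)) => if q.1 < q.2 then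
      traceH1 (fun j => c ⟨q.1, j⟩) p 1 * traceH1 (fun j => c ⟨q.2, j⟩) p 1 else 0
  | Sum.inr (Sum.inr (Sum.inr μ)) => p * ∏ i, numFact (μ i) (fun j => c ⟨i, j⟩) p

theorem sumIx (f : Ix r d → ℝ) : ∑ x, f x = ∑ i, f (Sum.inl i) + (∑ i, f (Sum.inr (Sum.inl i)) +
    (∑ q, f (Sum.inr (Sum.inr (Sum.inl q))) + ∑ μ, f (Sum.inr (Sum.inr (Sum.inr μ))))) := by
  rw [Fintype.sum_sum_type, Fintype.sum_sum_type, Fintype.sum_sum_type]

theorem traceH2_lin (V : Shape r d) (c : (Σ i, Fin (d i + 1)) → ℤ) (p : ℕ) :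
    traceH2 V c p = ∑ x, coef V x * tr d x c p := by
  classical
  rw [sumIx]
  simp only [coef, tr]
  unfold traceH2
  rw [Finset.sum_filter]
  have h5 : ∀ q : Fin r × Fin r, (if q.1 < q.2 then V.t q.1 q.2 *
      (traceH1 (fun j => c ⟨q.1, j⟩) p 1 * traceH1 (fun j => c ⟨q.2, j⟩) p 1) else 0) =
      (if q.1 < q.2 then V.t q.1 q.2 else 0) *
      (if q.1 < q.2 then (traceH1 (fun j => c ⟨q.1, j⟩) p 1 * traceH1 (fun j => c ⟨q.2, j⟩) p 1)
      else 0) := by
    intro q
    split_ifs <;> simp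
  rw [Finset.sum_congr rfl fun q _ => h5 q]
  have h6 : ∑ i, V.l i * ((traceH1 (fun j => c ⟨i, j⟩) p 1 ^ 2 -
      traceH1 (fun j => c ⟨i, j⟩) p 2) / 2) +
      ∑ i, V.s i * ((traceH1 (fun j => c ⟨i, j⟩) p 1 ^ 2 + traceH1 (fun j => c ⟨i, j⟩) p 2) / 2) =
      ∑ i, (V.l i + V.s i) / 2 * traceH1 (fun j => c ⟨i, j⟩) p 1 ^ 2 +
      ∑ i, (V.l i - V.s i) / 2 * -traceH1 (fun j => c ⟨i, j⟩) p 2 := by
    rw [← Finset.sum_add_distrib, ← Finset.sum_add_distrib]
    exact Finset.sum_congr rfl fun i _ => by ring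
  rw [h6]
  ring

theorem rank_lin (V : Shape r d) : rank V = ∑ x, coef V x * mm d x := by
  rw [sumIx]
  simp only [coef, mm, mul_one, mul_zero, Finset.sum_const_zero, zero_add]
  unfold rank
  have h6 : ∑ i, V.l i = ∑ i, (V.l i + V.s i) / 2 + ∑ i, (V.l i - V.s i) / 2 := by
    rw [← Finset.sum_add_distrib]
    exact Finset.sum_congr rfl fun i _ => by ring
  rw [h6]
  ring

theorem coef_size (V : Shape r d) : ∑ x, |coef V x| ≤ size V := by
  classical
  rw [sumIx]
  simp only [coef]
  unfold size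
  rw [Finset.sum_filter]
  have h5 : ∀ q : Fin r × Fin r, |if q.1 < q.2 then V.t q.1 q.2 else 0| =
      if q.1 < q.2 then |V.t q.1 q.2| else 0 := by
    intro q
    split_ifs <;> simp
  rw [Finset.sum_congr rfl fun q _ => h5 q]
  have h6 : ∑ i, |(V.l i + V.s i) / 2| + ∑ i, |(V.l i - V.s i) / 2| ≤
      ∑ i, |V.l i| + ∑ i, |V.s i| := by
    rw [← Finset.sum_add_distrib, ← Finset.sum_add_distrib]
    refine Finset.sum_le_sum fun i _ => ?_
    rw [abs_div, abs_div, abs_two]
    have h1 := abs_add_le (V.l i) (V.s i)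
    have h2 := abs_sub (V.l i) (V.s i)
    linarith
  linarith

theorem size_nonneg (V : Shape r d) : 0 ≤ size V :=
  (Finset.sum_nonneg fun x _ => abs_nonneg _).trans (coef_size V)

theorem rank_le (V : Shape r d) : |rank V| ≤ size V := by
  rw [rank_lin]
  refine (Finset.abs_sum_le_sum_abs _ _).trans (le_trans ?_ (coef_size V))
  refine Finset.sum_le_sum fun x _ => ?_
  rw [abs_mul]
  have h1 : |mm d x| ≤ 1 := by
    rcases x with i | i | q | μ <;> simp [mm]
  calc |coef V x| * |mm d x| ≤ |coef V x| * 1 := by gcongr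
    _ = _ := mul_one _

open Classical in
/-- The sums of the basic parts. -/
noncomputable def tS (x : Ix r d) (c : (Σ i, Fin (d i + 1)) → ℤ) (w : ℕ → ℝ) (T : ℕ) : ℝ :=
  ∑ p ∈ range T with Good c p, w p * (tr d x c p * Real.log p / p)

theorem tateSum_lin (V : Shape r d) (c : (Σ i, Fin (d i + 1)) → ℤ) (w : ℕ → ℝ) (T : ℕ) :
    tateSum V c w T = ∑ x, coef V x * tS x c w T := by
  classical
  unfold tateSum tS
  simp only [Finset.mul_sum]
  rw [Finset.sum_comm]
  refine Finset.sum_congr rfl fun p _ => ?_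
  rw [traceH2_lin, Finset.sum_mul, Finset.sum_div, Finset.mul_sum]
  exact Finset.sum_congr rfl fun x _ => by ring

theorem YY_eq (x : Ix r d) (c : (Σ i, Fin (d i + 1)) → ℤ) (p : ℕ) (hp : p.Prime)
    (h2 : p ≠ 2) [Decidable (Good c p)] :
    (1 - badI d p (red p c)) * BB d x p (red p c) = if Good c p then tr d x c p / p else 0 := by
  classical
  have : Fact p.Prime := ⟨hp⟩
  have hp0 : (0 : ℝ) < p := by exact_mod_cast hp.pos
  have h1 : Good c p ↔ ∀ i, Sq1 (p := p) (fun j => red p c ⟨i, j⟩) := by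
    unfold Good GoodReduction
    constructor
    · rintro ⟨-, -, h⟩ i
      exact (h i).2.2
    · intro h
      exact ⟨hp, h2, fun i => ⟨hp, h2, h i⟩⟩
  by_cases h : Good c p
  · have hb : badI d p (red p c) = 0 := by
      unfold badI
      rw [dif_pos hp, if_pos (h1.1 h)]
    rw [if_pos h, hb, sub_zero, one_mul]
    rcases x with i | i | q | μ
    · rw [BB_1]
      unfold A1 tr
      simp only
      rw [dif_pos hp, trace1 _ h2, neg_sq]
      rfl
    · rw [BB_2]
      unfold A2 tr
      simp only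
      rw [dif_pos hp, trace2 _ h2, neg_neg]
      rfl
    · rw [BB_3]
      unfold tr
      simp only
      split_ifs with hq
      · unfold T1
        rw [dif_pos hp, dif_pos hp, trace1 _ h2, trace1 _ h2, neg_mul_neg, div_mul_div_comm,
          Real.mul_self_sqrt hp0.le]
        rfl
      · rw [zero_div]
    · rw [BB_4]
      unfold tr
      simp only
      rw [mul_div_cancel_left₀ _ hp0.ne']
      refine Finset.prod_congr rfl fun i _ => ?_
      have hne : pl (p := p) (fun j => red p c ⟨i, j⟩) ≠ 0 := ((h1.1 h) i).1.ne_zero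
      unfold NN
      rw [dif_pos hp, if_neg hne]
      rfl
  · have hb : badI d p (red p c) = 1 := by
      unfold badI
      rw [dif_pos hp, if_neg fun h2 => h (h1.2 h2)]
    rw [if_neg h, hb, sub_self, zero_mul]

/-- The values at the prime two. -/
theorem YY_two (x : Ix r d) (c : (Σ i, Fin (d i + 1)) → ℤ) : ¬ Good c 2 := fun h => h.2.1 rfl

/-- The functions with the value zero at the prime two. -/
noncomputable def YY (d : Fin r → ℕ) (x : Ix r d) (p : ℕ) (c : (Σ i, Fin (d i + 1)) → ZMod p) : ℝ :=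
  if p = 2 then 0 else (1 - badI d p c) * BB d x p c

theorem datY (hd : ∀ i, 4 ≤ d i) (x : Ix r d) : ∃ K : ℝ, Dat K 3 (YY d x) (mm d x) := by
  obtain ⟨K, hK⟩ := dat hd x
  refine ⟨K, hK.K0, fun p hp h3 => ?_, fun p hp h3 => ?_⟩
  · have := hK.sq p h3
    have e : (fun c => YY d x p c ^ 2) = fun c => ((1 - badI d p c) * BB d x p c) ^ 2 := by
      funext c
      unfold YY
      rw [if_neg (by omega)]
    rwa [e]
  · have := hK.mean p h3
    have e : (fun c => YY d x p c) = fun c => ((1 - badI d p c) * BB d x p c) := by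
      funext c
      unfold YY
      rw [if_neg (by omega)]
    rwa [e]

theorem YY_red (x : Ix r d) (c : (Σ i, Fin (d i + 1)) → ℤ) (p : ℕ) (hp : p.Prime)
    [Decidable (Good c p)] :
    YY d x p (red p c) = if Good c p then tr d x c p / p else 0 := by
  unfold YY
  by_cases h2 : p = 2
  · subst h2
    rw [if_pos rfl, if_neg (YY_two x c)]
  · rw [if_neg h2]
    exact YY_eq x c p hp h2

/-- **The uniform law of large numbers.** -/
theorem lln (hd : ∀ i, 4 ≤ d i) : ∃ C : ℝ, 0 < C ∧
    ∀ w : ℕ → ℝ, (∀ p, |w p| ≤ 1) → ∀ (H : ℕ) (A : ℝ), 0 < A →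
      ({c : (Σ i, Fin (d i + 1)) → ℤ | (∀ μ, |c μ| ≤ H) ∧ ∃ (V : Shape r d) (T : ℕ), 2 ≤ T ∧
        8 * T ^ 4 ≤ H ∧ A * size V * (√T * Real.log T ^ 3) <
          |tateSum V c w T - rank V * thetaSum w T|}.ncard : ℝ) ≤
        C / A ^ 2 * (2 * H + 1 : ℝ) ^ Fintype.card (Σ i, Fin (d i + 1)) := by
  classical
  choose K hK using fun x : Ix r d => datY (d := d) hd x
  obtain ⟨C, hC0, hC⟩ := Pool.Agent.Y722.ST.effective_weights (κ := Ix r d) (K := K)
    (m := mm d) (p0 := 3) (Y := fun x => YY d x) hK 1 0 (by simp)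
  refine ⟨36 * C + 1, by positivity, fun w hw H A hA => ?_⟩
  obtain ⟨Φ, hΦ0, hΦ1, hΦ2⟩ := hC (fun _ => w) (fun _ => hw) H
  have hA2 : 0 < A ^ 2 / 36 := by positivity
  refine (markov H Φ hΦ0 hΦ1 hA2 _ ?_).trans ?_
  · rintro c ⟨V, T, hT, hTH, hlt⟩
    have hT0 : (0 : ℝ) < T := by exact_mod_cast (by omega : 0 < T)
    have hlog : 0 < Real.log T := Real.log_pos (by exact_mod_cast (by omega : 1 < T))
    have hB0 : 0 < √(T : ℝ) * Real.log T ^ 3 := mul_pos (Real.sqrt_pos.2 hT0) (pow_pos hlog 3)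
    have hx : ∀ x : Ix r d, |tS x c w T - mm d x * thetaSum w T| ≤
        6 * √(Φ c) * (√(T : ℝ) * Real.log T ^ 3) := by
      intro x
      set a : ℕ → ℝ := fun p => if p.Prime then
        (w p * (YY d x p (red p c) - mm d x)) else 0 with ha
      have h1 : ∀ t : ℕ, 2 ≤ t → t ≤ T → (∑ i ∈ range t, a i) ^ 2 ≤ t * Real.log t ^ 4 * Φ c := by
        intro t ht htT
        have h8 : 8 * t ^ 4 ≤ H := by
          calc 8 * t ^ 4 ≤ 8 * T ^ 4 := by gcongr
            _ ≤ H := hTH
        have h9 := hΦ2 c (fun _ => True) (fun _ _ _ _ => trivial) x t ht h8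
        have e : Pool.Agent.Y722.ST.DD (fun p c => w p * (YY d x p c - mm d x)) 0
            (fun _ => True) c t = ∑ i ∈ range t, a i := by
          unfold Pool.Agent.Y722.ST.DD
          exact Finset.sum_congr rfl fun p _ => by by_cases hp : p.Prime <;> simp [ha, hp]
        rwa [e] at h9
      have h2 := Pool.Agent.Y722.ST.abel_log a (by simp [ha, Nat.not_prime_zero])
        (by simp [ha, Nat.not_prime_one]) (Φ c) T hT h1
      have h3 : ∑ i ∈ range T, a i * Real.log i = tS x c w T - mm d x * thetaSum w T := by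
        unfold tS thetaSum
        rw [Finset.mul_sum, Finset.sum_filter, Finset.sum_filter, ← Finset.sum_sub_distrib]
        refine Finset.sum_congr rfl fun p _ => ?_
        rw [ha]
        by_cases hp : p.Prime
        · simp only [hp, if_true]
          rw [YY_red x c p hp]
          split_ifs with hg
          · ring
          · ring
        · have hg : ¬ Good c p := fun h => hp h.1
          simp only [hp, if_false, if_neg hg]
          ring
      rw [h3] at h2
      refine abs_le_of_sq_le_sq (h2.trans (le_of_eq ?_)) (by positivity)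
      rw [mul_pow, mul_pow, mul_pow, Real.sq_sqrt hT0.le, Real.sq_sqrt (hΦ0 c)]
      ring
    have h4 : |tateSum V c w T - rank V * thetaSum w T| ≤
        size V * (6 * √(Φ c) * (√(T : ℝ) * Real.log T ^ 3)) := by
      rw [tateSum_lin, rank_lin, Finset.sum_mul, ← Finset.sum_sub_distrib]
      refine (Finset.abs_sum_le_sum_abs _ _).trans ?_
      have h5 : ∑ x, |coef V x * tS x c w T - coef V x * mm d x * thetaSum w T| ≤
          ∑ x, |coef V x| * (6 * √(Φ c) * (√(T : ℝ) * Real.log T ^ 3)) := by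
        refine Finset.sum_le_sum fun x _ => ?_
        rw [mul_assoc, ← mul_sub, abs_mul]
        exact mul_le_mul_of_nonneg_left (hx x) (abs_nonneg _)
      refine h5.trans ?_
      rw [← Finset.sum_mul]
      exact mul_le_mul_of_nonneg_right (coef_size V) (by positivity)
    have h5 := hlt.trans_le h4
    have hs0 := size_nonneg V
    have hs : 0 < size V := by
      rcases hs0.lt_or_eq with h | h
      · exact h
      · rw [← h] at h5
        simp at h5
    have h6 : A * (size V * (√(T : ℝ) * Real.log T ^ 3)) <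
        (6 * √(Φ c)) * (size V * (√(T : ℝ) * Real.log T ^ 3)) := by
      calc A * (size V * (√(T : ℝ) * Real.log T ^ 3)) =
          A * size V * (√(T : ℝ) * Real.log T ^ 3) := by ring
        _ < _ := h5
        _ = _ := by ring
    have h7 : A < 6 * √(Φ c) := lt_of_mul_lt_mul_right h6 (by positivity)
    have h8 : A ^ 2 < (6 * √(Φ c)) ^ 2 := pow_lt_pow_left₀ h7 hA.le two_ne_zero
    rw [mul_pow, Real.sq_sqrt (hΦ0 c)] at h8
    linarith
  · have hN : (0 : ℝ) ≤ (2 * H + 1 : ℝ) ^ Fintype.card (Σ i, Fin (d i + 1)) := by positivity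
    refine mul_le_mul_of_nonneg_right ?_ hN
    rw [div_div_eq_mul_div]
    exact div_le_div_of_nonneg_right (by linarith) (by positivity)

/-- **The averages of the question are near the rank for almost all varieties.** -/
theorem lln_limit (hd : ∀ i, 4 ≤ d i) (η : ℝ) (hη : 0 < η) :
    ∃ T₀ : ℕ, ∀ H : ℕ, ({c : (Σ i, Fin (d i + 1)) → ℤ | (∀ μ, |c μ| ≤ H) ∧
      ∃ (V : Shape r d) (T : ℕ), T₀ ≤ T ∧ 8 * T ^ 4 ≤ H ∧
        η * size V < |tateSum V c (fun _ => 1) T / T - rank V|}.ncard : ℝ) ≤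
        η * (2 * H + 1 : ℝ) ^ Fintype.card (Σ i, Fin (d i + 1)) := by
  obtain ⟨C, hC0, hC⟩ := lln hd
  set A : ℝ := √(C / η) with hA
  have hCη : 0 < C / η := div_pos hC0 hη
  have hA0 : 0 < A := Real.sqrt_pos.2 hCη
  have hA2 : C / A ^ 2 = η := by
    rw [hA, Real.sq_sqrt hCη.le]
    field_simp
  have h1 := lim_sqrt A
  have h2 : Tendsto (fun T : ℕ => thetaSum (fun _ => 1) T / T - 1) atTop (𝓝 0) := by
    have := lim_theta.sub_const 1
    rwa [sub_self] at this
  have h3 := h1.eventually (gt_mem_nhds (by positivity : 0 < η / 2))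
  have h4 := h2.eventually (Metric.ball_mem_nhds 0 (by positivity : 0 < η / 2))
  obtain ⟨T₀, hT₀⟩ := Filter.eventually_atTop.1 (h3.and h4)
  refine ⟨max T₀ 2, fun H => ?_⟩
  have h5 := hC (fun _ => 1) (fun _ => by simp) H A hA0
  rw [hA2] at h5
  refine le_trans ?_ h5
  refine Nat.cast_le.2 (Set.ncard_le_ncard ?_ ?_)
  · rintro c ⟨hc, V, T, hT, hTH, hlt⟩
    have hT2 : 2 ≤ T := (le_max_right _ _).trans hT
    have hT0 : (0 : ℝ) < T := by exact_mod_cast (by omega : 0 < T)
    refine ⟨hc, V, T, hT2, hTH, ?_⟩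
    obtain ⟨h6, h7⟩ := hT₀ T ((le_max_left _ _).trans hT)
    rw [dist_zero_right, Real.norm_eq_abs] at h7
    by_contra hcon
    push Not at hcon
    have hs0 := size_nonneg V
    have h8 : |(tateSum V c (fun _ => 1) T - rank V * thetaSum (fun _ => 1) T) / T| ≤
        size V * (η / 2) := by
      rw [abs_div, abs_of_pos hT0]
      calc |tateSum V c (fun _ => 1) T - rank V * thetaSum (fun _ => 1) T| / T ≤
          A * size V * (√(T : ℝ) * Real.log T ^ 3) / T := div_le_div_of_nonneg_right hcon hT0.le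
        _ = size V * (A * (√(T : ℝ) * Real.log T ^ 3) / T) := by ring
        _ ≤ _ := mul_le_mul_of_nonneg_left h6.le hs0
    have h11 : |rank V * (thetaSum (fun _ => 1) T / T - 1)| ≤ size V * (η / 2) := by
      rw [abs_mul]
      exact mul_le_mul (rank_le V) h7.le (abs_nonneg _) hs0
    have h9 : tateSum V c (fun _ => 1) T / T - rank V =
        (tateSum V c (fun _ => 1) T - rank V * thetaSum (fun _ => 1) T) / T +
          rank V * (thetaSum (fun _ => 1) T / T - 1) := by
      field_simp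
      ring
    rw [h9] at hlt
    have h10 := abs_add_le ((tateSum V c (fun _ => 1) T - rank V * thetaSum (fun _ => 1) T) / T)
      (rank V * (thetaSum (fun _ => 1) T / T - 1))
    linarith
  · refine Set.Finite.subset (Set.Finite.pi' fun _ => Set.finite_Icc (-(H : ℤ)) H) ?_
    rintro c ⟨hc, -⟩ μ
    exact abs_le.1 (hc μ)

end

end Pool.Agent.H36.KM
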