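import Pool.Agent.H36.KM.Glob

/-!
# The final theorems
-/

set_option autoImplicit false
set_option linter.unusedSectionVars false

namespace Pool.Agent.H36.KM

open Finset hiding val
open Filter Topology Polynomial
open Pool.Agent.Y722.HS (EM EB red)
open Pool.Agent.K1H81.HW (thetaSum markov lim_sqrt lim_theta)

section
variable {r : ℕ} {d : Fin r → ℕ}

theorem mx_eq (x : Idx r d) : mx x = if ∀ i, x.1 i = 0 ∨ x.1 i = 1 then 1 else 0 := by
  unfold mx
  split_ifs with h
  · refine Finset.prod_eq_one fun i _ => ?_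
    rcases h i with h | h <;> rw [h] <;> rfl
  · push Not at h
    obtain ⟨i, h0, h1⟩ := h
    refine Finset.prod_eq_zero (Finset.mem_univ i) ?_
    generalize x.1 i = t at h0 h1
    fin_cases t
    · exact absurd rfl h0
    · exact absurd rfl h1
    · rfl
    · rfl

theorem mult_eq (e : Idx r d → ℝ) : mult e = ∑ x, e x * mx x := by
  unfold mult
  rw [Finset.sum_filter]
  refine Finset.sum_congr rfl fun x _ => ?_
  rw [mx_eq]
  split_ifs <;> simp

theorem norm1_nonneg (e : Idx r d → ℝ) : 0 ≤ norm1 e := Finset.sum_nonneg fun x _ => abs_nonneg _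

theorem mult_le (e : Idx r d → ℝ) : |mult e| ≤ norm1 e := by
  unfold mult norm1
  refine (Finset.abs_sum_le_sum_abs _ _).trans ?_
  exact Finset.sum_le_sum_of_subset_of_nonneg (Finset.filter_subset _ _) fun x _ _ => abs_nonneg _

theorem sumW_lin (e : Idx r d → ℝ) (c : (Σ i, Fin (d i + 1)) → ℤ) (w : ℕ → ℝ) (T : ℕ) :
    sumW e c w T = ∑ x, e x * bS x c w T := by
  classical
  unfold sumW bS trW
  simp only [Finset.mul_sum]
  rw [Finset.sum_comm]
  refine Finset.sum_congr rfl fun x _ => Finset.sum_congr rfl fun p _ => by ring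

theorem tateW_lin (e : Idx r d → ℝ) (c : (Σ i, Fin (d i + 1)) → ℤ) (w : ℕ → ℝ) (T : ℕ) :
    tateW e c w T = ∑ x, e x * bL x c w T := by
  classical
  unfold tateW bL
  simp only [Finset.mul_sum]
  rw [Finset.sum_comm]
  refine Finset.sum_congr rfl fun p hp => ?_
  have hp0 : (p : ℝ) ≠ 0 := by
    have := (Finset.mem_filter.1 hp).2.1.ne_zero
    exact_mod_cast this
  have e1 : (p : ℝ) * trW e c p * Real.log p / p = trW e c p * Real.log p := by
    field_simp
  rw [e1]
  unfold trW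
  rw [Finset.sum_mul, Finset.mul_sum]
  exact Finset.sum_congr rfl fun x _ => by ring

theorem lin_bound (e : Idx r d → ℝ) (f : Idx r d → ℝ) (t B : ℝ)
    (h : ∀ x, |f x - mx x * t| ≤ B) : |∑ x, e x * f x - mult e * t| ≤ norm1 e * B := by
  rw [mult_eq, Finset.sum_mul, ← Finset.sum_sub_distrib]
  refine (Finset.abs_sum_le_sum_abs _ _).trans ?_
  unfold norm1
  rw [Finset.sum_mul]
  refine Finset.sum_le_sum fun x _ => ?_
  rw [mul_assoc, ← mul_sub, abs_mul]
  exact mul_le_mul_of_nonneg_left (h x) (abs_nonneg _)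

/-- The comparison of constants. -/
theorem compare {A N F B : ℝ} (hA : 0 < A) (hN : 0 ≤ N) (hF : 0 ≤ F) (hB : 0 < B)
    (h : A * N * B < N * (6 * √F * B)) : A ^ 2 / 36 < F := by
  have hs : 0 < N := by
    rcases hN.lt_or_eq with h' | h'
    · exact h'
    · rw [← h'] at h
      simp at h
  have h6 : A * (N * B) < (6 * √F) * (N * B) := by
    calc A * (N * B) = A * N * B := by ring
      _ < _ := h
      _ = _ := by ring
  have h7 : A < 6 * √F := lt_of_mul_lt_mul_right h6 (by positivity)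
  have h8 : A ^ 2 < (6 * √F) ^ 2 := pow_lt_pow_left₀ h7 hA.le two_ne_zero
  rw [mul_pow, Real.sq_sqrt hF] at h8
  linarith

/-- **The law of large numbers for the traces.** -/
theorem lawBoth (hd : ∀ i, 4 ≤ d i) : ∃ C : ℝ, 0 < C ∧
    ∀ w : ℕ → ℝ, (∀ p, |w p| ≤ 1) → ∀ (H : ℕ) (A : ℝ), 0 < A →
      ({c : (Σ i, Fin (d i + 1)) → ℤ | (∀ j, |c j| ≤ H) ∧ ∃ (e : Idx r d → ℝ) (T : ℕ), 2 ≤ T ∧
        8 * T ^ 4 ≤ H ∧ (A * norm1 e * (√T * Real.log T ^ 2) <
          |sumW e c w T - mult e * piSum w T| ∨ A * norm1 e * (√T * Real.log T ^ 3) <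
          |tateW e c w T - mult e * thetaSum w T|)}.ncard : ℝ) ≤
        C / A ^ 2 * (2 * H + 1 : ℝ) ^ Fintype.card (Σ i, Fin (d i + 1)) := by
  classical
  obtain ⟨C, hC0, hC⟩ := core (d := d) hd
  refine ⟨36 * C + 1, by positivity, fun w hw H A hA => ?_⟩
  obtain ⟨Φ, hΦ0, hΦ1, hΦ2⟩ := hC w hw H
  have hA2 : 0 < A ^ 2 / 36 := by positivity
  refine (markov H Φ hΦ0 hΦ1 hA2 _ ?_).trans ?_
  · rintro c ⟨e, T, hT, hTH, hlt⟩
    have hT0 : (0 : ℝ) < T := by exact_mod_cast (by omega : 0 < T)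
    have hlog : 0 < Real.log T := Real.log_pos (by exact_mod_cast (by omega : 1 < T))
    rcases hlt with hlt | hlt
    · have hB0 : 0 < √(T : ℝ) * Real.log T ^ 2 := mul_pos (Real.sqrt_pos.2 hT0) (pow_pos hlog 2)
      refine compare hA (norm1_nonneg e) (hΦ0 c) hB0 (hlt.trans_le ?_)
      rw [sumW_lin]
      refine (lin_bound e _ _ (6 * √(Φ c) * (√(T : ℝ) * Real.log T ^ 2)) fun x => ?_)
      refine (hΦ2 c T hT hTH x).1.trans ?_
      have h0 : 0 ≤ √(Φ c) * (√(T : ℝ) * Real.log T ^ 2) := by positivity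
      linarith
    · have hB0 : 0 < √(T : ℝ) * Real.log T ^ 3 := mul_pos (Real.sqrt_pos.2 hT0) (pow_pos hlog 3)
      refine compare hA (norm1_nonneg e) (hΦ0 c) hB0 (hlt.trans_le ?_)
      rw [tateW_lin]
      exact (lin_bound e _ _ (6 * √(Φ c) * (√(T : ℝ) * Real.log T ^ 3)) fun x =>
        (hΦ2 c T hT hTH x).2)
  · have hN : (0 : ℝ) ≤ (2 * H + 1 : ℝ) ^ Fintype.card (Σ i, Fin (d i + 1)) := by positivity
    refine mul_le_mul_of_nonneg_right ?_ hN
    rw [div_div_eq_mul_div]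
    exact div_le_div_of_nonneg_right (by linarith) (by positivity)

theorem fin_box (H : ℕ) (P : ((Σ i, Fin (d i + 1)) → ℤ) → Prop) :
    {c : (Σ i, Fin (d i + 1)) → ℤ | (∀ j, |c j| ≤ H) ∧ P c}.Finite := by
  refine Set.Finite.subset (Set.Finite.pi' fun _ => Set.finite_Icc (-(H : ℤ)) H) ?_
  rintro c ⟨hc, -⟩ μ
  exact abs_le.1 (hc μ)

/-- **The first form for the traces.** -/
theorem lawW (hd : ∀ i, 4 ≤ d i) : ∃ C : ℝ, 0 < C ∧
    ∀ w : ℕ → ℝ, (∀ p, |w p| ≤ 1) → ∀ (H : ℕ) (A : ℝ), 0 < A →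
      ({c : (Σ i, Fin (d i + 1)) → ℤ | (∀ j, |c j| ≤ H) ∧ ∃ (e : Idx r d → ℝ) (T : ℕ), 2 ≤ T ∧
        8 * T ^ 4 ≤ H ∧ A * norm1 e * (√T * Real.log T ^ 2) <
          |sumW e c w T - mult e * piSum w T|}.ncard : ℝ) ≤
        C / A ^ 2 * (2 * H + 1 : ℝ) ^ Fintype.card (Σ i, Fin (d i + 1)) := by
  obtain ⟨C, hC0, hC⟩ := lawBoth (d := d) hd
  refine ⟨C, hC0, fun w hw H A hA => le_trans ?_ (hC w hw H A hA)⟩
  refine Nat.cast_le.2 (Set.ncard_le_ncard ?_ (fin_box H _))
  rintro c ⟨hc, e, T, h1, h2, h3⟩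
  exact ⟨hc, e, T, h1, h2, Or.inl h3⟩

/-- **The form with the weights `log p`.** -/
theorem lawT (hd : ∀ i, 4 ≤ d i) : ∃ C : ℝ, 0 < C ∧
    ∀ w : ℕ → ℝ, (∀ p, |w p| ≤ 1) → ∀ (H : ℕ) (A : ℝ), 0 < A →
      ({c : (Σ i, Fin (d i + 1)) → ℤ | (∀ j, |c j| ≤ H) ∧ ∃ (e : Idx r d → ℝ) (T : ℕ), 2 ≤ T ∧
        8 * T ^ 4 ≤ H ∧ A * norm1 e * (√T * Real.log T ^ 3) <
          |tateW e c w T - mult e * thetaSum w T|}.ncard : ℝ) ≤
        C / A ^ 2 * (2 * H + 1 : ℝ) ^ Fintype.card (Σ i, Fin (d i + 1)) := by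
  obtain ⟨C, hC0, hC⟩ := lawBoth (d := d) hd
  refine ⟨C, hC0, fun w hw H A hA => le_trans ?_ (hC w hw H A hA)⟩
  refine Nat.cast_le.2 (Set.ncard_le_ncard ?_ (fin_box H _))
  rintro c ⟨hc, e, T, h1, h2, h3⟩
  exact ⟨hc, e, T, h1, h2, Or.inr h3⟩

/-- **The averages of the question are near the rank.** -/
theorem limT (hd : ∀ i, 4 ≤ d i) (η : ℝ) (hη : 0 < η) :
    ∃ T₀ : ℕ, ∀ H : ℕ, ({c : (Σ i, Fin (d i + 1)) → ℤ | (∀ j, |c j| ≤ H) ∧
      ∃ (e : Idx r d → ℝ) (T : ℕ), T₀ ≤ T ∧ 8 * T ^ 4 ≤ H ∧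
        η * norm1 e < |tateW e c (fun _ => 1) T / T - mult e|}.ncard : ℝ) ≤
        η * (2 * H + 1 : ℝ) ^ Fintype.card (Σ i, Fin (d i + 1)) := by
  obtain ⟨C, hC0, hC⟩ := lawT (d := d) hd
  set A : ℝ := √(C / η) with hA
  have hCη : 0 < C / η := div_pos hC0 hη
  have hA0 : 0 < A := Real.sqrt_pos.2 hCη
  have hA2 : C / A ^ 2 = η := by
    rw [hA, Real.sq_sqrt hCη.le]
    field_simp
  have h1 := lim_sqrt A
  have h2 : Tendsto (fun T : ℕ => thetaSum (fun _ => 1) T / T - 1) atTop (𝓝 0) := by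
    have := lim_theta.sub_const 1
    rwa [sub_self] at this
  have h3 := h1.eventually (gt_mem_nhds (by positivity : 0 < η / 2))
  have h4 := h2.eventually (Metric.ball_mem_nhds 0 (by positivity : 0 < η / 2))
  obtain ⟨T₀, hT₀⟩ := Filter.eventually_atTop.1 (h3.and h4)
  refine ⟨max T₀ 2, fun H => ?_⟩
  have h5 := hC (fun _ => 1) (fun _ => by simp) H A hA0
  rw [hA2] at h5
  refine le_trans ?_ h5
  refine Nat.cast_le.2 (Set.ncard_le_ncard ?_ (fin_box H _))
  rintro c ⟨hc, V, T, hT, hTH, hlt⟩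
  have hT2 : 2 ≤ T := (le_max_right _ _).trans hT
  have hT0 : (0 : ℝ) < T := by exact_mod_cast (by omega : 0 < T)
  refine ⟨hc, V, T, hT2, hTH, ?_⟩
  obtain ⟨h6, h7⟩ := hT₀ T ((le_max_left _ _).trans hT)
  rw [dist_zero_right, Real.norm_eq_abs] at h7
  by_contra hcon
  push Not at hcon
  have hs0 := norm1_nonneg V
  have h8 : |(tateW V c (fun _ => 1) T - mult V * thetaSum (fun _ => 1) T) / T| ≤
      norm1 V * (η / 2) := by
    rw [abs_div, abs_of_pos hT0]
    calc |tateW V c (fun _ => 1) T - mult V * thetaSum (fun _ => 1) T| / T ≤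
        A * norm1 V * (√(T : ℝ) * Real.log T ^ 3) / T := div_le_div_of_nonneg_right hcon hT0.le
      _ = norm1 V * (A * (√(T : ℝ) * Real.log T ^ 3) / T) := by ring
      _ ≤ _ := mul_le_mul_of_nonneg_left h6.le hs0
  have h11 : |mult V * (thetaSum (fun _ => 1) T / T - 1)| ≤ norm1 V * (η / 2) := by
    rw [abs_mul]
    exact mul_le_mul (mult_le V) h7.le (abs_nonneg _) hs0
  have h9 : tateW V c (fun _ => 1) T / T - mult V =
      (tateW V c (fun _ => 1) T - mult V * thetaSum (fun _ => 1) T) / T +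
        mult V * (thetaSum (fun _ => 1) T / T - 1) := by
    field_simp
    ring
  rw [h9] at hlt
  have h10 := abs_add_le ((tateW V c (fun _ => 1) T - mult V * thetaSum (fun _ => 1) T) / T)
    (mult V * (thetaSum (fun _ => 1) T / T - 1))
  linarith

/-- The number of factorizations into one factor. -/
theorem nf_single {n p : ℕ} [hp : Fact p.Prime] (hn : 0 < n) (a : Fin (n + 1) → ZMod p)
    (h : pl a ≠ 0) : nf (Composition.single n hn) a = 1 := by
  have hl : (pl a).leadingCoeff ≠ 0 := leadingCoeff_ne_zero.2 h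
  have hC : C (pl a).leadingCoeff ≠ 0 := by rwa [Ne, C_eq_zero]
  unfold nf
  rw [Nat.cast_eq_one, Nat.card_eq_one_iff_unique]
  have hlen : (Composition.single n hn).length = 1 := Composition.single_length hn
  have hsub : Subsingleton (Fin (Composition.single n hn).length) := by
    rw [hlen]
    infer_instance
  have j0 : Fin (Composition.single n hn).length := ⟨0, by rw [hlen]; exact one_pos⟩
  have huniv : (Finset.univ : Finset (Fin (Composition.single n hn).length)) = {j0} := by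
    ext j
    rw [Subsingleton.elim j j0]
    exact ⟨fun _ => Finset.mem_singleton_self _, fun _ => Finset.mem_univ _⟩
  constructor
  · constructor
    rintro ⟨q, hq1, hq2⟩ ⟨q', hq1', hq2'⟩
    apply Subtype.ext
    funext j
    rw [huniv, Finset.prod_singleton] at hq2 hq2'
    have := mul_left_cancel₀ hC (hq2.trans hq2'.symm)
    rw [Subsingleton.elim j j0]
    exact this
  · refine ⟨⟨fun _ => C (pl a).leadingCoeff⁻¹ * pl a, fun j => ⟨?_, ?_⟩, ?_⟩⟩
    · rw [Monic, leadingCoeff_mul, leadingCoeff_C, inv_mul_cancel₀ hl]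
    · rw [Composition.single_blocksFun]
      exact (natDegree_C_mul_le _ _).trans (pl_natDegree a)
    · rw [huniv, Finset.prod_singleton, ← mul_assoc, ← C_mul, mul_inv_cancel₀ hl, C_1, one_mul]

/-- The trivial representation. -/
noncomputable def x0 (hd : ∀ i, 4 ≤ d i) : Idx r d :=
  (fun _ => 0, fun i => Composition.single (d i) (by have := hd i; omega))

theorem numGood_eq (hd : ∀ i, 4 ≤ d i) (c : (Σ i, Fin (d i + 1)) → ℤ) (T : ℕ) :
    (numGood c T : ℝ) = bS (x0 hd) c (fun _ => 1) T := by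
  classical
  unfold numGood bS
  rw [Finset.card_eq_sum_ones]
  push_cast
  refine Finset.sum_congr rfl fun p hp => ?_
  have hg := (Finset.mem_filter.1 hp).2
  have : Fact p.Prime := ⟨hg.1⟩
  rw [one_mul]
  unfold chr
  symm
  refine Finset.prod_eq_one fun i _ => ?_
  have hne : pl (p := p) (fun j => red p c ⟨i, j⟩) ≠ 0 := (hg.2.2 i).2.2.1.ne_zero
  have e1 : numFact ((x0 hd).2 i) (fun j => c ⟨i, j⟩) p = 1 :=
    nf_single (by have := hd i; omega) _ hne
  rw [e1, mul_one]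
  rfl

/-- **The averages over the good primes.** -/
theorem limW (hd : ∀ i, 4 ≤ d i) (η : ℝ) (hη : 0 < η) :
    ∃ T₀ : ℕ, ∀ H : ℕ, ({c : (Σ i, Fin (d i + 1)) → ℤ | (∀ j, |c j| ≤ H) ∧
      ∃ (e : Idx r d → ℝ) (T : ℕ), T₀ ≤ T ∧ 8 * T ^ 4 ≤ H ∧
        η * norm1 e < |sumW e c (fun _ => 1) T / numGood c T - mult e|}.ncard : ℝ) ≤
        η * (2 * H + 1 : ℝ) ^ Fintype.card (Σ i, Fin (d i + 1)) := by
  classical
  obtain ⟨C, hC0, hC⟩ := lawW (d := d) hd
  set A : ℝ := √(C / η) with hA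
  have hCη : 0 < C / η := div_pos hC0 hη
  have hA0 : 0 < A := Real.sqrt_pos.2 hCη
  have hA2 : C / A ^ 2 = η := by
    rw [hA, Real.sq_sqrt hCη.le]
    field_simp
  set δ : ℝ := min (1 / 4) (η / 16) with hδ
  have hδ0 : 0 < δ := by positivity
  have h1 := lim_sqrt A
  have h2 : Tendsto (fun T : ℕ => thetaSum (fun _ => 1) T / T) atTop (𝓝 1) := lim_theta
  have h3 := h1.eventually (gt_mem_nhds hδ0)
  have h4 := h2.eventually (lt_mem_nhds (by norm_num : (1 / 2 : ℝ) < 1))
  obtain ⟨T₀, hT₀⟩ := Filter.eventually_atTop.1 (h3.and h4)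
  refine ⟨max T₀ 2, fun H => ?_⟩
  have h5 := hC (fun _ => 1) (fun _ => by simp) H A hA0
  rw [hA2] at h5
  refine le_trans ?_ h5
  refine Nat.cast_le.2 (Set.ncard_le_ncard ?_ (fin_box H _))
  rintro c ⟨hc, V, T, hT, hTH, hlt⟩
  have hT2 : 2 ≤ T := (le_max_right _ _).trans hT
  have hT0 : (0 : ℝ) < T := by exact_mod_cast (by omega : 0 < T)
  have hlog : 0 < Real.log T := Real.log_pos (by exact_mod_cast (by omega : 1 < T))
  refine ⟨hc, ?_⟩
  by_contra hcon
  push Not at hcon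
  obtain ⟨h6, h7⟩ := hT₀ T ((le_max_left _ _).trans hT)
  have hV := hcon V T hT2 hTH
  have hX := hcon (fun x => if x = x0 hd then 1 else 0) T hT2 hTH
  set π : ℝ := piSum (fun _ => 1) T with hπ
  set B : ℝ := A * (√(T : ℝ) * Real.log T ^ 2) with hB
  have hB0 : 0 ≤ B := by positivity
  have e1 : sumW (fun x => if x = x0 hd then 1 else 0) c (fun _ => 1) T = numGood c T := by
    rw [numGood_eq hd, sumW_lin]
    simp
  have e2 : mult (fun x => if x = x0 hd then (1 : ℝ) else 0) = 1 := by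
    unfold mult
    rw [Finset.sum_ite_eq', if_pos]
    rw [Finset.mem_filter]
    exact ⟨Finset.mem_univ _, fun i => Or.inl rfl⟩
  have e3 : norm1 (fun x => if x = x0 hd then (1 : ℝ) else 0) = 1 := by
    unfold norm1
    have : ∀ x : Idx r d, |if x = x0 hd then (1 : ℝ) else 0| = if x = x0 hd then (1 : ℝ) else 0 := by
      intro x
      split_ifs <;> simp
    simp only [this]
    simp
  rw [e1, e2, e3, one_mul, mul_one] at hX
  set g : ℝ := ((numGood c T : ℕ) : ℝ) with hg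
  -- the number of primes
  have hth : thetaSum (fun _ => 1) T ≤ Real.log T * π := by
    rw [hπ]
    unfold thetaSum piSum
    rw [Finset.mul_sum]
    refine Finset.sum_le_sum fun p hp => ?_
    have hp' := Finset.mem_filter.1 hp
    have hp1 : (0 : ℝ) < p := by exact_mod_cast hp'.2.pos
    have hpT : (p : ℝ) ≤ T := by exact_mod_cast (Finset.mem_range.1 hp'.1).le
    have := Real.log_le_log hp1 hpT
    linarith
  have hth2 : (T : ℝ) / 2 ≤ thetaSum (fun _ => 1) T := by
    rw [lt_div_iff₀ hT0] at h7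
    linarith
  have hBL : B * Real.log T ≤ δ * T := by
    rw [div_lt_iff₀ hT0] at h6
    calc B * Real.log T = A * (√(T : ℝ) * Real.log T ^ 3) := by rw [hB]; ring
      _ ≤ δ * T := h6.le
  have hδ1 : δ ≤ 1 / 4 := min_le_left _ _
  have hδ2 : δ ≤ η / 16 := min_le_right _ _
  have hgL : (T : ℝ) / 4 ≤ g * Real.log T := by
    have h8 := (abs_le.1 hX).1
    have h9 : π * Real.log T - B * Real.log T ≤ g * Real.log T := by
      have h10 : π - B ≤ g := by linarith
      have := mul_le_mul_of_nonneg_right h10 hlog.le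
      linarith
    have h11 : δ * T ≤ 1 / 4 * T := mul_le_mul_of_nonneg_right hδ1 hT0.le
    linarith
  have hg0 : 0 < g := by
    by_contra h
    push Not at h
    have : g * Real.log T ≤ 0 := mul_nonpos_of_nonpos_of_nonneg h hlog.le
    linarith
  have hs0 := norm1_nonneg V
  have hVB : |sumW V c (fun _ => 1) T - mult V * π| ≤ norm1 V * B := by
    refine hV.trans (le_of_eq ?_)
    rw [hB]
    ring
  have hfin : |sumW V c (fun _ => 1) T - mult V * g| ≤ norm1 V * (2 * B) := by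
    have e4 : sumW V c (fun _ => 1) T - mult V * g =
        (sumW V c (fun _ => 1) T - mult V * π) + mult V * (π - g) := by ring
    rw [e4]
    refine (abs_add_le _ _).trans ?_
    rw [abs_mul]
    have h12 : |π - g| ≤ B := by
      rw [abs_sub_comm]
      exact hX
    have h13 : |mult V| * |π - g| ≤ norm1 V * B := mul_le_mul (mult_le V) h12 (abs_nonneg _) hs0
    linarith
  have hend : |sumW V c (fun _ => 1) T / g - mult V| ≤ η * norm1 V := by
    have e5 : sumW V c (fun _ => 1) T / g - mult V = (sumW V c (fun _ => 1) T - mult V * g) / g := by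
      field_simp
    rw [e5, abs_div, abs_of_pos hg0, div_le_iff₀ hg0]
    refine hfin.trans ?_
    have h14 : 2 * B ≤ η * g := by
      have h15 : 2 * B * Real.log T ≤ η * g * Real.log T := by
        calc 2 * B * Real.log T = 2 * (B * Real.log T) := by ring
          _ ≤ 2 * (δ * T) := by linarith
          _ ≤ 2 * (η / 16 * T) := by
              have := mul_le_mul_of_nonneg_right hδ2 hT0.le
              linarith
          _ ≤ η * (T / 4) := by
              have : 0 ≤ η * T := by positivity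
              linarith
          _ ≤ η * (g * Real.log T) := mul_le_mul_of_nonneg_left hgL hη.le
          _ = _ := by ring
      exact le_of_mul_le_mul_right h15 hlog
    calc norm1 V * (2 * B) ≤ norm1 V * (η * g) := mul_le_mul_of_nonneg_left h14 hs0
      _ = _ := by ring
  linarith

end

end Pool.Agent.H36.KM
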