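import Pool.Agent.H36.KM.Cur
import Pool.Agent.H36.KM.Defs2

/-!
# The law of large numbers for all representations
-/

set_option autoImplicit false
set_option linter.unusedSectionVars false

namespace Pool.Agent.H36.KM

open Finset hiding val
open Filter Topology
open Pool.Agent.Y722.HS (EM EB red)
open Pool.Agent.Y722.HS (EM_mono EM_const)
open Pool.Agent.Y722.PC (EM_prod)
open Pool.Agent.K1H81.HW (thetaSum markov lim_sqrt lim_theta)
open Pool.Agent.Y722.ST (Dat)

/-- Products of numbers close to given ones. -/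
theorem prod_near2 {J : Type} (s : Finset J) (x m B C : J → ℝ) (q : ℝ) (hq : 0 ≤ q)
    (h0 : ∀ j, |x j| ≤ B j) (h1 : ∀ j, 1 ≤ B j) (hC : ∀ j, 0 ≤ C j) (hm : ∀ j, |m j| ≤ 1)
    (h : ∀ j, |x j - m j| ≤ C j * q) :
    |∏ j ∈ s, x j - ∏ j ∈ s, m j| ≤ (∑ j ∈ s, C j) * (∏ j ∈ s, B j) * q := by
  classical
  induction s using Finset.induction_on with
  | empty => simp
  | insert j s hj ih =>
    rw [Finset.prod_insert hj, Finset.sum_insert hj, Finset.prod_insert hj, Finset.prod_insert hj]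
    have hB1 : 1 ≤ ∏ j ∈ s, B j := one_le_prodR s B h1
    have hS0 : 0 ≤ ∑ j ∈ s, C j := Finset.sum_nonneg fun i _ => hC i
    have hM : |∏ j ∈ s, m j| ≤ 1 := by
      rw [Finset.abs_prod]
      exact Finset.prod_le_one (fun j _ => abs_nonneg _) fun j _ => hm j
    have e : x j * ∏ j ∈ s, x j - m j * ∏ j ∈ s, m j =
        x j * (∏ j ∈ s, x j - ∏ j ∈ s, m j) + (x j - m j) * ∏ j ∈ s, m j := by ring
    rw [e]
    refine (abs_add_le _ _).trans ?_
    rw [abs_mul, abs_mul]
    have hBj : 0 ≤ B j := by linarith [h1 j]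
    have h3 : |x j| * |∏ j ∈ s, x j - ∏ j ∈ s, m j| ≤
        B j * ((∑ j ∈ s, C j) * (∏ j ∈ s, B j) * q) :=
      mul_le_mul (h0 j) ih (abs_nonneg _) hBj
    have h4 : C j * q ≤ C j * (B j * ∏ j ∈ s, B j) * q := by
      have h5 : 1 ≤ B j * ∏ j ∈ s, B j := one_le_mul_of_one_le_of_one_le (h1 j) hB1
      have h6 : C j * 1 ≤ C j * (B j * ∏ j ∈ s, B j) := mul_le_mul_of_nonneg_left h5 (hC j)
      rw [mul_one] at h6
      exact mul_le_mul_of_nonneg_right h6 hq
    have h7 : |x j - m j| * |∏ j ∈ s, m j| ≤ |x j - m j| * 1 :=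
      mul_le_mul_of_nonneg_left hM (abs_nonneg _)
    calc |x j| * |∏ j ∈ s, x j - ∏ j ∈ s, m j| + |x j - m j| * |∏ j ∈ s, m j| ≤
        B j * ((∑ j ∈ s, C j) * (∏ j ∈ s, B j) * q) + C j * (B j * ∏ j ∈ s, B j) * q :=
          add_le_add h3 (h7.trans ((mul_one _).le.trans ((h j).trans h4)))
      _ = _ := by ring

section
variable {r : ℕ} {d : Fin r → ℕ}

/-- The local functions. -/
noncomputable def GF (x : Idx r d) (p : ℕ) (c : (Σ i, Fin (d i + 1)) → ZMod p) : ℝ :=
  ∏ i, (XX (x.1 i) p (fun j => c ⟨i, j⟩) * NN (x.2 i) p (fun j => c ⟨i, j⟩))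

/-- The means. -/
def mx (x : Idx r d) : ℝ := ∏ i, mt (x.1 i)

/-- The local functions, zero at the bad primes. -/
noncomputable def YG (x : Idx r d) (p : ℕ) (c : (Σ i, Fin (d i + 1)) → ZMod p) : ℝ :=
  if p = 2 then 0 else (1 - badI d p c) * GF x p c

theorem mt_abs (t : Fin 4) : |mt t| ≤ 1 := by
  fin_cases t <;> simp [mt]

theorem datB2 {ι : Type} [Fintype ι] [DecidableEq ι]
    (bad B : ∀ p : ℕ, (ι → ZMod p) → ℝ) (m C D : ℝ) (hC1 : 1 ≤ C) (hD0 : 0 ≤ D)
    (hb : ∀ p c, bad p c = 0 ∨ bad p c = 1)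
    (hD : ∀ (p : ℕ) [Fact p.Prime], 3 ≤ p → EM p (bad p) ≤ D / p)
    (hB : ∀ (p : ℕ) [Fact p.Prime], 3 ≤ p →
      |EM p (B p) - m| ≤ C / √p ∧ EM p (fun c => B p c ^ 2) ≤ C) :
    ∀ (p : ℕ) [Fact p.Prime], 3 ≤ p →
      EM p (fun c => ((1 - bad p c) * B p c) ^ 2) ≤ C + (C + D) ∧
      |EM p (fun c => (1 - bad p c) * B p c) - m| ≤ (C + (C + D)) / √p := by
  intro p hp h3p
  have hC0 : 0 ≤ C := by linarith
  obtain ⟨h1, h2⟩ := hB p h3p
  constructor
  · have h3 : EM p (fun c => ((1 - bad p c) * B p c) ^ 2) ≤ EM p (fun c => B p c ^ 2) := by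
      refine EM_mono p _ _ fun c => ?_
      rcases hb p c with h | h
      · rw [h, sub_zero, one_mul]
      · rw [h, sub_self, zero_mul]
        nlinarith [sq_nonneg (B p c)]
    linarith
  · have hp0 : (0 : ℝ) < p := by exact_mod_cast hp.out.pos
    have hp1 : (1 : ℝ) ≤ p := by exact_mod_cast hp.out.one_lt.le
    have hs1 : 1 ≤ √(p : ℝ) := Real.one_le_sqrt.2 hp1
    have hs0 : 0 < √(p : ℝ) := by linarith
    have hss : √(p : ℝ) * √(p : ℝ) = p := Real.mul_self_sqrt hp0.le
    have e1 : (fun c => (1 - bad p c) * B p c) = fun c =>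
        B p c + (-1) * (bad p c * B p c) := by
      funext c
      ring
    have h4 : |EM p (fun c => bad p c * B p c)| ≤
        EM p (fun c => 1 / √p * (B p c ^ 2) + √p * bad p c) := by
      refine abs_EM_le p _ _ fun c => ?_
      obtain ⟨x, hx⟩ : ∃ x, B p c = x := ⟨_, rfl⟩
      rw [hx]
      rcases hb p c with h | h
      · rw [h, zero_mul, abs_zero, mul_zero, add_zero]
        positivity
      · rw [h, one_mul, mul_one]
        obtain ⟨a, ha⟩ : ∃ a, √(p : ℝ) = a := ⟨_, rfl⟩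
        rw [ha] at hs0 ⊢
        obtain ⟨z, hz⟩ : ∃ z, |x| = z := ⟨_, rfl⟩
        have hz2 : x ^ 2 = z ^ 2 := by rw [← hz, sq_abs]
        rw [hz, hz2]
        have h6 : z * a ≤ z ^ 2 + a * a := by nlinarith [sq_nonneg (z - a), sq_nonneg z]
        have h7 : 1 / a * z ^ 2 + a = (z ^ 2 + a * a) / a := by field_simp
        rw [h7, le_div_iff₀ hs0]
        exact h6
    rw [Pool.Agent.Y722.LS.EM_add, Pool.Agent.Y722.LS.EM_mul, Pool.Agent.Y722.LS.EM_mul] at h4
    have h5 : √(p : ℝ) * EM p (bad p) ≤ D / √p := by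
      calc √(p : ℝ) * EM p (bad p) ≤ √(p : ℝ) * (D / p) := by
            gcongr
            exact hD p h3p
        _ = D / √p := by
            rw [eq_div_iff hs0.ne', mul_comm (√(p : ℝ)) (D / p), mul_assoc, hss,
              div_mul_cancel₀ _ hp0.ne']
    have h6 : 1 / √(p : ℝ) * EM p (fun c => B p c ^ 2) ≤ C / √p := by
      rw [one_div_mul_eq_div]
      gcongr
    rw [e1, Pool.Agent.Y722.LS.EM_add, Pool.Agent.Y722.LS.EM_mul]
    have e2' : EM p (B p) + (-1) * EM p (fun c => bad p c * B p c) - m =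
        (EM p (B p) - m) - EM p (fun c => bad p c * B p c) := by
      ring
    rw [e2']
    refine (abs_sub _ _).trans ?_
    have h7 : |EM p (fun c => bad p c * B p c)| ≤ (C + D) / √p := by
      rw [add_div]
      have h8 : EM p (fun c => bad p c) = EM p (bad p) := rfl
      linarith
    refine (add_le_add h1 h7).trans ?_
    rw [← add_div]

theorem datG (hd : ∀ i, 4 ≤ d i) (x : Idx r d) : ∃ K : ℝ, Dat K 3 (YG x) (mx x) := by
  classical
  choose K hK1 hK using fun i => cur (n := d i) (hd i) (x.1 i) (x.2 i)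
  have hD0 : 0 ≤ ∑ i, ((d i : ℝ) + 1) := by positivity
  have hD : ∀ (p : ℕ) [Fact p.Prime], 3 ≤ p → EM p (badI d p) ≤ (∑ i, ((d i : ℝ) + 1)) / p :=
    fun p _ _ => EM_badI hd p
  have hB1 : ∀ i, 1 ≤ K i + 1 := fun i => by linarith [hK1 i]
  set C : ℝ := (∑ i, K i) * (∏ i, (K i + 1)) + ∏ i, (K i + 1) with hC
  have hP1 : 1 ≤ ∏ i, (K i + 1) := one_le_prodR _ _ hB1
  have hS0 : 0 ≤ ∑ i, K i := Finset.sum_nonneg fun i _ => by linarith [hK1 i]
  have hC1 : 1 ≤ C := by
    have : 0 ≤ (∑ i, K i) * (∏ i, (K i + 1)) := mul_nonneg hS0 (by linarith)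
    linarith
  have key := datB2 (badI d) (GF x) (mx x) C _ hC1 hD0 badI_cases hD fun p hp h3 => by
    have hp1 : (1 : ℝ) ≤ p := by exact_mod_cast hp.out.one_lt.le
    have hs1 : 1 ≤ √(p : ℝ) := Real.one_le_sqrt.2 hp1
    have hs0 : 0 < √(p : ℝ) := by linarith
    have hq1 : 1 / √(p : ℝ) ≤ 1 := by
      rw [div_le_one hs0]
      exact hs1
    constructor
    · have e1 : EM p (GF x p) = ∏ i, EM p (fun a : Fin (d i + 1) → ZMod p =>
          XX (x.1 i) p a * NN (x.2 i) p a) :=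
        EM_prod (ι := fun i => Fin (d i + 1)) p
          (fun i a => XX (x.1 i) p a * NN (x.2 i) p a)
      rw [e1]
      have h4 := prod_near2 Finset.univ (fun i => EM p (fun a : Fin (d i + 1) → ZMod p =>
          XX (x.1 i) p a * NN (x.2 i) p a)) (fun i => mt (x.1 i)) (fun i => K i + 1) K
        (1 / √(p : ℝ)) (by positivity) (fun i => by
          have h5 := (hK i p h3).1
          have h6 : K i / √(p : ℝ) ≤ K i := div_le_self (by linarith [hK1 i]) hs1
          have h7 := mt_abs (x.1 i)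
          rw [abs_le] at h5 h7 ⊢
          constructor <;> linarith) hB1 (fun i => by linarith [hK1 i])
        (fun i => mt_abs _) (fun i => by
          rw [mul_one_div]
          exact (hK i p h3).1)
      refine h4.trans ?_
      rw [mul_one_div]
      apply div_le_div_of_nonneg_right _ hs0.le
      linarith
    · have e2 : EM p (fun c => GF x p c ^ 2) = ∏ i, EM p (fun a : Fin (d i + 1) → ZMod p =>
          (XX (x.1 i) p a * NN (x.2 i) p a) ^ 2) := by
        rw [← EM_prod (ι := fun i => Fin (d i + 1)) p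
          (fun i a => (XX (x.1 i) p a * NN (x.2 i) p a) ^ 2)]
        congr 1
        funext c
        unfold GF
        rw [Finset.prod_pow]
      rw [e2]
      have h5 : ∏ i, EM p (fun a : Fin (d i + 1) → ZMod p =>
          (XX (x.1 i) p a * NN (x.2 i) p a) ^ 2) ≤ ∏ i, (K i + 1) :=
        Finset.prod_le_prod (fun i _ => Pool.Agent.Y722.LS.EM_nonneg p _ fun a => sq_nonneg _)
          fun i _ => by linarith [(hK i p h3).2]
      have h6 : 0 ≤ (∑ i, K i) * (∏ i, (K i + 1)) := mul_nonneg hS0 (by linarith)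
      linarith
  refine ⟨C + (C + ∑ i, ((d i : ℝ) + 1)), by linarith, fun p hp h3 => ?_, fun p hp h3 => ?_⟩
  · have e : (fun c => YG x p c ^ 2) = fun c => ((1 - badI d p c) * GF x p c) ^ 2 := by
      funext c
      unfold YG
      rw [if_neg (by omega)]
    rw [e]
    exact (key p h3).1
  · have e : (fun c => YG x p c) = fun c => ((1 - badI d p c) * GF x p c) := by
      funext c
      unfold YG
      rw [if_neg (by omega)]
    rw [e]
    exact (key p h3).2

theorem XX_eq {n p : ℕ} [hp : Fact p.Prime] (h2 : p ≠ 2) (t : Fin 4) (c : Fin (n + 1) → ℤ) :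
    XX t p (red p c) = basic t c p := by
  have hp0 : (0 : ℝ) < p := by exact_mod_cast hp.out.pos
  have h1 := trace1 c h2
  have h3 := trace2 c h2
  fin_cases t
  · rfl
  · show (A1 p (red p c) + A2 p (red p c)) / 2 = (traceH1 c p 1 ^ 2 - traceH1 c p 2) / (2 * p)
    rw [A1_eq, A2_eq, h1, h3]
    field_simp
    ring
  · show (A1 p (red p c) - A2 p (red p c)) / 2 = (traceH1 c p 1 ^ 2 + traceH1 c p 2) / (2 * p)
    rw [A1_eq, A2_eq, h1, h3]
    field_simp
    ring
  · show -T1 p (red p c) = traceH1 c p 1 / √p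
    rw [T1_eq, h1]
    ring

theorem YG_red (x : Idx r d) (c : (Σ i, Fin (d i + 1)) → ℤ) (p : ℕ) (hp : p.Prime)
    [Decidable (Good c p)] :
    YG x p (red p c) = if Good c p then chr x c p else 0 := by
  classical
  unfold YG
  by_cases h2 : p = 2
  · subst h2
    have : ¬ Good c 2 := fun h => h.2.1 rfl
    rw [if_pos rfl, if_neg this]
  rw [if_neg h2]
  have : Fact p.Prime := ⟨hp⟩
  have h1 : Good c p ↔ ∀ i, Sq1 (p := p) (fun j => red p c ⟨i, j⟩) := by
    unfold Good GoodReduction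
    constructor
    · rintro ⟨-, -, h⟩ i
      exact (h i).2.2
    · intro h
      exact ⟨hp, h2, fun i => ⟨hp, h2, h i⟩⟩
  by_cases h : Good c p
  · have hb : badI d p (red p c) = 0 := by
      unfold badI
      rw [dif_pos hp, if_pos (h1.1 h)]
    rw [if_pos h, hb, sub_zero, one_mul]
    unfold GF chr
    refine Finset.prod_congr rfl fun i _ => ?_
    have hne : pl (p := p) (fun j => red p c ⟨i, j⟩) ≠ 0 := ((h1.1 h) i).1.ne_zero
    have e1 : XX (x.1 i) p (fun j => red p c ⟨i, j⟩) = basic (x.1 i) (fun j => c ⟨i, j⟩) p :=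
      XX_eq h2 (x.1 i) (fun j => c ⟨i, j⟩)
    have e2 : NN (x.2 i) p (fun j => red p c ⟨i, j⟩) = numFact (x.2 i) (fun j => c ⟨i, j⟩) p := by
      unfold NN
      rw [dif_pos hp, if_neg hne]
      rfl
    rw [e1, e2]
  · have hb : badI d p (red p c) = 1 := by
      unfold badI
      rw [dif_pos hp, if_neg fun h2 => h (h1.2 h2)]
    rw [if_neg h, hb, sub_self, zero_mul]

open Classical in
/-- The sums of the basic parts. -/
noncomputable def bS (x : Idx r d) (c : (Σ i, Fin (d i + 1)) → ℤ) (w : ℕ → ℝ) (T : ℕ) : ℝ :=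
  ∑ p ∈ range T with Good c p, w p * chr x c p

open Classical in
/-- The sums of the basic parts with the weights `log p`. -/
noncomputable def bL (x : Idx r d) (c : (Σ i, Fin (d i + 1)) → ℤ) (w : ℕ → ℝ) (T : ℕ) : ℝ :=
  ∑ p ∈ range T with Good c p, w p * (chr x c p * Real.log p)

/-- **The core.** -/
theorem core (hd : ∀ i, 4 ≤ d i) : ∃ C : ℝ, 0 ≤ C ∧ ∀ w : ℕ → ℝ, (∀ p, |w p| ≤ 1) → ∀ H : ℕ,
    ∃ Φ : ((Σ i, Fin (d i + 1)) → ℤ) → ℝ, (∀ c, 0 ≤ Φ c) ∧ EB H Φ ≤ C ∧
      ∀ (c : (Σ i, Fin (d i + 1)) → ℤ) (T : ℕ), 2 ≤ T → 8 * T ^ 4 ≤ H → ∀ x : Idx r d,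
        |bS x c w T - mx x * piSum w T| ≤ √(Φ c) * (√(T : ℝ) * Real.log T ^ 2) ∧
        |bL x c w T - mx x * thetaSum w T| ≤ 6 * √(Φ c) * (√(T : ℝ) * Real.log T ^ 3) := by
  classical
  choose K hK using fun x : Idx r d => datG hd x
  obtain ⟨C, hC0, hC⟩ := Pool.Agent.Y722.ST.effective_weights (κ := Idx r d) (K := K)
    (m := mx) (p0 := 3) (Y := fun x => YG x) hK 1 0 (by simp)
  refine ⟨C, hC0, fun w hw H => ?_⟩
  obtain ⟨Φ, hΦ0, hΦ1, hΦ2⟩ := hC (fun _ => w) (fun _ => hw) H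
  refine ⟨Φ, hΦ0, hΦ1, fun c T hT hTH x => ?_⟩
  have hT0 : (0 : ℝ) < T := by exact_mod_cast (by omega : 0 < T)
  have hlog : 0 < Real.log T := Real.log_pos (by exact_mod_cast (by omega : 1 < T))
  set a : ℕ → ℝ := fun p => if p.Prime then
    (w p * (YG x p (red p c) - mx x)) else 0 with ha
  have h1 : ∀ t : ℕ, 2 ≤ t → t ≤ T → (∑ i ∈ range t, a i) ^ 2 ≤ t * Real.log t ^ 4 * Φ c := by
    intro t ht htT
    have h8 : 8 * t ^ 4 ≤ H := by
      calc 8 * t ^ 4 ≤ 8 * T ^ 4 := by gcongr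
        _ ≤ H := hTH
    have h9 := hΦ2 c (fun _ => True) (fun _ _ _ _ => trivial) x t ht h8
    have e : Pool.Agent.Y722.ST.DD (fun p c => w p * (YG x p c - mx x)) 0
        (fun _ => True) c t = ∑ i ∈ range t, a i := by
      unfold Pool.Agent.Y722.ST.DD
      exact Finset.sum_congr rfl fun p _ => by by_cases hp : p.Prime <;> simp [ha, hp]
    rwa [e] at h9
  constructor
  · have h3 : ∑ i ∈ range T, a i = bS x c w T - mx x * piSum w T := by
      unfold bS piSum
      rw [Finset.mul_sum, Finset.sum_filter, Finset.sum_filter, ← Finset.sum_sub_distrib]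
      refine Finset.sum_congr rfl fun p _ => ?_
      rw [ha]
      by_cases hp : p.Prime
      · simp only [hp, if_true]
        rw [YG_red x c p hp]
        split_ifs with hg
        · ring
        · ring
      · have hg : ¬ Good c p := fun h => hp h.1
        simp only [hp, if_false, if_neg hg]
        ring
    have h2 := h1 T hT le_rfl
    rw [h3] at h2
    refine abs_le_of_sq_le_sq (h2.trans (le_of_eq ?_)) (by positivity)
    rw [mul_pow, mul_pow, Real.sq_sqrt hT0.le, Real.sq_sqrt (hΦ0 c)]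
    ring
  · have h2 := Pool.Agent.Y722.ST.abel_log a (by simp [ha, Nat.not_prime_zero])
      (by simp [ha, Nat.not_prime_one]) (Φ c) T hT h1
    have h3 : ∑ i ∈ range T, a i * Real.log i = bL x c w T - mx x * thetaSum w T := by
      unfold bL thetaSum
      rw [Finset.mul_sum, Finset.sum_filter, Finset.sum_filter, ← Finset.sum_sub_distrib]
      refine Finset.sum_congr rfl fun p _ => ?_
      rw [ha]
      by_cases hp : p.Prime
      · simp only [hp, if_true]
        rw [YG_red x c p hp]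
        split_ifs with hg
        · ring
        · ring
      · have hg : ¬ Good c p := fun h => hp h.1
        simp only [hp, if_false, if_neg hg]
        ring
    rw [h3] at h2
    refine abs_le_of_sq_le_sq (h2.trans (le_of_eq ?_)) (by positivity)
    rw [mul_pow, mul_pow, mul_pow, Real.sq_sqrt hT0.le, Real.sq_sqrt (hΦ0 c)]
    ring

end

end Pool.Agent.H36.KM
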