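import Pool.Agent.H36.KM.Mean

/-!
# Joint moments of the character sums and the number of factorizations
-/

set_option autoImplicit false
set_option linter.unusedSectionVars false

namespace Pool.Agent.H36.KM

open Finset Polynomial
open Pool.Agent.Y722.HS (EM red)
open Pool.Agent.Y722.HS (EM_mono EM_const)
open Pool.Agent.Y722.LS (EM_add EM_mul)
open Pool.Agent.Y722.PC (EM_sum)

section
variable {d p : ℕ} [hp : Fact p.Prime]

/-- The monic polynomials of degree `n`. -/
abbrev Mo (p n : ℕ) : Type := {q : (ZMod p)[X] // q.Monic ∧ q.natDegree = n}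

noncomputable instance instMo (n : ℕ) : Fintype (Mo p n) :=
  haveI := (card_monic (p := p) n).1
  Fintype.ofFinite _

theorem card_Mo (n : ℕ) : Fintype.card (Mo p n) = p ^ n := by
  rw [← Nat.card_eq_fintype_card]
  exact (card_monic n).2

/-- The shift by a polynomial of smaller degree. -/
theorem sum_shift (n : ℕ) (l : (ZMod p)[X]) (hl : l.natDegree < n) (f : (ZMod p)[X] → ℝ) :
    ∑ q : Mo p n, f (q.1 + l) = ∑ q : Mo p n, f q.1 := by
  have hdeg : ∀ q : Mo p n, l.degree < q.1.degree := by
    intro q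
    rw [degree_eq_natDegree q.2.1.ne_zero, q.2.2]
    exact (degree_le_natDegree).trans_lt (by exact_mod_cast hl)
  have hdeg' : ∀ q : Mo p n, (-l).degree < q.1.degree := by
    intro q
    rw [degree_neg]
    exact hdeg q
  let e : Mo p n ≃ Mo p n :=
    { toFun := fun q => ⟨q.1 + l, q.2.1.add_of_left (hdeg q), by
        rw [natDegree_add_eq_left_of_degree_lt (hdeg q), q.2.2]⟩
      invFun := fun q => ⟨q.1 + -l, q.2.1.add_of_left (hdeg' q), by
        rw [natDegree_add_eq_left_of_degree_lt (hdeg' q), q.2.2]⟩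
      left_inv := fun q => Subtype.ext (by simp)
      right_inv := fun q => Subtype.ext (by simp) }
  exact Fintype.sum_equiv e (fun q => f (q.1 + l)) (fun q => f q.1) fun q => rfl

theorem sum_shift_fam {V : Type} [Fintype V] (n : ℕ) (l : V → (ZMod p)[X])
    (hl : ∀ v, (l v).natDegree < n) (f : (ZMod p)[X] → ℝ) (t : ℝ)
    (h : ∀ q : (ZMod p)[X], ∑ v, f (q + l v) = t) :
    (Fintype.card V : ℝ) * ∑ q : Mo p n, f q.1 = (p : ℝ) ^ n * t := by
  have h1 : ∑ v : V, ∑ q : Mo p n, f (q.1 + l v) = ∑ _v : V, ∑ q : Mo p n, f q.1 :=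
    Finset.sum_congr rfl fun v _ => sum_shift n (l v) (hl v) f
  rw [Finset.sum_comm, Finset.sum_congr rfl fun q _ => h q.1, Finset.sum_const, Finset.sum_const,
    nsmul_eq_mul, nsmul_eq_mul, Finset.card_univ, Finset.card_univ, card_Mo] at h1
  rw [← h1]
  push_cast
  rfl

/-- A constant function with a given sum. -/
theorem const_sum {J : Type} (s : Finset J) (f : J → ℝ) (h : ∀ x ∈ s, ∀ y ∈ s, f x = f y) (x : J)
    (hx : x ∈ s) : (s.card : ℝ) * f x = ∑ y ∈ s, f y := by
  rw [Finset.sum_congr rfl fun y hy => h y hy x hx, Finset.sum_const, nsmul_eq_mul]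

/-- The quadratic character as a real number. -/
noncomputable def qr (L : Type) [Field L] [Fintype L] [DecidableEq L] (v : L) : ℝ :=
  ((quadraticChar L v : ℤ) : ℝ)

section
variable (L : Type) [Field L] [Fintype L] [DecidableEq L]

theorem qr_mul (v w : L) : qr L (v * w) = qr L v * qr L w := by
  unfold qr
  rw [map_mul]
  push_cast
  rfl

theorem qr_prod {J : Type} (s : Finset J) (v : J → L) : qr L (∏ j ∈ s, v j) = ∏ j ∈ s, qr L (v j) := by
  unfold qr
  rw [map_prod]
  push_cast
  rfl

theorem qr_zero : qr L 0 = 0 := by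
  unfold qr
  simp

theorem qr_sq (v : L) (hv : v ≠ 0) : qr L v * qr L v = 1 := by
  unfold qr
  have := quadraticChar_sq_one hv
  rw [← sq]
  exact_mod_cast this

theorem qr_abs (v : L) : |qr L v| ≤ 1 := by
  unfold qr
  by_cases h : v = 0
  · rw [h]
    simp
  · rcases quadraticChar_dichotomy h with h1 | h1 <;> rw [h1] <;> simp

theorem qr_sum (hL : ringChar L ≠ 2) : ∑ v : L, qr L v = 0 := by
  unfold qr
  exact_mod_cast quadraticChar_sum_zero hL

theorem qr_sum_shift (hL : ringChar L ≠ 2) (w : L) : ∑ v : L, qr L (w + v) = 0 := by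
  rw [← qr_sum L hL]
  exact Fintype.sum_equiv (Equiv.addLeft w) _ _ fun v => rfl

end

/-- The correlation of the quadratic character. -/
theorem jac (h2 : p ≠ 2) (h : ZMod p) (hh : h ≠ 0) :
    ∑ a : ZMod p, qr (ZMod p) a * qr (ZMod p) (a + h) = -1 := by
  classical
  set J : ZMod p → ℝ := fun h => ∑ a : ZMod p, qr (ZMod p) a * qr (ZMod p) (a + h) with hJ
  have hscale : ∀ t : ZMod p, t ≠ 0 → ∀ h, J (t * h) = J h := by
    intro t ht h
    rw [hJ]
    simp only
    rw [← Fintype.sum_equiv (Equiv.mulLeft₀ t ht)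
      (fun a => qr (ZMod p) (t * a) * qr (ZMod p) (t * a + t * h)) _ fun a => rfl]
    refine Finset.sum_congr rfl fun a _ => ?_
    rw [← mul_add, qr_mul, qr_mul]
    have := qr_sq (ZMod p) t ht
    linear_combination (qr (ZMod p) a * qr (ZMod p) (a + h)) * this
  have hc : ∀ x ∈ Finset.univ.erase (0 : ZMod p), ∀ y ∈ Finset.univ.erase (0 : ZMod p),
      J x = J y := by
    intro x hx y hy
    have hx0 := (Finset.mem_erase.1 hx).1
    have hy0 := (Finset.mem_erase.1 hy).1
    have := hscale (x / y) (div_ne_zero hx0 hy0) y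
    rwa [div_mul_cancel₀ _ hy0] at this
  have h1 := const_sum _ J hc h (Finset.mem_erase.2 ⟨hh, Finset.mem_univ _⟩)
  have h3 : ∑ y, J y = 0 := by
    rw [hJ]
    simp only
    rw [Finset.sum_comm]
    refine Finset.sum_eq_zero fun a _ => ?_
    rw [← Finset.mul_sum, qr_sum_shift _ (prime_ringChar h2), mul_zero]
  have h4 : J 0 = p - 1 := by
    rw [hJ]
    simp only [add_zero]
    rw [← Finset.add_sum_erase _ _ (Finset.mem_univ (0 : ZMod p)), qr_zero, mul_zero, zero_add,
      Finset.sum_congr rfl fun a ha => qr_sq (ZMod p) a (Finset.mem_erase.1 ha).1,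
      Finset.sum_const, Finset.card_erase_of_mem (Finset.mem_univ _), Finset.card_univ,
      ZMod.card, nsmul_eq_mul, mul_one, Nat.cast_sub hp.out.one_lt.le, Nat.cast_one]
  rw [← Finset.add_sum_erase _ _ (Finset.mem_univ (0 : ZMod p)), h4] at h3
  rw [Finset.card_erase_of_mem (Finset.mem_univ _), Finset.card_univ, ZMod.card,
    Nat.cast_sub hp.out.one_lt.le, Nat.cast_one] at h1
  have hp1 : (1 : ℝ) < p := by exact_mod_cast hp.out.one_lt
  have h5 : ((p : ℝ) - 1) * (J h + 1) = 0 := by linarith
  have h6 := (mul_eq_zero.1 h5).resolve_left (by linarith)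
  have h7 : J h = -1 := by linarith
  exact h7

/-- The factor of a polynomial at a point. -/
noncomputable def hv (P : Option (ZMod p)) (q : (ZMod p)[X]) : ℝ :=
  match P with
  | none => 1
  | some x => qr (ZMod p) (q.eval x)

/-- The sum over the monic polynomials. -/
noncomputable def WW (n : ℕ) (P Q : Option (ZMod p)) : ℝ := ∑ q : Mo p n, hv P q.1 * hv Q q.1

theorem WW_comm (n : ℕ) (P Q : Option (ZMod p)) : WW n P Q = WW n Q P := by
  unfold WW
  exact Finset.sum_congr rfl fun q _ => mul_comm _ _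

theorem WW_none (n : ℕ) : WW (p := p) n none none = (p : ℝ) ^ n := by
  unfold WW hv
  simp only [mul_one, Finset.sum_const, nsmul_eq_mul, Finset.card_univ, card_Mo]
  push_cast
  rfl

theorem WW_inf (h2 : p ≠ 2) (n : ℕ) (hn : 0 < n) (x : ZMod p) : WW n (some x) none = 0 := by
  have h1 := sum_shift_fam (p := p) n (fun v : ZMod p => C v) (fun v => by
    rw [natDegree_C]
    exact hn) (fun q => hv (some x) q * hv none q) 0 fun q => by
      unfold hv
      simp only [mul_one, eval_add, eval_C]
      exact qr_sum_shift _ (prime_ringChar h2) _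
  rw [mul_zero, ZMod.card] at h1
  exact (mul_eq_zero.1 h1).resolve_left (by exact_mod_cast hp.out.ne_zero)

theorem WW_two (h2 : p ≠ 2) (n : ℕ) (hn : 1 < n) (x y : ZMod p) (hxy : x ≠ y) :
    WW n (some x) (some y) = 0 := by
  have hxy' : x - y ≠ 0 := sub_ne_zero.2 hxy
  have h1 := sum_shift_fam (p := p) n (fun v : ZMod p => C (v / (x - y)) * (X - C y)) (fun v => by
    refine lt_of_le_of_lt (natDegree_C_mul_le _ _) ?_
    rw [natDegree_X_sub_C]
    exact hn) (fun q => hv (some x) q * hv (some y) q) 0 fun q => by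
      unfold hv
      simp only [eval_add, eval_mul, eval_C, eval_sub, eval_X, sub_self, mul_zero, add_zero]
      rw [← Finset.sum_mul]
      have e : ∑ v : ZMod p, qr (ZMod p) (eval x q + v / (x - y) * (x - y)) = 0 := by
        rw [← qr_sum_shift (ZMod p) (prime_ringChar h2) (eval x q)]
        refine Finset.sum_congr rfl fun v _ => ?_
        rw [div_mul_cancel₀ _ hxy']
      rw [e, zero_mul]
  rw [mul_zero, ZMod.card] at h1
  exact (mul_eq_zero.1 h1).resolve_left (by exact_mod_cast hp.out.ne_zero)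

/-- The monic polynomials of degree one. -/
theorem sum_one (f : (ZMod p)[X] → ℝ) : ∑ q : Mo p 1, f q.1 = ∑ a : ZMod p, f (X + C a) := by
  symm
  refine Fintype.sum_bijective (fun a => (⟨X + C a, monic_X_add_C a, natDegree_X_add_C a⟩ : Mo p 1))
    ⟨?_, ?_⟩ _ _ fun a => rfl
  · intro a b hab
    have h := congrArg (fun q : Mo p 1 => q.1.coeff 0) hab
    simpa using h
  · intro q
    refine ⟨q.1.coeff 0, ?_⟩
    apply Subtype.ext
    simp only
    have h1 := q.1.as_sum_range_C_mul_X_pow
    rw [q.2.2, Finset.sum_range_succ, Finset.sum_range_succ, Finset.sum_range_zero] at h1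
    have h3 : q.1.coeff 1 = 1 := by
      have := q.2.1.coeff_natDegree
      rwa [q.2.2] at this
    rw [h3] at h1
    rw [h1]
    simp
    ring

theorem WW_one (h2 : p ≠ 2) (x y : ZMod p) (hxy : x ≠ y) : WW 1 (some x) (some y) = -1 := by
  unfold WW
  rw [sum_one (fun q => hv (some x) q * hv (some y) q)]
  rw [← jac h2 (y - x) (sub_ne_zero.2 hxy.symm)]
  refine Fintype.sum_equiv (Equiv.addLeft x) _ _ fun a => ?_
  unfold hv
  simp only [eval_add, eval_X, eval_C, Equiv.coe_addLeft]
  congr 2
  ring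

/-- The off-diagonal terms are at most one. -/
theorem WW_off (h2 : p ≠ 2) (n : ℕ) (hn : 0 < n) (P Q : Option (ZMod p)) (h : P ≠ Q) :
    |WW n P Q| ≤ 1 := by
  rcases P with _ | x <;> rcases Q with _ | y
  · exact absurd rfl h
  · rw [WW_comm, WW_inf h2 n hn, abs_zero]
    exact zero_le_one
  · rw [WW_inf h2 n hn, abs_zero]
    exact zero_le_one
  · have hxy : x ≠ y := fun h' => h (by rw [h'])
    rcases Nat.lt_or_ge 1 n with h1 | h1
    · rw [WW_two h2 n h1 x y hxy, abs_zero]
      exact zero_le_one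
    · have : n = 1 := by omega
      subst this
      rw [WW_one h2 x y hxy]
      simp

open Classical in
/-- The number of the monic polynomials with a given zero. -/
theorem card_zero (n : ℕ) (hn : 0 < n) (x : ZMod p) :
    ∑ q : Mo p n, (if q.1.eval x = 0 then (0 : ℝ) else 1) = (p : ℝ) ^ n * (1 - 1 / p) := by
  have hp0 : (p : ℝ) ≠ 0 := by exact_mod_cast hp.out.ne_zero
  have h1 := sum_shift_fam (p := p) n (fun v : ZMod p => C v) (fun v => by
    rw [natDegree_C]
    exact hn) (fun q => if q.eval x = 0 then (1 : ℝ) else 0) 1 fun q => by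
      have e : ∀ v : ZMod p, (if (q + C v).eval x = 0 then (1 : ℝ) else 0) =
          if v = -q.eval x then 1 else 0 := by
        intro v
        rw [eval_add, eval_C]
        congr 1
        rw [add_comm, eq_iff_iff, add_eq_zero_iff_eq_neg]
      rw [Finset.sum_congr rfl fun v _ => e v]
      simp
  rw [ZMod.card, mul_one] at h1
  have h3 : ∑ q : Mo p n, (if q.1.eval x = 0 then (0 : ℝ) else 1) =
      ∑ q : Mo p n, (1 - if q.1.eval x = 0 then (1 : ℝ) else 0) :=
    Finset.sum_congr rfl fun q _ => by split_ifs <;> norm_num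
  rw [h3, Finset.sum_sub_distrib, Finset.sum_const, nsmul_eq_mul, mul_one, Finset.card_univ,
    card_Mo]
  push_cast
  field_simp
  linarith

theorem WW_diag (n : ℕ) (hn : 0 < n) (x : ZMod p) :
    WW n (some x) (some x) = (p : ℝ) ^ n * (1 - 1 / p) := by
  classical
  rw [← card_zero n hn x]
  unfold WW hv
  refine Finset.sum_congr rfl fun q _ => ?_
  simp only
  split_ifs with h
  · rw [h, qr_zero, mul_zero]
  · exact qr_sq _ _ h

end

end Pool.Agent.H36.KM
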