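import Pool.Agent.H36.KM.Joint

/-!
# Sums over monic polynomials of the quadratic character over the quadratic extension
-/

set_option autoImplicit false
set_option linter.unusedSectionVars false

namespace Pool.Agent.H36.KM

open Finset Polynomial
open Pool.Agent.Y722.HS (EM red)

section
variable {d p : ℕ} [hp : Fact p.Prime] {L : Type} [Field L] [Algebra (ZMod p) L] [Fintype L]
  [DecidableEq L]

open Classical in
theorem qr_map (hc : Fintype.card L = p ^ 2) (h2 : p ≠ 2) (v : ZMod p) :
    qr L (algebraMap (ZMod p) L v) = if v = 0 then 0 else 1 := by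
  by_cases h : v = 0
  · rw [if_pos h, h, map_zero, qr_zero]
  · rw [if_neg h]
    unfold qr
    have h3 : algebraMap (ZMod p) L v ≠ 0 := by
      rwa [Ne, map_eq_zero]
    have h4 : IsSquare (algebraMap (ZMod p) L v) := by
      rw [FiniteField.isSquare_iff (ringChar_L (p := p) h2) h3, hc, ← map_pow]
      have hodd : Odd p := hp.out.odd_of_ne_two h2
      obtain ⟨k, hk⟩ := hodd
      have e : p ^ 2 / 2 = (p - 1) * (k + 1) := by
        have : p - 1 = 2 * k := by omega
        rw [this]
        have e3 : p ^ 2 = 2 * (2 * k * (k + 1)) + 1 := by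
          rw [hk]; ring
        rw [e3]
        omega
      rw [e, pow_mul, ZMod.pow_card_sub_one_eq_one h, one_pow, map_one]
    rw [(quadraticChar_one_iff_isSquare h3).2 h4]
    simp

theorem lin_surj (hc : Fintype.card L = p ^ 2) (x : L) (hx : x ^ p ≠ x) (u : L) :
    ∃ a b : ZMod p, algebraMap (ZMod p) L a + algebraMap (ZMod p) L b * x = u := by
  have hinj : Function.Injective (fun q : ZMod p × ZMod p =>
      algebraMap (ZMod p) L q.1 + algebraMap (ZMod p) L q.2 * x) := by
    rintro ⟨a, b⟩ ⟨a', b'⟩ h
    simp only at h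
    by_cases hb : b = b'
    · subst hb
      have := (algebraMap (ZMod p) L).injective (add_right_cancel h)
      rw [this]
    · exfalso
      apply hx
      have hb' : algebraMap (ZMod p) L (b - b') ≠ 0 := by
        rw [Ne, map_eq_zero, sub_eq_zero]
        exact hb
      have hx' : x = algebraMap (ZMod p) L ((a' - a) / (b - b')) := by
        rw [map_div₀, eq_div_iff hb']
        rw [map_sub, map_sub]
        linear_combination h
      rw [hx', pow_of_map]
  have hbij := (Fintype.bijective_iff_injective_and_card _).2 ⟨hinj, by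
    rw [Fintype.card_prod, ZMod.card, hc, sq]⟩
  obtain ⟨⟨a, b⟩, hab⟩ := hbij.2 u
  exact ⟨a, b, hab⟩

/-- The sum of the character over a line. -/
noncomputable def JL (L : Type) [Field L] [Algebra (ZMod p) L] [Fintype L] [DecidableEq L] (x : L) : ℝ :=
  ∑ a : ZMod p, qr L (x + algebraMap (ZMod p) L a)

theorem JL_rat (hc : Fintype.card L = p ^ 2) (h2 : p ≠ 2) (x : ZMod p) :
    JL (p := p) L (algebraMap (ZMod p) L x) = p - 1 := by
  classical
  unfold JL
  have h1 : ∀ a : ZMod p, qr L (algebraMap (ZMod p) L x + algebraMap (ZMod p) L a) =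
      1 - if a = -x then 1 else 0 := by
    intro a
    rw [← map_add, qr_map hc h2]
    by_cases h : a = -x
    · rw [if_pos h, if_pos (by rw [h, add_neg_cancel]), sub_self]
    · rw [if_neg h, if_neg (fun h' => h (by rw [add_comm] at h'; exact add_eq_zero_iff_eq_neg.1 h')),
        sub_zero]
  rw [Finset.sum_congr rfl fun a _ => h1 a, Finset.sum_sub_distrib, Finset.sum_const,
    Finset.card_univ, ZMod.card, nsmul_eq_mul, mul_one]
  simp

theorem JL_irr (hc : Fintype.card L = p ^ 2) (h2 : p ≠ 2) (x : L) (hx : x ^ p ≠ x) :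
    JL (p := p) L x = -1 := by
  classical
  have hp1 : (1 : ℝ) < p := by exact_mod_cast hp.out.one_lt
  set S : Finset L := Finset.univ.filter fun x : L => x ^ p ≠ x with hS
  have hcst : ∀ x ∈ S, ∀ y ∈ S, JL (p := p) L x = JL (p := p) L y := by
    intro x hxS y hyS
    have hx : x ^ p ≠ x := (Finset.mem_filter.1 hxS).2
    have hy : y ^ p ≠ y := (Finset.mem_filter.1 hyS).2
    obtain ⟨a, b, hab⟩ := lin_surj hc y hy x
    have hb : b ≠ 0 := by
      rintro rfl
      apply hx
      rw [← hab, map_zero, zero_mul, add_zero, pow_of_map]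
    unfold JL
    have h1 : ∀ c : ZMod p, qr L (x + algebraMap (ZMod p) L c) =
        qr L (y + algebraMap (ZMod p) L ((a + c) / b)) := by
      intro c
      have hb' : algebraMap (ZMod p) L b ≠ 0 := by rwa [Ne, map_eq_zero]
      have e : x + algebraMap (ZMod p) L c =
          algebraMap (ZMod p) L b * (y + algebraMap (ZMod p) L ((a + c) / b)) := by
        rw [← hab, map_div₀, map_add]
        field_simp
        ring
      rw [e, qr_mul, qr_map hc h2, if_neg hb, one_mul]
    rw [Finset.sum_congr rfl fun c _ => h1 c]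
    refine Fintype.sum_equiv ((Equiv.addLeft a).trans (Equiv.divRight₀ b hb)) _ _ fun c => ?_
    simp [Equiv.divRight₀]
  have h1 := const_sum S (JL (p := p) L) hcst x (Finset.mem_filter.2 ⟨Finset.mem_univ _, hx⟩)
  have h3 : ∑ y : L, JL (p := p) L y = 0 := by
    unfold JL
    rw [Finset.sum_comm]
    refine Finset.sum_eq_zero fun a _ => ?_
    rw [← qr_sum L (ringChar_L (p := p) h2)]
    exact Fintype.sum_equiv (Equiv.addRight (algebraMap (ZMod p) L a)) _ _ fun v => rfl
  have hR : Finset.univ.filter (fun x : L => ¬ x ^ p ≠ x) =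
      Finset.univ.image (algebraMap (ZMod p) L) := by
    ext y
    rw [Finset.mem_filter, Finset.mem_image]
    constructor
    · rintro ⟨-, h⟩
      obtain ⟨w, hw⟩ := mem_range_of_pow (p := p) y (not_not.1 h)
      exact ⟨w, Finset.mem_univ _, hw⟩
    · rintro ⟨w, -, rfl⟩
      exact ⟨Finset.mem_univ _, not_not.2 (pow_of_map w)⟩
  have h4 := Finset.sum_filter_add_sum_filter_not Finset.univ (fun x : L => x ^ p ≠ x)
    (JL (p := p) L)
  rw [h3, hR, Finset.sum_image fun a _ b _ h => (algebraMap (ZMod p) L).injective h,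
    Finset.sum_congr rfl fun a _ => JL_rat hc h2 a, Finset.sum_const, Finset.card_univ,
    ZMod.card, nsmul_eq_mul] at h4
  have h5 : (S.card : ℝ) = p ^ 2 - p := by
    have h6 := Finset.card_filter_add_card_filter_not (s := Finset.univ)
      (fun x : L => x ^ p ≠ x)
    rw [hR, Finset.card_image_of_injective _ (algebraMap (ZMod p) L).injective,
      Finset.card_univ, Finset.card_univ, ZMod.card, hc] at h6
    have h7 : ((S.card + p : ℕ) : ℝ) = ((p ^ 2 : ℕ) : ℝ) := by
      rw [← h6]
    push_cast at h7
    linarith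
  rw [h5] at h1
  have h8 : ∑ y ∈ S, JL (p := p) L y = -((p : ℝ) * (p - 1)) := by linarith
  rw [h8] at h1
  have h9 : ((p : ℝ) * (p - 1)) * (JL (p := p) L x + 1) = 0 := by
    have e : (p : ℝ) ^ 2 - p = p * (p - 1) := by ring
    rw [e] at h1
    linarith
  have h10 : (p : ℝ) * (p - 1) ≠ 0 := by
    have : 0 < (p : ℝ) * (p - 1) := mul_pos (by linarith) (by linarith)
    exact this.ne'
  have h11 := (mul_eq_zero.1 h9).resolve_left h10
  linarith

/-- The factor of a polynomial at a point over the extension. -/
noncomputable def hvL (P : Option L) (q : (ZMod p)[X]) : ℝ :=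
  match P with
  | none => 1
  | some x => qr L (aeval x q)

/-- The sum over the monic polynomials. -/
noncomputable def VV (n : ℕ) (P : Option L) : ℝ := ∑ q : Mo p n, hvL P q.1

theorem VV_none (n : ℕ) : VV (p := p) n (none : Option L) = (p : ℝ) ^ n := by
  unfold VV hvL
  simp only [Finset.sum_const, nsmul_eq_mul, Finset.card_univ, card_Mo, mul_one]
  push_cast
  rfl

theorem VV_rat (hc : Fintype.card L = p ^ 2) (h2 : p ≠ 2) (n : ℕ) (hn : 0 < n) (x : ZMod p) :
    VV (p := p) n (some (algebraMap (ZMod p) L x)) = (p : ℝ) ^ n * (1 - 1 / p) := by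
  classical
  rw [← card_zero n hn x]
  unfold VV hvL
  refine Finset.sum_congr rfl fun q _ => ?_
  simp only
  rw [aeval_algebraMap_apply, qr_map hc h2]
  simp only [coe_aeval_eq_eval]
  congr

theorem VV_irr (hc : Fintype.card L = p ^ 2) (h2 : p ≠ 2) (n : ℕ) (hn : 0 < n) (x : L)
    (hx : x ^ p ≠ x) : |VV (p := p) n (some x)| ≤ 1 := by
  rcases Nat.lt_or_ge 1 n with h1 | h1
  · choose a b hab using lin_surj hc x hx
    have h3 := sum_shift_fam (p := p) n (fun v : L => C (a v) + C (b v) * X) (fun v => by
      refine lt_of_le_of_lt ((natDegree_add_le _ _).trans (max_le (by simp) ?_)) h1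
      exact (natDegree_C_mul_le _ _).trans (by simp)) (fun q => hvL (some x) q) 0 fun q => by
        unfold hvL
        have e : ∀ v : L, aeval x (q + (C (a v) + C (b v) * X)) = aeval x q + v := by
          intro v
          rw [map_add]
          simp only [map_add, map_mul, aeval_C, aeval_X]
          rw [hab]
        simp only [e]
        exact qr_sum_shift L (ringChar_L (p := p) h2) _
    rw [mul_zero] at h3
    have h4 := (mul_eq_zero.1 h3).resolve_left (by exact_mod_cast Fintype.card_ne_zero)
    unfold VV
    rw [h4, abs_zero]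
    exact zero_le_one
  · have : n = 1 := by omega
    subst this
    have h3 : VV (p := p) 1 (some x) = JL (p := p) L x := by
      unfold VV JL
      rw [sum_one (fun q => hvL (some x) q)]
      refine Finset.sum_congr rfl fun a _ => ?_
      unfold hvL
      simp only [map_add, aeval_X, aeval_C]
    rw [h3, JL_irr hc h2 x hx]
    simp

end

end Pool.Agent.H36.KM
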