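import Pool.Agent.H36.KM.Joint2

/-!
# The joint moments
-/

set_option autoImplicit false
set_option linter.unusedSectionVars false

namespace Pool.Agent.H36.KM

open Finset Polynomial
open Pool.Agent.Y722.HS (EM red)
open Pool.Agent.Y722.HS (EM_mono EM_const)
open Pool.Agent.Y722.LS (EM_add EM_mul)
open Pool.Agent.Y722.PC (EM_sum)

section
variable {d p : ℕ} [hp : Fact p.Prime]

open Classical in
theorem main_one (μ : Composition d) (q : Tup p μ) (g : (Fin (d + 1) → ZMod p) → ℝ) :
    ∑ a : Fin (d + 1) → ZMod p, (if a (Fin.last d) ≠ 0 then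
      (if C (a (Fin.last d)) * ∏ j, (q j).1 = pl a then g a else 0) else 0) =
      ∑ u ∈ Finset.univ.erase (0 : ZMod p), g (cf d (C u * ∏ j, (q j).1)) := by
  obtain ⟨hm, hdg⟩ := prod_deg μ q
  have h1 : ∀ a : Fin (d + 1) → ZMod p, (if a (Fin.last d) ≠ 0 then
      (if C (a (Fin.last d)) * ∏ j, (q j).1 = pl a then g a else 0) else 0) =
      if (a (Fin.last d) ≠ 0 ∧ C (a (Fin.last d)) * ∏ j, (q j).1 = pl a) then g a else 0 := by
    intro a
    rw [ite_and]
  rw [Finset.sum_congr rfl fun a _ => h1 a, ← Finset.sum_filter]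
  have h2 : (Finset.univ.filter fun a : Fin (d + 1) → ZMod p =>
      a (Fin.last d) ≠ 0 ∧ C (a (Fin.last d)) * ∏ j, (q j).1 = pl a) =
      (Finset.univ.erase (0 : ZMod p)).image fun u => cf d (C u * ∏ j, (q j).1) := by
    ext a
    rw [Finset.mem_filter, Finset.mem_image]
    constructor
    · rintro ⟨-, h3, h4⟩
      refine ⟨a (Fin.last d), Finset.mem_erase.2 ⟨h3, Finset.mem_univ _⟩, ?_⟩
      rw [h4, cf_pl]
    · rintro ⟨u, hu, rfl⟩
      have hu0 : u ≠ 0 := (Finset.mem_erase.1 hu).1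
      have h5 : cf d (C u * ∏ j, (q j).1) (Fin.last d) = u := by
        unfold cf
        rw [Fin.val_last, coeff_C_mul]
        have h6 := hm.coeff_natDegree
        rw [hdg] at h6
        rw [h6, mul_one]
      refine ⟨Finset.mem_univ _, by rwa [h5], ?_⟩
      rw [h5, pl_cf]
      exact (natDegree_C_mul_le _ _).trans hdg.le
  rw [h2, Finset.sum_image]
  intro u _ v _ huv
  have h7 := congrFun huv (Fin.last d)
  unfold cf at h7
  simp only [Fin.val_last, coeff_C_mul] at h7
  have h6 := hm.coeff_natDegree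
  rw [hdg] at h6
  rwa [h6, mul_one, mul_one] at h7

open Classical in
theorem main_sum (μ : Composition d) (g : (Fin (d + 1) → ZMod p) → ℝ) :
    ∑ a : Fin (d + 1) → ZMod p, (if a (Fin.last d) ≠ 0 then nf μ a * g a else 0) =
      ∑ q : Tup p μ, ∑ u ∈ Finset.univ.erase (0 : ZMod p), g (cf d (C u * ∏ j, (q j).1)) := by
  have h1 : ∀ a : Fin (d + 1) → ZMod p, (if a (Fin.last d) ≠ 0 then nf μ a * g a else 0) =
      ∑ q : Tup p μ, (if a (Fin.last d) ≠ 0 then
      (if C (a (Fin.last d)) * ∏ j, (q j).1 = pl a then g a else 0) else 0) := by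
    intro a
    by_cases ha : a (Fin.last d) ≠ 0
    · simp only [if_pos ha]
      rw [nf_last μ a ha, Finset.sum_mul]
      refine Finset.sum_congr rfl fun q _ => ?_
      split_ifs <;> simp
    · simp only [if_neg ha, Finset.sum_const_zero]
  rw [Finset.sum_congr rfl fun a _ => h1 a, Finset.sum_comm]
  exact Finset.sum_congr rfl fun q _ => main_one μ q g

theorem chi_fac (μ : Composition d) (q : Tup p μ) (u : ZMod p) (P : Option (ZMod p)) :
    chi (ZMod p) (cf d (C u * ∏ j, (q j).1)) P = qr (ZMod p) u * ∏ j, hv P (q j).1 := by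
  obtain ⟨hm, hdg⟩ := prod_deg μ q
  have e0 : chi (ZMod p) (cf d (C u * ∏ j, (q j).1)) P =
    qr (ZMod p) (ev (ZMod p) (cf d (C u * ∏ j, (q j).1)) P) := rfl
  rw [e0]
  cases P with
  | none =>
    rw [ev_cf_none, coeff_C_mul]
    have h6 := hm.coeff_natDegree
    rw [hdg] at h6
    rw [h6, mul_one]
    simp [hv]
  | some x =>
    rw [ev_cf_some _ _ ((natDegree_C_mul_le _ _).trans hdg.le)]
    simp only [coe_aeval_eq_eval, eval_mul, eval_C, eval_prod]
    rw [qr_mul, qr_prod]
    rfl

theorem chiL_fac {L : Type} [Field L] [Algebra (ZMod p) L] [Fintype L] [DecidableEq L]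
    (μ : Composition d) (q : Tup p μ) (u : ZMod p) (P : Option L) :
    chi L (cf d (C u * ∏ j, (q j).1)) P =
      qr L (algebraMap (ZMod p) L u) * ∏ j, hvL P (q j).1 := by
  obtain ⟨hm, hdg⟩ := prod_deg μ q
  have e0 : chi L (cf d (C u * ∏ j, (q j).1)) P =
    qr L (ev L (cf d (C u * ∏ j, (q j).1)) P) := rfl
  rw [e0]
  cases P with
  | none =>
    rw [ev_cf_none, coeff_C_mul]
    have h6 := hm.coeff_natDegree
    rw [hdg] at h6
    rw [h6, mul_one]
    simp [hvL]
  | some x =>
    rw [ev_cf_some _ _ ((natDegree_C_mul_le _ _).trans hdg.le), map_mul, map_prod, aeval_C,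
      qr_mul, qr_prod]
    rfl

/-- The sum of a product over the tuples. -/
theorem tup_prod (μ : Composition d) (f : Fin μ.length → (ZMod p)[X] → ℝ) :
    ∑ q : Tup p μ, ∏ j, f j (q j).1 = ∏ j, ∑ q : Mo p (μ.blocksFun j), f j q.1 := by
  rw [Finset.prod_univ_sum, Fintype.piFinset_univ]

theorem card_units : ((Finset.univ.erase (0 : ZMod p)).card : ℝ) = p - 1 := by
  rw [Finset.card_erase_of_mem (Finset.mem_univ _), Finset.card_univ, ZMod.card,
    Nat.cast_sub hp.out.one_lt.le, Nat.cast_one]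

open Classical in
theorem main_pair (μ : Composition d) (P Q : Option (ZMod p)) :
    ∑ a : Fin (d + 1) → ZMod p, (if a (Fin.last d) ≠ 0 then
      nf μ a * (chi (ZMod p) a P * chi (ZMod p) a Q) else 0) =
      (p - 1) * ∏ j, WW (μ.blocksFun j) P Q := by
  rw [main_sum μ (fun a => chi (ZMod p) a P * chi (ZMod p) a Q)]
  have h1 : ∀ q : Tup p μ, ∑ u ∈ Finset.univ.erase (0 : ZMod p),
      chi (ZMod p) (cf d (C u * ∏ j, (q j).1)) P * chi (ZMod p) (cf d (C u * ∏ j, (q j).1)) Q =
      (p - 1) * ∏ j, (hv P (q j).1 * hv Q (q j).1) := by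
    intro q
    rw [← card_units, ← nsmul_eq_mul, ← Finset.sum_const]
    refine Finset.sum_congr rfl fun u hu => ?_
    rw [chi_fac, chi_fac, Finset.prod_mul_distrib]
    have := qr_sq (ZMod p) u (Finset.mem_erase.1 hu).1
    linear_combination ((∏ j, hv P (q j).1) * ∏ j, hv Q (q j).1) * this
  rw [Finset.sum_congr rfl fun q _ => h1 q, ← Finset.mul_sum,
    tup_prod μ (fun _ q => hv P q * hv Q q)]
  rfl

open Classical in
theorem main_lin (h2 : p ≠ 2) (μ : Composition d) (P : Option (ZMod p)) :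
    ∑ a : Fin (d + 1) → ZMod p, (if a (Fin.last d) ≠ 0 then
      nf μ a * chi (ZMod p) a P else 0) = 0 := by
  rw [main_sum μ (fun a => chi (ZMod p) a P)]
  refine Finset.sum_eq_zero fun q _ => ?_
  simp only [chi_fac]
  rw [← Finset.sum_mul]
  have h1 := qr_sum (ZMod p) (prime_ringChar (p := p) h2)
  rw [← Finset.add_sum_erase _ _ (Finset.mem_univ (0 : ZMod p)), qr_zero, zero_add] at h1
  rw [h1, zero_mul]

open Classical in
theorem main_L {L : Type} [Field L] [Algebra (ZMod p) L] [Fintype L]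
    (hc : Fintype.card L = p ^ 2) (h2 : p ≠ 2) (μ : Composition d) (P : Option L) :
    ∑ a : Fin (d + 1) → ZMod p, (if a (Fin.last d) ≠ 0 then nf μ a * chi L a P else 0) =
      (p - 1) * ∏ j, VV (p := p) (μ.blocksFun j) P := by
  rw [main_sum μ (fun a => chi L a P)]
  have h1 : ∀ q : Tup p μ, ∑ u ∈ Finset.univ.erase (0 : ZMod p),
      chi L (cf d (C u * ∏ j, (q j).1)) P = (p - 1) * ∏ j, hvL P (q j).1 := by
    intro q
    rw [← card_units, ← nsmul_eq_mul, ← Finset.sum_const]
    refine Finset.sum_congr rfl fun u hu => ?_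
    rw [chiL_fac, qr_map hc h2, if_neg (Finset.mem_erase.1 hu).1, one_mul]
  rw [Finset.sum_congr rfl fun q _ => h1 q, ← Finset.mul_sum, tup_prod μ (fun _ q => hvL P q)]
  rfl

theorem num (hd : 2 ≤ d) (m : ℕ) (hm : m ≤ d) (S : ℝ)
    (hS : |S - ((p : ℝ) ^ d + p * ((p : ℝ) ^ d * (1 - 1 / p) ^ m))| ≤ ((p : ℝ) + 1) ^ 2) :
    |((p : ℝ) - 1) / (p : ℝ) ^ (d + 2) * S - 1| ≤ (d + 5) / p := by
  have hp1 : (1 : ℝ) < p := by exact_mod_cast hp.out.one_lt
  have hp0 : (0 : ℝ) < p := by linarith
  set z : ℝ := (1 - 1 / (p : ℝ)) ^ m with hz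
  have hi0 : 0 < 1 / (p : ℝ) := by positivity
  have hi1 : 1 / (p : ℝ) < 1 := by
    rw [div_lt_one hp0]
    exact hp1
  have hz1 : z ≤ 1 := pow_le_one₀ (by linarith) (by linarith)
  have hz0 : 1 - m * (1 / (p : ℝ)) ≤ z := by
    have h := one_add_mul_le_pow (a := -(1 / (p : ℝ))) (by linarith) m
    have e : (1 : ℝ) + -(1 / (p : ℝ)) = 1 - 1 / p := by ring
    rw [e] at h
    linarith
  have hzn : 0 ≤ z := pow_nonneg (by linarith) _
  have hm' : (m : ℝ) ≤ d := by exact_mod_cast hm
  set c : ℝ := ((p : ℝ) - 1) / (p : ℝ) ^ (d + 2) with hc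
  have hc0 : 0 ≤ c := div_nonneg (by linarith) (by positivity)
  have e1 : c * ((p : ℝ) ^ d + p * ((p : ℝ) ^ d * z)) = (1 - 1 / p) * (1 / p + z) := by
    rw [hc, pow_add]
    field_simp
  have e2 : c * ((p : ℝ) + 1) ^ 2 ≤ 4 * (1 / p) := by
    have h3 : ((p : ℝ) + 1) ^ 2 ≤ 4 * (p : ℝ) ^ 2 := by nlinarith
    have h4 : c ≤ p / (p : ℝ) ^ (d + 2) := by
      rw [hc]
      gcongr
      linarith
    calc c * ((p : ℝ) + 1) ^ 2 ≤ p / (p : ℝ) ^ (d + 2) * (4 * (p : ℝ) ^ 2) :=
          mul_le_mul h4 h3 (by positivity) (by positivity)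
      _ = 4 * (p / (p : ℝ) ^ d) := by
          rw [pow_add]
          field_simp
      _ ≤ 4 * (p / (p : ℝ) ^ 2) := by
          gcongr
          · exact hp1.le
      _ = 4 * (1 / p) := by
          field_simp
  have e3 : c * S - 1 = c * (S - ((p : ℝ) ^ d + p * ((p : ℝ) ^ d * z))) +
      ((1 - 1 / p) * (1 / p + z) - 1) := by
    rw [← e1]
    ring
  rw [e3]
  have h5 : |c * (S - ((p : ℝ) ^ d + p * ((p : ℝ) ^ d * z)))| ≤ 4 * (1 / p) := by
    rw [abs_mul, abs_of_nonneg hc0]
    exact (mul_le_mul_of_nonneg_left hS hc0).trans e2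
  have h6 : |(1 - 1 / (p : ℝ)) * (1 / p + z) - 1| ≤ (d + 1) * (1 / p) := by
    set i : ℝ := 1 / (p : ℝ) with hi
    rw [abs_le]
    have hmi : (m : ℝ) * i ≤ d * i := by gcongr
    constructor
    · nlinarith
    · nlinarith
  have h7 : ((d : ℝ) + 5) / p = 4 * (1 / p) + (d + 1) * (1 / p) := by ring
  rw [h7]
  exact (abs_add_le _ _).trans (add_le_add h5 h6)

theorem prod_le_one (μ : Composition d) (f : Fin μ.length → ℝ) (h : ∀ j, |f j| ≤ 1) :
    |∏ j, f j| ≤ 1 := by
  rw [Finset.abs_prod]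
  exact Finset.prod_le_one (fun j _ => abs_nonneg _) fun j _ => h j

open Classical in
/-- The joint moment of the square of the trace and of the number of factorizations. -/
theorem mn_sq (hd : 2 ≤ d) (h2 : p ≠ 2) (μ : Composition d) :
    |EM p (fun a : Fin (d + 1) → ZMod p => if a (Fin.last d) ≠ 0 then
      nf μ a * (SS (ZMod p) a ^ 2 / p) else 0) - 1| ≤ (d + 5) / p := by
  have hp1 : (1 : ℝ) < p := by exact_mod_cast hp.out.one_lt
  have hp0 : (0 : ℝ) < p := by linarith
  have hb : ∀ j, 0 < μ.blocksFun j := fun j => μ.one_le_blocksFun j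
  have e1 : EM p (fun a : Fin (d + 1) → ZMod p => if a (Fin.last d) ≠ 0 then
      nf μ a * (SS (ZMod p) a ^ 2 / p) else 0) =
      ((p : ℝ) - 1) / (p : ℝ) ^ (d + 2) * ∑ P : Option (ZMod p), ∑ Q : Option (ZMod p),
        ∏ j, WW (μ.blocksFun j) P Q := by
    have h1 : ∀ a : Fin (d + 1) → ZMod p, (if a (Fin.last d) ≠ 0 then
        nf μ a * (SS (ZMod p) a ^ 2 / p) else 0) = (1 / p : ℝ) * ∑ P : Option (ZMod p),
        ∑ Q : Option (ZMod p), (if a (Fin.last d) ≠ 0 then
          nf μ a * (chi (ZMod p) a P * chi (ZMod p) a Q) else 0) := by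
      intro a
      by_cases ha : a (Fin.last d) ≠ 0
      · simp only [if_pos ha]
        have h3 : SS (ZMod p) a ^ 2 = ∑ P : Option (ZMod p), ∑ Q : Option (ZMod p),
            chi (ZMod p) a P * chi (ZMod p) a Q := by
          rw [sq]
          unfold SS
          rw [Finset.sum_mul_sum]
        rw [h3]
        simp only [← Finset.mul_sum]
        ring
      · simp only [if_neg ha, Finset.sum_const_zero, mul_zero]
    unfold EM
    rw [Finset.sum_congr rfl fun a _ => h1 a, ← Finset.mul_sum, Finset.sum_comm]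
    have h4 : ∀ P : Option (ZMod p), ∑ a : Fin (d + 1) → ZMod p, ∑ Q : Option (ZMod p),
        (if a (Fin.last d) ≠ 0 then nf μ a * (chi (ZMod p) a P * chi (ZMod p) a Q) else 0) =
        ∑ Q : Option (ZMod p), (p - 1) * ∏ j, WW (μ.blocksFun j) P Q := by
      intro P
      rw [Finset.sum_comm]
      exact Finset.sum_congr rfl fun Q _ => main_pair μ P Q
    rw [Finset.sum_congr rfl fun P _ => h4 P]
    simp only [← Finset.mul_sum]
    rw [Fintype.card_fin, pow_succ (p : ℝ) (d + 1)]
    field_simp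
  rw [e1]
  refine num hd μ.length μ.length_le _ ?_
  have h5 : ∀ P : Option (ZMod p), ∑ Q : Option (ZMod p), ∏ j, WW (μ.blocksFun j) P Q =
      ∏ j, WW (μ.blocksFun j) P P + ∑ Q ∈ Finset.univ.erase P,
        ∏ j, WW (μ.blocksFun j) P Q := fun P =>
    (Finset.add_sum_erase _ _ (Finset.mem_univ P)).symm
  rw [Finset.sum_congr rfl fun P _ => h5 P, Finset.sum_add_distrib]
  have h6 : ∑ P : Option (ZMod p), ∏ j, WW (μ.blocksFun j) P P =
      (p : ℝ) ^ d + p * ((p : ℝ) ^ d * (1 - 1 / p) ^ μ.length) := by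
    rw [Fintype.sum_option]
    have h7 : ∏ j, WW (p := p) (μ.blocksFun j) none none = (p : ℝ) ^ d := by
      rw [Finset.prod_congr rfl fun j _ => WW_none (p := p) (μ.blocksFun j),
        Finset.prod_pow_eq_pow_sum, μ.sum_blocksFun]
    have h8 : ∀ x : ZMod p, ∏ j, WW (μ.blocksFun j) (some x) (some x) =
        (p : ℝ) ^ d * (1 - 1 / p) ^ μ.length := by
      intro x
      rw [Finset.prod_congr rfl fun j _ => WW_diag (p := p) (μ.blocksFun j) (hb j) x,
        Finset.prod_mul_distrib, Finset.prod_pow_eq_pow_sum, μ.sum_blocksFun,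
        Finset.prod_const, Finset.card_univ, Fintype.card_fin]
    rw [h7, Finset.sum_congr rfl fun x _ => h8 x, Finset.sum_const, Finset.card_univ,
      ZMod.card, nsmul_eq_mul]
  rw [h6, add_sub_cancel_left]
  refine (Finset.abs_sum_le_sum_abs _ _).trans ?_
  have h9 : ∀ P ∈ (Finset.univ : Finset (Option (ZMod p))),
      |∑ Q ∈ Finset.univ.erase P, ∏ j, WW (μ.blocksFun j) P Q| ≤ (p : ℝ) + 1 := by
    intro P _
    refine (Finset.abs_sum_le_sum_abs _ _).trans ?_
    have h10 : ∀ Q ∈ Finset.univ.erase P, |∏ j, WW (μ.blocksFun j) P Q| ≤ 1 := fun Q hQ =>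
      prod_le_one μ _ fun j => WW_off h2 _ (hb j) P Q (Finset.mem_erase.1 hQ).1.symm
    refine (Finset.sum_le_card_nsmul _ _ 1 h10).trans ?_
    rw [nsmul_eq_mul, mul_one, Finset.card_erase_of_mem (Finset.mem_univ _), Finset.card_univ,
      Fintype.card_option, ZMod.card]
    push_cast
    simp
  refine (Finset.sum_le_card_nsmul _ _ _ h9).trans ?_
  rw [nsmul_eq_mul, Finset.card_univ, Fintype.card_option, ZMod.card]
  push_cast
  apply le_of_eq
  ring

open Classical in
/-- The joint moment of the trace of the square and of the number of factorizations. -/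
theorem mn_S2 (hd : 2 ≤ d) (h2 : p ≠ 2) (μ : Composition d) :
    |EM p (fun a : Fin (d + 1) → ZMod p => if a (Fin.last d) ≠ 0 then
      nf μ a * (S2 a / p) else 0) - 1| ≤ (d + 5) / p := by
  letI := Fintype.ofFinite (GaloisField p 2)
  have hc : Fintype.card (GaloisField p 2) = p ^ 2 := card_G 2 two_ne_zero
  have hp1 : (1 : ℝ) < p := by exact_mod_cast hp.out.one_lt
  have hp0 : (0 : ℝ) < p := by linarith
  have hb : ∀ j, 0 < μ.blocksFun j := fun j => μ.one_le_blocksFun j
  have e1 : EM p (fun a : Fin (d + 1) → ZMod p => if a (Fin.last d) ≠ 0 then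
      nf μ a * (S2 a / p) else 0) =
      ((p : ℝ) - 1) / (p : ℝ) ^ (d + 2) * ∑ P : Option (GaloisField p 2),
        ∏ j, VV (p := p) (μ.blocksFun j) P := by
    have h1 : ∀ a : Fin (d + 1) → ZMod p, (if a (Fin.last d) ≠ 0 then
        nf μ a * (S2 a / p) else 0) = (1 / p : ℝ) * ∑ P : Option (GaloisField p 2),
        (if a (Fin.last d) ≠ 0 then nf μ a * chi (GaloisField p 2) a P else 0) := by
      intro a
      by_cases ha : a (Fin.last d) ≠ 0
      · simp only [if_pos ha]
        unfold S2 SS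
        simp only [← Finset.mul_sum]
        ring
      · simp only [if_neg ha, Finset.sum_const_zero, mul_zero]
    unfold EM
    rw [Finset.sum_congr rfl fun a _ => h1 a, ← Finset.mul_sum, Finset.sum_comm]
    rw [Finset.sum_congr rfl fun P _ => main_L hc h2 μ P]
    simp only [← Finset.mul_sum]
    rw [Fintype.card_fin, pow_succ (p : ℝ) (d + 1)]
    field_simp
  rw [e1]
  refine num hd μ.length μ.length_le _ ?_
  have h5 := (Finset.sum_filter_add_sum_filter_not Finset.univ
    (fun P : Option (GaloisField p 2) => frob p P = P)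
    (fun P => ∏ j, VV (p := p) (μ.blocksFun j) P)).symm
  have hR : Finset.univ.filter (fun P : Option (GaloisField p 2) => frob p P = P) =
      Finset.univ.image (inc (p := p) (GaloisField p 2)) := by
    ext P
    rw [Finset.mem_filter, Finset.mem_image]
    constructor
    · rintro ⟨-, h⟩
      obtain ⟨Q, hQ⟩ := frob_inc P h
      exact ⟨Q, Finset.mem_univ _, hQ⟩
    · rintro ⟨Q, -, rfl⟩
      exact ⟨Finset.mem_univ _, inc_frob Q⟩
  have h6 : ∑ P ∈ Finset.univ.filter (fun P : Option (GaloisField p 2) => frob p P = P),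
      ∏ j, VV (p := p) (μ.blocksFun j) P =
      (p : ℝ) ^ d + p * ((p : ℝ) ^ d * (1 - 1 / p) ^ μ.length) := by
    rw [hR, Finset.sum_image fun x _ y _ h => inc_inj h, Fintype.sum_option]
    have h7 : ∏ j, VV (p := p) (μ.blocksFun j) (inc (p := p) (GaloisField p 2) none) = (p : ℝ) ^ d := by
      have h7' : ∀ j ∈ (Finset.univ : Finset (Fin μ.length)),
          VV (p := p) (μ.blocksFun j) (inc (p := p) (GaloisField p 2) none) =
            (p : ℝ) ^ μ.blocksFun j := fun j _ =>
        VV_none (p := p) (L := GaloisField p 2) (μ.blocksFun j)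
      rw [Finset.prod_congr rfl h7', Finset.prod_pow_eq_pow_sum, μ.sum_blocksFun]
    have h8 : ∀ x : ZMod p, ∏ j, VV (p := p) (μ.blocksFun j) (inc (p := p) (GaloisField p 2) (some x)) =
        (p : ℝ) ^ d * (1 - 1 / p) ^ μ.length := by
      intro x
      have h8' : ∀ j ∈ (Finset.univ : Finset (Fin μ.length)),
          VV (p := p) (μ.blocksFun j) (inc (p := p) (GaloisField p 2) (some x)) =
            (p : ℝ) ^ μ.blocksFun j * (1 - 1 / p) := fun j _ =>
        VV_rat (p := p) (L := GaloisField p 2) hc h2 (μ.blocksFun j) (hb j) x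
      rw [Finset.prod_congr rfl h8', Finset.prod_mul_distrib, Finset.prod_pow_eq_pow_sum, μ.sum_blocksFun,
        Finset.prod_const, Finset.card_univ, Fintype.card_fin]
    rw [h7, Finset.sum_congr rfl fun x _ => h8 x, Finset.sum_const, Finset.card_univ,
      ZMod.card, nsmul_eq_mul]
  rw [h5, h6, add_sub_cancel_left]
  refine (Finset.abs_sum_le_sum_abs _ _).trans ?_
  have h9 : ∀ P ∈ Finset.univ.filter (fun P : Option (GaloisField p 2) => ¬ frob p P = P),
      |∏ j, VV (p := p) (μ.blocksFun j) P| ≤ 1 := by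
    intro P hP
    have hP' := (Finset.mem_filter.1 hP).2
    cases P with
    | none => exact absurd rfl hP'
    | some x =>
      refine prod_le_one μ _ fun j => VV_irr hc h2 _ (hb j) x fun h => hP' ?_
      simp [frob, h]
  refine (Finset.sum_le_card_nsmul _ _ 1 h9).trans ?_
  rw [nsmul_eq_mul, mul_one]
  have h10 : ((Finset.univ.filter fun P : Option (GaloisField p 2) => ¬ frob p P = P).card : ℝ) ≤
      (p : ℝ) ^ 2 + 1 := by
    have h11 := Finset.card_filter_le Finset.univ
      (fun P : Option (GaloisField p 2) => ¬ frob p P = P)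
    rw [Finset.card_univ, Fintype.card_option, hc] at h11
    exact_mod_cast h11
  nlinarith

open Classical in
/-- The joint moment of the trace and of the number of factorizations. -/
theorem mn_lin (h2 : p ≠ 2) (μ : Composition d) :
    EM p (fun a : Fin (d + 1) → ZMod p => if a (Fin.last d) ≠ 0 then
      nf μ a * SS (ZMod p) a else 0) = 0 := by
  have h1 : ∀ a : Fin (d + 1) → ZMod p, (if a (Fin.last d) ≠ 0 then
      nf μ a * SS (ZMod p) a else 0) = ∑ P : Option (ZMod p),
        (if a (Fin.last d) ≠ 0 then nf μ a * chi (ZMod p) a P else 0) := by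
    intro a
    by_cases ha : a (Fin.last d) ≠ 0
    · simp only [if_pos ha]
      unfold SS
      simp only [← Finset.mul_sum]
    · simp only [if_neg ha, Finset.sum_const_zero]
  unfold EM
  rw [Finset.sum_congr rfl fun a _ => h1 a, Finset.sum_comm,
    Finset.sum_congr rfl fun P _ => main_lin h2 μ P, Finset.sum_const_zero, zero_div]

end

end Pool.Agent.H36.KM
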