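import Pool.Agent.H36.KM.Fac

/-!
# The mean number of factorizations, and the bad reduction
-/

set_option autoImplicit false
set_option linter.unusedSectionVars false

namespace Pool.Agent.H36.KM

open Finset Polynomial
open Pool.Agent.Y722.HS (EM red)
open Pool.Agent.Y722.HS (EM_mono EM_const)
open Pool.Agent.Y722.LS (EM_add EM_mul)
open Pool.Agent.Y722.PC (EM_sum)

section
variable {d p : ℕ} [hp : Fact p.Prime]

/-- The tuples of monic polynomials of given degrees. -/
abbrev Tup (p : ℕ) (μ : Composition d) : Type :=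
  ∀ j : Fin μ.length, {q : (ZMod p)[X] // q.Monic ∧ q.natDegree = μ.blocksFun j}

theorem card_tup (μ : Composition d) : Finite (Tup p μ) ∧ Nat.card (Tup p μ) = p ^ d := by
  have h1 : ∀ j : Fin μ.length,
      Finite {q : (ZMod p)[X] // q.Monic ∧ q.natDegree = μ.blocksFun j} := fun j =>
    (card_monic _).1
  refine ⟨inferInstance, ?_⟩
  rw [Nat.card_pi]
  have h2 : ∀ j ∈ (Finset.univ : Finset (Fin μ.length)),
      Nat.card {q : (ZMod p)[X] // q.Monic ∧ q.natDegree = μ.blocksFun j} = p ^ μ.blocksFun j :=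
    fun j _ => (card_monic _).2
  rw [Finset.prod_congr rfl h2, Finset.prod_pow_eq_pow_sum, μ.sum_blocksFun]

theorem prod_deg (μ : Composition d) (q : Tup p μ) :
    (∏ j, (q j).1).Monic ∧ (∏ j, (q j).1).natDegree = d := by
  have h1 : ∀ j ∈ (Finset.univ : Finset (Fin μ.length)), ((q j).1).Monic := fun j _ => (q j).2.1
  refine ⟨monic_prod_of_monic _ _ h1, ?_⟩
  rw [natDegree_prod_of_monic _ _ h1, Finset.sum_congr rfl fun j _ => (q j).2.2, μ.sum_blocksFun]

open Classical in
theorem nf_last (μ : Composition d) (a : Fin (d + 1) → ZMod p) (ha : a (Fin.last d) ≠ 0)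
    [Fintype (Tup p μ)] :
    nf μ a = ∑ q : Tup p μ, if C (a (Fin.last d)) * ∏ j, (q j).1 = pl a then (1 : ℝ) else 0 := by
  rw [Finset.sum_boole]
  unfold nf
  norm_cast
  rw [← Fintype.card_subtype, ← Nat.card_eq_fintype_card]
  refine Nat.card_congr ⟨fun q => ⟨fun j => ⟨q.1 j, (q.2.1 j).1, ?_⟩, ?_⟩,
    fun q => ⟨fun j => (q.1 j).1, fun j => ⟨(q.1 j).2.1, (q.1 j).2.2.le⟩, ?_⟩, ?_, ?_⟩
  · have h1 : ∀ j ∈ (Finset.univ : Finset (Fin μ.length)), (q.1 j).Monic := fun j _ => (q.2.1 j).1
    have h2 : (∏ j, q.1 j).natDegree = d := by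
      have h3 := congrArg natDegree q.2.2
      rwa [deg_of_last a ha, natDegree_C_mul (by rw [lead_of_last a ha]; exact ha)] at h3
    rw [natDegree_prod_of_monic _ _ h1] at h2
    have h4 : ∑ j, (q.1 j).natDegree = ∑ j, μ.blocksFun j := by rw [h2, μ.sum_blocksFun]
    exact (Finset.sum_eq_sum_iff_of_le fun j _ => (q.2.1 j).2).1 h4 j (Finset.mem_univ j)
  · have h5 : C (a (Fin.last d)) * ∏ j, q.1 j = pl a :=
      (congrArg (fun u => C u * ∏ j, q.1 j) (lead_of_last a ha)).symm.trans q.2.2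
    exact h5
  · rw [lead_of_last a ha]
    exact q.2
  · intro q
    rfl
  · intro q
    rfl

open Classical in
theorem count_unit (μ : Composition d) (q : Tup p μ) :
    ∑ a : Fin (d + 1) → ZMod p, (if a (Fin.last d) ≠ 0 then
      (if C (a (Fin.last d)) * ∏ j, (q j).1 = pl a then (1 : ℝ) else 0) else 0) = p - 1 := by
  obtain ⟨hm, hdg⟩ := prod_deg μ q
  have hp1 : 1 ≤ p := hp.out.one_lt.le
  have h1 : ∀ a : Fin (d + 1) → ZMod p, (if a (Fin.last d) ≠ 0 then
      (if C (a (Fin.last d)) * ∏ j, (q j).1 = pl a then (1 : ℝ) else 0) else 0) =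
      if (a (Fin.last d) ≠ 0 ∧ C (a (Fin.last d)) * ∏ j, (q j).1 = pl a) then 1 else 0 := by
    intro a
    rw [ite_and]
  rw [Finset.sum_congr rfl fun a _ => h1 a, Finset.sum_boole]
  have h2 : (Finset.univ.filter fun a : Fin (d + 1) → ZMod p =>
      a (Fin.last d) ≠ 0 ∧ C (a (Fin.last d)) * ∏ j, (q j).1 = pl a) =
      (Finset.univ.erase (0 : ZMod p)).image fun u => cf d (C u * ∏ j, (q j).1) := by
    ext a
    rw [Finset.mem_filter, Finset.mem_image]
    constructor
    · rintro ⟨-, h3, h4⟩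
      refine ⟨a (Fin.last d), Finset.mem_erase.2 ⟨h3, Finset.mem_univ _⟩, ?_⟩
      rw [h4, cf_pl]
    · rintro ⟨u, hu, rfl⟩
      have hu0 : u ≠ 0 := (Finset.mem_erase.1 hu).1
      have h5 : cf d (C u * ∏ j, (q j).1) (Fin.last d) = u := by
        unfold cf
        rw [Fin.val_last, coeff_C_mul]
        have h6 := hm.coeff_natDegree
        rw [hdg] at h6
        rw [h6, mul_one]
      refine ⟨Finset.mem_univ _, by rwa [h5], ?_⟩
      rw [h5, pl_cf]
      exact (natDegree_C_mul_le _ _).trans hdg.le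
  rw [h2, Finset.card_image_of_injOn, Finset.card_erase_of_mem (Finset.mem_univ _),
    Finset.card_univ, ZMod.card, Nat.cast_sub hp1, Nat.cast_one]
  intro u _ v _ huv
  have h7 := congrFun huv (Fin.last d)
  unfold cf at h7
  simp only [Fin.val_last, coeff_C_mul] at h7
  have h6 := hm.coeff_natDegree
  rw [hdg] at h6
  rwa [h6, mul_one, mul_one] at h7

open Classical in
/-- The number of factorizations of a polynomial of degree `d`. -/
theorem EM_nf_last (μ : Composition d) :
    EM p (fun a : Fin (d + 1) → ZMod p => if a (Fin.last d) ≠ 0 then nf μ a else 0) =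
      1 - 1 / p := by
  have hp0 : (p : ℝ) ≠ 0 := by exact_mod_cast hp.out.ne_zero
  obtain ⟨hfin, hcard⟩ := card_tup (p := p) μ
  have hF : Fintype (Tup p μ) := Fintype.ofFinite _
  have h1 : ∀ a : Fin (d + 1) → ZMod p, (if a (Fin.last d) ≠ 0 then nf μ a else 0) =
      ∑ q : Tup p μ, (if a (Fin.last d) ≠ 0 then
      (if C (a (Fin.last d)) * ∏ j, (q j).1 = pl a then (1 : ℝ) else 0) else 0) := by
    intro a
    by_cases ha : a (Fin.last d) ≠ 0
    · simp only [if_pos ha]
      exact nf_last μ a ha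
    · simp only [if_neg ha, Finset.sum_const_zero]
  unfold EM
  rw [Finset.sum_congr rfl fun a _ => h1 a, Finset.sum_comm,
    Finset.sum_congr rfl fun q _ => count_unit μ q, Finset.sum_const, nsmul_eq_mul,
    Finset.card_univ, ← Nat.card_eq_fintype_card, hcard, Fintype.card_fin, pow_succ]
  push_cast
  field_simp

/-- The number of factorizations of a non-zero polynomial. -/
noncomputable def NN (μ : Composition d) (p : ℕ) (a : Fin (d + 1) → ZMod p) : ℝ :=
  open Classical in
  if h : p.Prime then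
    haveI : Fact p.Prime := ⟨h⟩
    if pl a = 0 then 0 else nf μ a
  else 0

theorem NN_bd (μ : Composition d) (a : Fin (d + 1) → ZMod p) :
    0 ≤ NN μ p a ∧ NN μ p a ≤ (2 ^ d) ^ d := by
  unfold NN
  rw [dif_pos hp.out]
  split_ifs with h
  · exact ⟨le_rfl, by positivity⟩
  · exact ⟨by unfold nf; positivity, nf_le μ a h⟩

open Classical in
theorem NN_mean (hd : 4 ≤ d) (μ : Composition d) :
    |EM p (NN μ p) - 1| ≤ (1 + (2 ^ d) ^ d) / p := by
  have hp0 : (0 : ℝ) < p := by exact_mod_cast hp.out.pos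
  have h1 := EM_nf_last (p := p) μ
  have hz := EM_zero (d := d) (p := p) hd none
  have hle : EM p (NN μ p) ≤ EM p (fun a : Fin (d + 1) → ZMod p =>
      (if a (Fin.last d) ≠ 0 then nf μ a else 0) + (2 ^ d) ^ d *
        (if ev (ZMod p) a none = 0 then (1 : ℝ) else 0)) := by
    refine EM_mono p _ _ fun a => ?_
    have hb := NN_bd (p := p) μ a
    by_cases ha : a (Fin.last d) ≠ 0
    · have h2 : NN μ p a = nf μ a := by
        unfold NN
        rw [dif_pos hp.out, if_neg (ne_of_last a ha)]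
      have h3 : ¬ ev (ZMod p) a none = 0 := ha
      rw [if_pos ha, h2, if_neg h3]
      linarith
    · have h3 : ev (ZMod p) a none = 0 := not_not.1 ha
      rw [if_neg ha, if_pos h3]
      linarith
  have hge : EM p (fun a : Fin (d + 1) → ZMod p => if a (Fin.last d) ≠ 0 then nf μ a else 0) ≤
      EM p (NN μ p) := by
    refine EM_mono p _ _ fun a => ?_
    have hb := NN_bd (p := p) μ a
    by_cases ha : a (Fin.last d) ≠ 0
    · have h2 : NN μ p a = nf μ a := by
        unfold NN
        rw [dif_pos hp.out, if_neg (ne_of_last a ha)]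
      rw [if_pos ha, h2]
    · rw [if_neg ha]
      exact hb.1
  rw [EM_add, EM_mul, hz] at hle
  have h1' : EM p (fun a : Fin (d + 1) → ZMod p => if a (Fin.last d) ≠ 0 then nf μ a else 0) =
    1 - 1 / p := h1
  rw [h1'] at hle hge
  have e : (1 + (2 ^ d) ^ d : ℝ) / p = 1 / p + (2 ^ d) ^ d * (1 / p) := by ring
  rw [e, abs_le]
  have h5 : 0 ≤ (2 ^ d) ^ d * (1 / (p : ℝ)) := by positivity
  have h6 : 0 ≤ 1 / (p : ℝ) := by positivity
  constructor <;> linarith

/-- The form has no multiple factor. -/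
def Sq1 (a : Fin (d + 1) → ZMod p) : Prop :=
  Squarefree (pl a) ∧ d ≤ (pl a).natDegree + 1

open Classical in
theorem EM_sq1 (hd : 4 ≤ d) :
    EM p (fun a : Fin (d + 1) → ZMod p => if Sq1 a then (0 : ℝ) else 1) ≤ (d + 1) / p := by
  have hp0 : (0 : ℝ) < p := by exact_mod_cast hp.out.pos
  have hp1 : (1 : ℝ) ≤ p := by exact_mod_cast hp.out.one_lt.le
  have hF : ∀ n, Fintype {q : (ZMod p)[X] // q.Monic ∧ q.natDegree = n} := fun n =>
    haveI := (card_monic (p := p) n).1
    Fintype.ofFinite _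
  have h1 : EM p (fun a : Fin (d + 1) → ZMod p => if Sq1 a then (0 : ℝ) else 1) ≤
      EM p (fun a : Fin (d + 1) → ZMod p => (if ev (ZMod p) a none = 0 then (1 : ℝ) else 0) +
        ∑ n ∈ Finset.Icc 1 (d / 2), ∑ q : {q : (ZMod p)[X] // q.Monic ∧ q.natDegree = n},
          if q.1 * q.1 ∣ pl a then (1 : ℝ) else 0) := by
    refine EM_mono p _ _ fun a => ?_
    have n1 : 0 ≤ (if ev (ZMod p) a none = 0 then (1 : ℝ) else 0) := by split_ifs <;> norm_num
    have n2 : ∀ n, 0 ≤ ∑ q : {q : (ZMod p)[X] // q.Monic ∧ q.natDegree = n},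
          if q.1 * q.1 ∣ pl a then (1 : ℝ) else 0 := fun n =>
      Finset.sum_nonneg fun q _ => by split_ifs <;> norm_num
    have n3 : 0 ≤ ∑ n ∈ Finset.Icc 1 (d / 2), ∑ q : {q : (ZMod p)[X] // q.Monic ∧ q.natDegree = n},
          (if q.1 * q.1 ∣ pl a then (1 : ℝ) else 0) := Finset.sum_nonneg fun n _ => n2 n
    by_cases hS : Sq1 a
    · rw [if_pos hS]
      linarith
    rw [if_neg hS]
    by_cases ha : a (Fin.last d) = 0
    · have h3 : ev (ZMod p) a none = 0 := ha
      rw [if_pos h3]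
      linarith
    · have hne := ne_of_last a ha
      have hdeg := deg_of_last a ha
      have hsq : ¬ Squarefree (pl a) := fun h => hS ⟨h, by omega⟩
      unfold Squarefree at hsq
      push Not at hsq
      obtain ⟨x, hx1, hx2⟩ := hsq
      have hx0 : x ≠ 0 := by
        rintro rfl
        rw [mul_zero, zero_dvd_iff] at hx1
        exact hne hx1
      have hxd : 1 ≤ x.natDegree := by
        rcases Nat.eq_zero_or_pos x.natDegree with h | h
        · exfalso
          apply hx2
          rw [eq_C_of_natDegree_eq_zero h] at hx0 ⊢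
          exact isUnit_C.2 (IsUnit.mk0 _ (fun h0 => hx0 (by rw [h0, C_0])))
        · exact h
      set y := normalize x with hy
      have hym : y.Monic := monic_normalize hx0
      have hyx : Associated y x := normalize_associated x
      have hyd : y.natDegree = x.natDegree := natDegree_eq_of_degree_eq (degree_eq_degree_of_associated hyx)
      have hyy : y * y ∣ pl a := ((hyx.mul_mul hyx).dvd_iff_dvd_left).2 hx1
      have hy2 : y.natDegree ≤ d / 2 := by
        have h4 := natDegree_le_of_dvd hyy hne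
        rw [hym.natDegree_mul hym, hdeg] at h4
        omega
      have h5 : (1 : ℝ) ≤ ∑ q : {q : (ZMod p)[X] // q.Monic ∧ q.natDegree = y.natDegree},
          if q.1 * q.1 ∣ pl a then (1 : ℝ) else 0 := by
        have h6 := Finset.single_le_sum (f := fun q : {q : (ZMod p)[X] // q.Monic ∧
          q.natDegree = y.natDegree} => if q.1 * q.1 ∣ pl a then (1 : ℝ) else 0)
          (fun q _ => by split_ifs <;> norm_num) (Finset.mem_univ ⟨y, hym, rfl⟩)
        simp only [if_pos hyy] at h6
        exact h6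
      have h7 := Finset.single_le_sum (f := fun n => ∑ q : {q : (ZMod p)[X] // q.Monic ∧
          q.natDegree = n}, (if q.1 * q.1 ∣ pl a then (1 : ℝ) else 0)) (s := Finset.Icc 1 (d / 2))
          (fun n _ => n2 n) (Finset.mem_Icc.2 ⟨by omega, hy2⟩)
      linarith
  refine h1.trans ?_
  rw [EM_add, EM_zero hd, EM_sum]
  have h2 : ∀ n ∈ Finset.Icc 1 (d / 2), EM p (fun a : Fin (d + 1) → ZMod p =>
      ∑ q : {q : (ZMod p)[X] // q.Monic ∧ q.natDegree = n},
          if q.1 * q.1 ∣ pl a then (1 : ℝ) else 0) ≤ 1 / p := by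
    intro n hn
    rw [Finset.mem_Icc] at hn
    rw [EM_sum]
    have h3 : ∀ q ∈ (Finset.univ : Finset {q : (ZMod p)[X] // q.Monic ∧ q.natDegree = n}),
        EM p (fun a : Fin (d + 1) → ZMod p => if q.1 * q.1 ∣ pl a then (1 : ℝ) else 0) ≤
          1 / (p : ℝ) ^ (2 * n) := by
      intro q _
      have h4 : (q.1 * q.1).natDegree = 2 * n := by
        rw [q.2.1.natDegree_mul q.2.1, q.2.2]
        ring
      have h5 := EM_mult (d := d) (q.1 * q.1) (q.2.1.mul q.2.1) (by omega)
      rwa [h4] at h5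
    refine (Finset.sum_le_sum h3).trans ?_
    rw [Finset.sum_const, nsmul_eq_mul, Finset.card_univ, ← Nat.card_eq_fintype_card,
      (card_monic n).2, two_mul, pow_add]
    push_cast
    have e : (p : ℝ) ^ n * (1 / ((p : ℝ) ^ n * (p : ℝ) ^ n)) = 1 / (p : ℝ) ^ n := by
      field_simp
    rw [e]
    apply one_div_le_one_div_of_le hp0
    calc (p : ℝ) = (p : ℝ) ^ 1 := (pow_one _).symm
      _ ≤ (p : ℝ) ^ n := pow_le_pow_right₀ hp1 hn.1
  have h8 := Finset.sum_le_sum h2
  rw [Finset.sum_const, Nat.card_Icc, nsmul_eq_mul] at h8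
  have h9 : ((d / 2 + 1 - 1 : ℕ) : ℝ) * (1 / p) ≤ d * (1 / p) := by
    gcongr
    omega
  have h10 : ((d : ℝ) + 1) / p = 1 / p + d * (1 / p) := by ring
  rw [h10]
  have h11 : ∑ n ∈ Finset.Icc 1 (d / 2), EM p ((fun n (a : Fin (d + 1) → ZMod p) =>
      ∑ q : {q : (ZMod p)[X] // q.Monic ∧ q.natDegree = n},
          if q.1 * q.1 ∣ pl a then (1 : ℝ) else 0) n) ≤ d * (1 / p) := h8.trans h9
  linarith

end

end Pool.Agent.H36.KM
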