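import Pool.Agent.H36.KM.Ev

/-!
# The moments of the character sums
-/

set_option autoImplicit false
set_option linter.unusedSectionVars false

namespace Pool.Agent.H36.KM

open Finset Polynomial
open Pool.Agent.Y722.HS (EM red)
open Pool.Agent.Y722.HS (EM_mono EM_const)
open Pool.Agent.Y722.LS (EM_add EM_mul)
open Pool.Agent.Y722.PC (EM_sum)

section
variable {d p : ℕ} [hp : Fact p.Prime]

theorem prime_ringChar (h2 : p ≠ 2) : ringChar (ZMod p) ≠ 2 := by
  rwa [ZMod.ringChar_zmod_n]

open Classical in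
theorem EM_zero (hd : 4 ≤ d) (P : Option (ZMod p)) :
    EM p (fun a : Fin (d + 1) → ZMod p => if ev (ZMod p) a P = 0 then (1 : ℝ) else 0) = 1 / p := by
  have hp0 : (p : ℝ) ≠ 0 := by exact_mod_cast hp.out.ne_zero
  choose σ h1 h2 using fun v => sepOne (d := d) hd P ∅ (by simp) (by simp) v
  have h3 := EM_shift p σ (fun a => if ev (ZMod p) a P = 0 then (1 : ℝ) else 0) 1 fun a => by
    have e : ∀ v, (if ev (ZMod p) (a + σ v) P = 0 then (1 : ℝ) else 0) =
        if v = -ev (ZMod p) a P then 1 else 0 := by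
      intro v
      rw [ev_add, h1]
      congr 1
      rw [add_comm, eq_iff_iff, add_eq_zero_iff_eq_neg]
    rw [Finset.sum_congr rfl fun v _ => e v]
    simp
  rw [ZMod.card] at h3
  rw [eq_div_iff hp0, mul_comm]
  exact h3

open Classical in
theorem chi_sq (P : Option (ZMod p)) (a : Fin (d + 1) → ZMod p) :
    chi (ZMod p) a P * chi (ZMod p) a P =
      1 + (-1) * (if ev (ZMod p) a P = 0 then (1 : ℝ) else 0) := by
  unfold chi
  by_cases h : ev (ZMod p) a P = 0
  · rw [if_pos h, h]
    simp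
  · rw [if_neg h]
    have := quadraticChar_sq_one h
    have h2 : ((quadraticChar (ZMod p) (ev (ZMod p) a P) : ℤ) : ℝ) ^ 2 = 1 := by
      exact_mod_cast this
    rw [← sq, h2]
    simp

theorem EM_chi_sq (hd : 4 ≤ d) (P : Option (ZMod p)) :
    EM p (fun a : Fin (d + 1) → ZMod p => chi (ZMod p) a P * chi (ZMod p) a P) = 1 - 1 / p := by
  classical
  simp only [chi_sq]
  rw [EM_add, EM_mul, EM_const, EM_zero hd]
  ring

theorem chi_abs {L : Type} [Field L] [Algebra (ZMod p) L] [Fintype L] [DecidableEq L]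
    (a : Fin (d + 1) → ZMod p) (P : Option L) : |chi L a P| ≤ 1 := by
  unfold chi
  by_cases h : ev L a P = 0
  · rw [h]
    simp
  · rcases quadraticChar_dichotomy h with h1 | h1 <;> rw [h1] <;> simp

/-- The product of the character at a point different from the three others. -/
theorem EM_four (hd : 4 ≤ d) (h2 : p ≠ 2) (P Q R T : Option (ZMod p)) (hQ : P ≠ Q) (hR : P ≠ R)
    (hT : P ≠ T) : EM p (fun a : Fin (d + 1) → ZMod p => chi (ZMod p) a P *
      (chi (ZMod p) a Q * chi (ZMod p) a R * chi (ZMod p) a T)) = 0 := by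
  classical
  refine EM_chi (ZMod p) (prime_ringChar h2) P _ fun v => ?_
  obtain ⟨b, hb1, hb2⟩ := sepOne (d := d) hd P {Q, R, T} (Finset.card_le_three) (by
    simp only [Finset.mem_insert, Finset.mem_singleton]
    rintro (h | h | h)
    · exact hQ h
    · exact hR h
    · exact hT h) v
  refine ⟨b, hb1, fun a => ?_⟩
  unfold chi
  rw [ev_add, ev_add, ev_add, hb2 Q (by simp), hb2 R (by simp), hb2 T (by simp), add_zero,
    add_zero, add_zero]

theorem EM_two (hd : 4 ≤ d) (h2 : p ≠ 2) (P Q : Option (ZMod p)) (hQ : P ≠ Q) :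
    EM p (fun a : Fin (d + 1) → ZMod p => chi (ZMod p) a P * chi (ZMod p) a Q) = 0 := by
  classical
  refine EM_chi (ZMod p) (prime_ringChar h2) P _ fun v => ?_
  obtain ⟨b, hb1, hb2⟩ := sepOne (d := d) hd P {Q} (by simp) (by
    simpa using hQ) v
  refine ⟨b, hb1, fun a => ?_⟩
  unfold chi
  rw [ev_add, hb2 Q (by simp), add_zero]

/-- The character sum. -/
noncomputable def SS (L : Type) [Field L] [Algebra (ZMod p) L] [Fintype L] [DecidableEq L]
    (a : Fin (d + 1) → ZMod p) : ℝ :=
  ∑ P : Option L, chi L a P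

theorem EM_SS_sq (hd : 4 ≤ d) (h2 : p ≠ 2) :
    EM p (fun a : Fin (d + 1) → ZMod p => SS (ZMod p) a ^ 2) = (p + 1) * (1 - 1 / p) := by
  have e1 : (fun a : Fin (d + 1) → ZMod p => SS (ZMod p) a ^ 2) = fun a =>
      ∑ P : Option (ZMod p), ∑ Q : Option (ZMod p), chi (ZMod p) a P * chi (ZMod p) a Q := by
    funext a
    rw [sq]
    unfold SS
    rw [Finset.sum_mul_sum]
  rw [e1, EM_sum]
  have e2 : ∀ P : Option (ZMod p), EM p (fun a : Fin (d + 1) → ZMod p =>
      ∑ Q : Option (ZMod p), chi (ZMod p) a P * chi (ZMod p) a Q) = 1 - 1 / p := by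
    intro P
    rw [EM_sum, Finset.sum_eq_single P]
    · exact EM_chi_sq hd P
    · intro Q _ hQ
      exact EM_two hd h2 P Q hQ.symm
    · intro h
      exact absurd (Finset.mem_univ P) h
  rw [Finset.sum_congr rfl fun P _ => e2 P, Finset.sum_const, nsmul_eq_mul, Finset.card_univ,
    Fintype.card_option, ZMod.card]
  push_cast
  ring

theorem EM_le_one (g : (Fin (d + 1) → ZMod p) → ℝ) (h : ∀ a, |g a| ≤ 1) : EM p g ≤ 1 := by
  have h1 : EM p g ≤ EM p (fun _ : Fin (d + 1) → ZMod p => (1 : ℝ)) :=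
    EM_mono p _ _ fun a => (le_abs_self _).trans (h a)
  rwa [EM_const] at h1

open Classical in
theorem EM_SS_four (hd : 4 ≤ d) (h2 : p ≠ 2) :
    EM p (fun a : Fin (d + 1) → ZMod p => SS (ZMod p) a ^ 4) ≤ 3 * ((p : ℝ) + 1) ^ 2 := by
  have e1 : (fun a : Fin (d + 1) → ZMod p => SS (ZMod p) a ^ 4) = fun a =>
      ∑ R : Option (ZMod p), ∑ T : Option (ZMod p), ∑ P : Option (ZMod p), ∑ Q : Option (ZMod p),
        chi (ZMod p) a P * chi (ZMod p) a Q * (chi (ZMod p) a R * chi (ZMod p) a T) := by
    funext a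
    have e0 : SS (ZMod p) a ^ 4 = SS (ZMod p) a * SS (ZMod p) a * (SS (ZMod p) a * SS (ZMod p) a) := by
      ring
    rw [e0]
    unfold SS
    rw [Finset.sum_mul_sum]
    simp only [Finset.sum_mul, Finset.mul_sum]
  have key : ∀ P Q R T : Option (ZMod p), EM p (fun a : Fin (d + 1) → ZMod p =>
      chi (ZMod p) a P * chi (ZMod p) a Q * (chi (ZMod p) a R * chi (ZMod p) a T)) ≤
      (if P = Q then (1 : ℝ) else 0) * (if R = T then (1 : ℝ) else 0) +
      (if P = R then (1 : ℝ) else 0) * (if Q = T then (1 : ℝ) else 0) +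
      (if P = T then (1 : ℝ) else 0) * (if Q = R then (1 : ℝ) else 0) := by
    intro P Q R T
    have hle : EM p (fun a : Fin (d + 1) → ZMod p =>
        chi (ZMod p) a P * chi (ZMod p) a Q * (chi (ZMod p) a R * chi (ZMod p) a T)) ≤ 1 := by
      refine EM_le_one _ fun a => ?_
      rw [abs_mul, abs_mul, abs_mul]
      have h1 := chi_abs a P
      have h3 := chi_abs a Q
      have h4 := chi_abs a R
      have h5 := chi_abs a T
      exact mul_le_one₀ (mul_le_one₀ h1 (abs_nonneg _) h3) (by positivity)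
        (mul_le_one₀ h4 (abs_nonneg _) h5)
    have n1 : ∀ A B : Option (ZMod p), 0 ≤ (if A = B then (1 : ℝ) else 0) := by
      intro A B
      split_ifs <;> norm_num
    have hPQ := mul_nonneg (n1 P Q) (n1 R T)
    have hPR := mul_nonneg (n1 P R) (n1 Q T)
    have hPT := mul_nonneg (n1 P T) (n1 Q R)
    by_cases c1 : P = Q ∧ R = T
    · have : (if P = Q then (1 : ℝ) else 0) * (if R = T then (1 : ℝ) else 0) = 1 := by
        rw [if_pos c1.1, if_pos c1.2, mul_one]
      linarith
    by_cases c2 : P = R ∧ Q = T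
    · have : (if P = R then (1 : ℝ) else 0) * (if Q = T then (1 : ℝ) else 0) = 1 := by
        rw [if_pos c2.1, if_pos c2.2, mul_one]
      linarith
    by_cases c3 : P = T ∧ Q = R
    · have : (if P = T then (1 : ℝ) else 0) * (if Q = R then (1 : ℝ) else 0) = 1 := by
        rw [if_pos c3.1, if_pos c3.2, mul_one]
      linarith
    have hz : EM p (fun a : Fin (d + 1) → ZMod p =>
        chi (ZMod p) a P * chi (ZMod p) a Q * (chi (ZMod p) a R * chi (ZMod p) a T)) = 0 := by
      have iP : P ≠ Q → P ≠ R → P ≠ T → _ := fun a b c => EM_four hd h2 P Q R T a b c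
      have iQ : Q ≠ P → Q ≠ R → Q ≠ T → _ := fun a b c => EM_four hd h2 Q P R T a b c
      have iR : R ≠ P → R ≠ Q → R ≠ T → _ := fun a b c => EM_four hd h2 R P Q T a b c
      have iT : T ≠ P → T ≠ Q → T ≠ R → _ := fun a b c => EM_four hd h2 T P Q R a b c
      have eP : (fun a : Fin (d + 1) → ZMod p =>
          chi (ZMod p) a P * chi (ZMod p) a Q * (chi (ZMod p) a R * chi (ZMod p) a T)) = fun a =>
          chi (ZMod p) a P * (chi (ZMod p) a Q * chi (ZMod p) a R * chi (ZMod p) a T) := by
        funext a; ring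
      have eQ : (fun a : Fin (d + 1) → ZMod p =>
          chi (ZMod p) a P * chi (ZMod p) a Q * (chi (ZMod p) a R * chi (ZMod p) a T)) = fun a =>
          chi (ZMod p) a Q * (chi (ZMod p) a P * chi (ZMod p) a R * chi (ZMod p) a T) := by
        funext a; ring
      have eR : (fun a : Fin (d + 1) → ZMod p =>
          chi (ZMod p) a P * chi (ZMod p) a Q * (chi (ZMod p) a R * chi (ZMod p) a T)) = fun a =>
          chi (ZMod p) a R * (chi (ZMod p) a P * chi (ZMod p) a Q * chi (ZMod p) a T) := by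
        funext a; ring
      have eT : (fun a : Fin (d + 1) → ZMod p =>
          chi (ZMod p) a P * chi (ZMod p) a Q * (chi (ZMod p) a R * chi (ZMod p) a T)) = fun a =>
          chi (ZMod p) a T * (chi (ZMod p) a P * chi (ZMod p) a Q * chi (ZMod p) a R) := by
        funext a; ring
      by_cases h1 : P = Q
      · subst h1
        have hRT : R ≠ T := fun h => c1 ⟨rfl, h⟩
        by_cases h3 : P = R
        · subst h3
          rw [eT]
          exact iT hRT.symm hRT.symm hRT.symm
        · rw [eR]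
          exact iR (Ne.symm h3) (Ne.symm h3) hRT
      · by_cases h3 : P = R
        · subst h3
          have hQT : Q ≠ T := fun h => c2 ⟨rfl, h⟩
          rw [eQ]
          exact iQ (Ne.symm h1) (Ne.symm h1) hQT
        · by_cases h4 : P = T
          · subst h4
            have hQR : Q ≠ R := fun h => c3 ⟨rfl, h⟩
            rw [eQ]
            exact iQ (Ne.symm h1) hQR (Ne.symm h1)
          · rw [eP]
            exact iP h1 h3 h4
    rw [hz]
    linarith
  rw [e1, EM_sum]
  have e2 : ∀ R : Option (ZMod p), EM p (fun a : Fin (d + 1) → ZMod p =>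
      ∑ T : Option (ZMod p), ∑ P : Option (ZMod p), ∑ Q : Option (ZMod p),
        chi (ZMod p) a P * chi (ZMod p) a Q * (chi (ZMod p) a R * chi (ZMod p) a T)) ≤
      ∑ T : Option (ZMod p), ∑ P : Option (ZMod p), ∑ Q : Option (ZMod p),
      ((if P = Q then (1 : ℝ) else 0) * (if R = T then (1 : ℝ) else 0) +
      (if P = R then (1 : ℝ) else 0) * (if Q = T then (1 : ℝ) else 0) +
      (if P = T then (1 : ℝ) else 0) * (if Q = R then (1 : ℝ) else 0)) := by
    intro R
    rw [EM_sum]
    refine Finset.sum_le_sum fun T _ => ?_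
    rw [EM_sum]
    refine Finset.sum_le_sum fun P _ => ?_
    rw [EM_sum]
    exact Finset.sum_le_sum fun Q _ => key P Q R T
  refine (Finset.sum_le_sum fun R _ => e2 R).trans (le_of_eq ?_)
  have hc : (Fintype.card (Option (ZMod p)) : ℝ) = p + 1 := by
    rw [Fintype.card_option, ZMod.card]
    push_cast
    ring
  simp only [Finset.sum_add_distrib, ← Finset.mul_sum, ← Finset.sum_mul, Finset.sum_ite_eq,
    Finset.sum_ite_eq', Finset.mem_univ, if_true, Finset.sum_const, Finset.card_univ,
    nsmul_eq_mul, mul_one, one_mul, hc]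
  ring

end

end Pool.Agent.H36.KM
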