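import Pool.Agent.H36.KM.Quad

/-!
# The number of points and the character sums
-/

set_option autoImplicit false
set_option linter.unusedSectionVars false

namespace Pool.Agent.H36.KM

open Finset Polynomial
open Pool.Agent.Y722.HS (EM red)

section
variable {d p : ℕ} [hp : Fact p.Prime] {L : Type} [Field L] [Algebra (ZMod p) L] [Fintype L]
  [DecidableEq L]

theorem card_sqrt (hL : ringChar L ≠ 2) (v : L) :
    (Nat.card {y : L // y ^ 2 = v} : ℝ) = 1 + ((quadraticChar L v : ℤ) : ℝ) := by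
  classical
  have h1 := quadraticChar_card_sqrts hL v
  have h2 : Nat.card {y : L // y ^ 2 = v} = ({x : L | x ^ 2 = v} : Set L).toFinset.card := by
    rw [Set.toFinset_card, Nat.card_eq_fintype_card]
    rfl
  rw [h2]
  have h3 : ((({x : L | x ^ 2 = v} : Set L).toFinset.card : ℤ) : ℝ) =
      ((quadraticChar L v + 1 : ℤ) : ℝ) := by
    rw [h1]
  push_cast at h3
  linarith

theorem numP (hL : ringChar L ≠ 2) (a : Fin (d + 1) → ZMod p) :
    (Nat.card {P : L × L // P.2 ^ 2 = ev L a (some P.1)} : ℝ) +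
      Nat.card {y : L // y ^ 2 = ev L a none} = Fintype.card L + 1 + SS L a := by
  classical
  have h1 : Nat.card {P : L × L // P.2 ^ 2 = ev L a (some P.1)} =
      ∑ x : L, Nat.card {y : L // y ^ 2 = ev L a (some x)} := by
    rw [← Nat.card_sigma]
    refine Nat.card_congr ⟨fun P => ⟨P.1.1, P.1.2, P.2⟩, fun Q => ⟨(Q.1, Q.2.1), Q.2.2⟩, ?_, ?_⟩
    · rintro ⟨⟨x, y⟩, h⟩
      rfl
    · rintro ⟨x, y, h⟩
      rfl
  rw [h1, Nat.cast_sum, Finset.sum_congr rfl fun x _ => card_sqrt hL (ev L a (some x)),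
    card_sqrt hL]
  unfold SS
  rw [Fintype.sum_option, Finset.sum_add_distrib, Finset.sum_const, nsmul_eq_mul,
    Finset.card_univ]
  unfold chi
  ring

end

section
variable {d p : ℕ} [hp : Fact p.Prime]

theorem SS_equiv {L L' : Type} [Field L] [Algebra (ZMod p) L] [Fintype L] [DecidableEq L]
    [Field L'] [Algebra (ZMod p) L'] [Fintype L'] [DecidableEq L'] (e : L ≃ₐ[ZMod p] L')
    (a : Fin (d + 1) → ZMod p) : SS L a = SS L' a := by
  unfold SS
  refine Fintype.sum_equiv (Equiv.optionCongr e.toEquiv) _ _ fun P => ?_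
  have h1 : ev L' a (Equiv.optionCongr e.toEquiv P) = e (ev L a P) := by
    cases P with
    | none =>
      simp [ev]
    | some x =>
      simp [ev]
  unfold chi
  rw [h1]
  have h2 : quadraticChar L' (e (ev L a P)) = quadraticChar L (ev L a P) := by
    rw [quadraticChar_apply, quadraticChar_apply]
    unfold quadraticCharFun
    have h3 : IsSquare (e (ev L a P)) ↔ IsSquare (ev L a P) := by
      constructor
      · rintro ⟨r, hr⟩
        refine ⟨e.symm r, ?_⟩
        rw [← map_mul, ← hr, AlgEquiv.symm_apply_apply]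
      · rintro ⟨r, hr⟩
        exact ⟨e r, by rw [hr, map_mul]⟩
    simp only [EmbeddingLike.map_eq_zero_iff, h3]
  rw [h2]

open Classical in
/-- The sum over the field with `p ^ 2` elements. -/
noncomputable def S2 (a : Fin (d + 1) → ZMod p) : ℝ :=
  letI := Fintype.ofFinite (GaloisField p 2)
  SS (GaloisField p 2) a

theorem card_G (k : ℕ) (hk : k ≠ 0) [Fintype (GaloisField p k)] :
    Fintype.card (GaloisField p k) = p ^ k := by
  rw [← Nat.card_eq_fintype_card]
  exact GaloisField.card p k hk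

theorem numPoints_eq (c : Fin (d + 1) → ℤ) (k : ℕ) (hk : k ≠ 0) (h2 : p ≠ 2)
    [Fintype (GaloisField p k)] [DecidableEq (GaloisField p k)] :
    numPoints c p k = (p : ℝ) ^ k + 1 + SS (GaloisField p k) (red p c) := by
  have h1 := numP (ringChar_L (p := p) (L := GaloisField p k) h2) (red p c)
  rw [card_G k hk] at h1
  unfold numPoints
  rw [dif_pos hp.out]
  have e1 : ∀ x : GaloisField p k, ev (GaloisField p k) (red p c) (some x) =
      ∑ i, (c i : GaloisField p k) * x ^ (i : ℕ) := by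
    intro x
    unfold ev red
    exact Finset.sum_congr rfl fun i _ => by rw [map_intCast]
  have e2 : ev (GaloisField p k) (red p c) none = (c (Fin.last d) : GaloisField p k) := by
    unfold ev red
    rw [map_intCast]
  simp only [e1, e2] at h1
  rw [h1]
  push_cast
  ring

theorem trace1 (c : Fin (d + 1) → ℤ) (h2 : p ≠ 2) :
    traceH1 c p 1 = -SS (ZMod p) (red p c) := by
  classical
  have := Fintype.ofFinite (GaloisField p 1)
  unfold traceH1
  rw [numPoints_eq c 1 one_ne_zero h2, SS_equiv (GaloisField.equivZmodP p)]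
  ring

theorem trace2 (c : Fin (d + 1) → ℤ) (h2 : p ≠ 2) :
    traceH1 c p 2 = -S2 (red p c) := by
  classical
  letI := Fintype.ofFinite (GaloisField p 2)
  unfold traceH1 S2
  rw [numPoints_eq c 2 two_ne_zero h2]
  ring

/-- The moments. -/
theorem mom1 (hd : 4 ≤ d) (h2 : p ≠ 2) :
    |EM p (fun a : Fin (d + 1) → ZMod p => SS (ZMod p) a ^ 2 / p) - 1| ≤ 1 / p ∧
    EM p (fun a : Fin (d + 1) → ZMod p => (SS (ZMod p) a ^ 2 / p) ^ 2) ≤ 12 := by
  have hp1 : (1 : ℝ) ≤ p := by exact_mod_cast hp.out.one_lt.le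
  have hp0 : (0 : ℝ) < p := by linarith
  have h1 := EM_SS_sq (d := d) hd h2
  have h4 := EM_SS_four (d := d) hd h2
  constructor
  · have e1 : (fun a : Fin (d + 1) → ZMod p => SS (ZMod p) a ^ 2 / p) = fun a =>
        (1 / p : ℝ) * (SS (ZMod p) a ^ 2) := by
      funext a
      ring
    rw [e1, Pool.Agent.Y722.LS.EM_mul, h1]
    have e2 : (1 / p : ℝ) * ((p + 1) * (1 - 1 / p)) - 1 = -(1 / p * (1 / p)) := by
      field_simp
      ring
    rw [e2, abs_neg, abs_of_nonneg (by positivity)]
    have : (1 / p : ℝ) ≤ 1 := by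
      rw [div_le_one hp0]
      exact hp1
    calc (1 / p : ℝ) * (1 / p) ≤ 1 / p * 1 := by gcongr
      _ = _ := mul_one _
  · have e1 : (fun a : Fin (d + 1) → ZMod p => (SS (ZMod p) a ^ 2 / p) ^ 2) = fun a =>
        (1 / (p : ℝ) ^ 2) * (SS (ZMod p) a ^ 4) := by
      funext a
      field_simp
    rw [e1, Pool.Agent.Y722.LS.EM_mul, one_div_mul_eq_div, div_le_iff₀ (by positivity)]
    nlinarith

theorem mom2 (hd : 4 ≤ d) (h2 : p ≠ 2) :
    |EM p (fun a : Fin (d + 1) → ZMod p => S2 a / p) - 1| ≤ 1 / p ∧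
    EM p (fun a : Fin (d + 1) → ZMod p => (S2 a / p) ^ 2) ≤ 12 := by
  classical
  letI := Fintype.ofFinite (GaloisField p 2)
  have hp1 : (1 : ℝ) ≤ p := by exact_mod_cast hp.out.one_lt.le
  have hp0 : (0 : ℝ) < p := by linarith
  have hc : Fintype.card (GaloisField p 2) = p ^ 2 := card_G 2 two_ne_zero
  have h1 := EM_SL (d := d) hc hd h2
  have h4 := EM_SL_sq (d := d) hc hd h2
  constructor
  · have e1 : (fun a : Fin (d + 1) → ZMod p => S2 a / p) = fun a =>
        (1 / p : ℝ) * (SS (GaloisField p 2) a) := by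
      funext a
      unfold S2
      rw [one_div_mul_eq_div]
    rw [e1, Pool.Agent.Y722.LS.EM_mul, h1]
    have e2 : (1 / p : ℝ) * ((p + 1) * (1 - 1 / p)) - 1 = -(1 / p * (1 / p)) := by
      field_simp
      ring
    rw [e2, abs_neg, abs_of_nonneg (by positivity)]
    have : (1 / p : ℝ) ≤ 1 := by
      rw [div_le_one hp0]
      exact hp1
    calc (1 / p : ℝ) * (1 / p) ≤ 1 / p * 1 := by gcongr
      _ = _ := mul_one _
  · have e1 : (fun a : Fin (d + 1) → ZMod p => (S2 a / p) ^ 2) = fun a =>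
        (1 / (p : ℝ) ^ 2) * (SS (GaloisField p 2) a ^ 2) := by
      funext a
      unfold S2
      rw [div_pow, one_div_mul_eq_div]
    rw [e1, Pool.Agent.Y722.LS.EM_mul, one_div_mul_eq_div, div_le_iff₀ (by positivity)]
    nlinarith

end

end Pool.Agent.H36.KM
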