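import Pool.Agent.H36.KM.Mom

/-!
# The moments of the character sums over the quadratic extension
-/

set_option autoImplicit false
set_option linter.unusedSectionVars false

namespace Pool.Agent.H36.KM

open Finset Polynomial
open Pool.Agent.Y722.HS (EM red)
open Pool.Agent.Y722.HS (EM_mono EM_const)
open Pool.Agent.Y722.LS (EM_add EM_mul)
open Pool.Agent.Y722.PC (EM_sum)

section
variable {d p : ℕ} [hp : Fact p.Prime] {L : Type} [Field L] [Algebra (ZMod p) L] [Fintype L]
  [DecidableEq L]

/-- The rational points. -/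
def inc (L : Type) [Field L] [Algebra (ZMod p) L] (P : Option (ZMod p)) : Option L :=
  P.map (algebraMap (ZMod p) L)

theorem inc_inj : Function.Injective (inc (p := p) L) :=
  Option.map_injective (algebraMap (ZMod p) L).injective

theorem ev_inc (a : Fin (d + 1) → ZMod p) (P : Option (ZMod p)) :
    ev L a (inc L P) = algebraMap (ZMod p) L (ev (ZMod p) a P) := by
  cases P with
  | none => simp [ev, inc]
  | some x => simp [ev, inc]

theorem ringChar_L (h2 : p ≠ 2) : ringChar L ≠ 2 := by
  have hchar : CharP L p := charP_of_injective_algebraMap (algebraMap (ZMod p) L).injective p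
  rwa [ringChar.eq L p]

/-- The Frobenius map on the points. -/
def frob (p : ℕ) (P : Option L) : Option L := P.map (fun x => x ^ p)

theorem frob_frob (hc : Fintype.card L = p ^ 2) (P : Option L) : frob p (frob p P) = P := by
  cases P with
  | none => rfl
  | some x =>
    simp only [frob, Option.map_some, Option.some.injEq]
    rw [← pow_mul, ← sq, ← hc, FiniteField.pow_card]

theorem frob_inc (P : Option L) (h : frob p P = P) : ∃ Q : Option (ZMod p), inc L Q = P := by
  cases P with
  | none => exact ⟨none, rfl⟩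
  | some x =>
    simp only [frob, Option.map_some, Option.some.injEq] at h
    obtain ⟨w, hw⟩ := mem_range_of_pow (p := p) x h
    exact ⟨some w, by simp [inc, hw]⟩

theorem inc_frob (Q : Option (ZMod p)) : frob p (inc L Q) = inc L Q := by
  cases Q with
  | none => rfl
  | some x => simp [frob, inc, pow_of_map]

open Classical in
theorem chi_inc (hc : Fintype.card L = p ^ 2) (h2 : p ≠ 2) (a : Fin (d + 1) → ZMod p)
    (P : Option (ZMod p)) :
    chi L a (inc L P) = 1 + (-1) * (if ev (ZMod p) a P = 0 then (1 : ℝ) else 0) := by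
  unfold chi
  rw [ev_inc]
  by_cases h : ev (ZMod p) a P = 0
  · rw [if_pos h, h]
    simp
  · rw [if_neg h]
    have h3 : algebraMap (ZMod p) L (ev (ZMod p) a P) ≠ 0 := by
      rwa [Ne, map_eq_zero]
    have h4 : IsSquare (algebraMap (ZMod p) L (ev (ZMod p) a P)) := by
      rw [FiniteField.isSquare_iff (ringChar_L (p := p) h2) h3, hc, ← map_pow]
      have hodd : Odd p := hp.out.odd_of_ne_two h2
      obtain ⟨k, hk⟩ := hodd
      have e : p ^ 2 / 2 = (p - 1) * (k + 1) := by
        have : p - 1 = 2 * k := by omega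
        rw [this]
        have e3 : p ^ 2 = 2 * (2 * k * (k + 1)) + 1 := by
          rw [hk]; ring
        rw [e3]
        omega
      rw [e, pow_mul, ZMod.pow_card_sub_one_eq_one h, one_pow, map_one]
    rw [(quadraticChar_one_iff_isSquare h3).2 h4]
    simp

theorem EM_chi_irr (hc : Fintype.card L = p ^ 2) (hd : 4 ≤ d) (h2 : p ≠ 2) (P Q : Option L)
    (hP : frob p P ≠ P) (h : Q ≠ P) (h' : Q ≠ frob p P) :
    EM p (fun a : Fin (d + 1) → ZMod p => chi L a P * chi L a Q) = 0 := by
  cases P with
  | none => exact absurd rfl hP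
  | some x =>
    refine EM_chi L (ringChar_L (p := p) h2) _ _ fun v => ?_
    have hx : x ^ p ≠ x := fun h3 => hP (by simp [frob, h3])
    obtain ⟨b, hb1, hb2⟩ := sepTwo (d := d) hc hd x hx Q h h' v
    refine ⟨b, hb1, fun a => ?_⟩
    unfold chi
    rw [ev_add, hb2, add_zero]

theorem EM_chi_irr1 (hc : Fintype.card L = p ^ 2) (hd : 4 ≤ d) (h2 : p ≠ 2) (P : Option L)
    (hP : frob p P ≠ P) : EM p (fun a : Fin (d + 1) → ZMod p => chi L a P) = 0 := by
  cases P with
  | none => exact absurd rfl hP
  | some x =>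
    have h1 := EM_chi (d := d) L (ringChar_L (p := p) h2) (some x) (fun _ => 1) fun v => by
      have hx : x ^ p ≠ x := fun h3 => hP (by simp [frob, h3])
      obtain ⟨b, hb1, -⟩ := sepTwo (d := d) hc hd x hx none (by simp) (by simp) v
      exact ⟨b, hb1, fun _ => rfl⟩
    simpa using h1

theorem EM_SL (hc : Fintype.card L = p ^ 2) (hd : 4 ≤ d) (h2 : p ≠ 2) :
    EM p (fun a : Fin (d + 1) → ZMod p => SS L a) = (p + 1) * (1 - 1 / p) := by
  classical
  unfold SS
  rw [EM_sum]
  have h1 : ∑ P : Option L, EM p (fun a : Fin (d + 1) → ZMod p => chi L a P) =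
      ∑ P ∈ Finset.univ.image (inc (p := p) L), EM p (fun a : Fin (d + 1) → ZMod p =>
        chi L a P) := by
    refine (Finset.sum_subset (Finset.subset_univ _) ?_).symm
    intro P _ hP
    refine EM_chi_irr1 hc hd h2 P fun h => hP ?_
    obtain ⟨Q, hQ⟩ := frob_inc P h
    exact Finset.mem_image.2 ⟨Q, Finset.mem_univ _, hQ⟩
  have h3 : ∀ P : Option L, EM p ((fun P (a : Fin (d + 1) → ZMod p) => chi L a P) P) =
    EM p (fun a : Fin (d + 1) → ZMod p => chi L a P) := fun P => rfl
  rw [Finset.sum_congr rfl fun P _ => h3 P, h1, Finset.sum_image fun x _ y _ h => inc_inj h]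
  have h4 : ∀ P : Option (ZMod p), EM p (fun a : Fin (d + 1) → ZMod p => chi L a (inc L P)) =
      1 - 1 / p := by
    intro P
    simp only [chi_inc hc h2]
    rw [EM_add, EM_mul, EM_const, EM_zero hd]
    ring
  rw [Finset.sum_congr rfl fun P _ => h4 P, Finset.sum_const, nsmul_eq_mul, Finset.card_univ,
    Fintype.card_option, ZMod.card]
  push_cast
  ring

open Classical in
theorem EM_SL_sq (hc : Fintype.card L = p ^ 2) (hd : 4 ≤ d) (h2 : p ≠ 2) :
    EM p (fun a : Fin (d + 1) → ZMod p => SS L a ^ 2) ≤
      ((p : ℝ) + 1) ^ 2 + 2 * ((p : ℝ) ^ 2 + 1) := by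
  have e1 : (fun a : Fin (d + 1) → ZMod p => SS L a ^ 2) = fun a =>
      ∑ P : Option L, ∑ Q : Option L, chi L a P * chi L a Q := by
    funext a
    rw [sq]
    unfold SS
    rw [Finset.sum_mul_sum]
  have key : ∀ P Q : Option L, EM p (fun a : Fin (d + 1) → ZMod p => chi L a P * chi L a Q) ≤
      (if frob p P = P then (1 : ℝ) else 0) * (if frob p Q = Q then (1 : ℝ) else 0) +
      (if Q = P then (1 : ℝ) else 0) + (if Q = frob p P then (1 : ℝ) else 0) := by
    intro P Q
    have hle : EM p (fun a : Fin (d + 1) → ZMod p => chi L a P * chi L a Q) ≤ 1 := by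
      refine EM_le_one _ fun a => ?_
      rw [abs_mul]
      exact mul_le_one₀ (chi_abs a P) (abs_nonneg _) (chi_abs a Q)
    have n1 : 0 ≤ (if frob p P = P then (1 : ℝ) else 0) * (if frob p Q = Q then (1 : ℝ) else 0) := by
      split_ifs <;> norm_num
    have n2 : 0 ≤ (if Q = P then (1 : ℝ) else 0) := by split_ifs <;> norm_num
    have n3 : 0 ≤ (if Q = frob p P then (1 : ℝ) else 0) := by split_ifs <;> norm_num
    by_cases c1 : Q = P
    · rw [if_pos c1] at n2 ⊢
      linarith
    by_cases c2 : Q = frob p P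
    · rw [if_pos c2] at n3 ⊢
      linarith
    by_cases c3 : frob p P = P
    · by_cases c4 : frob p Q = Q
      · rw [if_pos c3, if_pos c4] at n1 ⊢
        linarith
      · have hz : EM p (fun a : Fin (d + 1) → ZMod p => chi L a P * chi L a Q) = 0 := by
          have h5 := EM_chi_irr (d := d) hc hd h2 Q P c4 (Ne.symm c1) (fun h => c1 (by
            rw [← c3, h, frob_frob hc]))
          rw [← h5]
          congr 1
          funext a
          ring
        rw [hz]
        linarith
    · rw [EM_chi_irr hc hd h2 P Q c3 c1 c2]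
      linarith
  rw [e1, EM_sum]
  have e2 : ∀ P : Option L, EM p (fun a : Fin (d + 1) → ZMod p =>
      ∑ Q : Option L, chi L a P * chi L a Q) ≤
      ∑ Q : Option L, ((if frob p P = P then (1 : ℝ) else 0) *
        (if frob p Q = Q then (1 : ℝ) else 0) +
      (if Q = P then (1 : ℝ) else 0) + (if Q = frob p P then (1 : ℝ) else 0)) := by
    intro P
    rw [EM_sum]
    exact Finset.sum_le_sum fun Q _ => key P Q
  refine (Finset.sum_le_sum fun P _ => e2 P).trans ?_
  have hcard : (Fintype.card (Option L) : ℝ) = p ^ 2 + 1 := by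
    rw [Fintype.card_option, hc]
    push_cast
    ring
  have hrat : ∑ P : Option L, (if frob p P = P then (1 : ℝ) else 0) = p + 1 := by
    rw [← Finset.sum_filter, Finset.sum_const, nsmul_eq_mul, mul_one]
    have h6 : (Finset.univ.filter fun P : Option L => frob p P = P) =
        Finset.univ.image (inc (p := p) L) := by
      ext P
      rw [Finset.mem_filter, Finset.mem_image]
      constructor
      · rintro ⟨-, h⟩
        obtain ⟨Q, hQ⟩ := frob_inc P h
        exact ⟨Q, Finset.mem_univ _, hQ⟩
      · rintro ⟨Q, -, rfl⟩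
        exact ⟨Finset.mem_univ _, inc_frob Q⟩
    rw [h6, Finset.card_image_of_injective _ inc_inj, Finset.card_univ, Fintype.card_option,
      ZMod.card]
    push_cast
    ring
  simp only [Finset.sum_add_distrib, ← Finset.mul_sum, ← Finset.sum_mul, Finset.sum_ite_eq,
    Finset.sum_ite_eq', Finset.mem_univ, if_true, Finset.sum_const, Finset.card_univ,
    nsmul_eq_mul, mul_one, hcard, hrat]
  apply le_of_eq
  ring

end

end Pool.Agent.H36.KM
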